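import Pool.Agent.Work.MP_49ac7c_an.Final2

/-!
Assembly of the blow-up solution.
-/

set_option autoImplicit false

namespace Pool.Agent.Work.MP_49ac7c_an

theorem main :
    ∃ (T : ℝ) (ω R Ψ : ℝ → ℝ → ℝ), 0 < T ∧
      ContDiffOn ℝ ((⊤ : ℕ∞) : WithTop ℕ∞) (fun p : ℝ × ℝ => ω p.1 p.2)
        (Set.Icc (-(Real.pi / 4)) (Real.pi / 4) ×ˢ Set.Ico 0 T) ∧
      ContDiffOn ℝ ((⊤ : ℕ∞) : WithTop ℕ∞) (fun p : ℝ × ℝ => R p.1 p.2)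
        (Set.Icc (-(Real.pi / 4)) (Real.pi / 4) ×ˢ Set.Ico 0 T) ∧
      (∀ t ∈ Set.Ico 0 T,
        ContDiffOn ℝ 2 (fun θ => Ψ θ t) (Set.Icc (-(Real.pi / 4)) (Real.pi / 4)) ∧
        Ψ (-(Real.pi / 4)) t = 0 ∧ Ψ (Real.pi / 4) t = 0 ∧
        (∫ θ in (-(Real.pi / 4))..(Real.pi / 4), Ψ θ t * Real.cos (2 * θ)) = 0 ∧
        (∀ θ ∈ Set.Ioo (-(Real.pi / 4)) (Real.pi / 4),
          deriv (deriv (fun φ => Ψ φ t)) θ + 4 * Ψ θ t = ω θ t)) ∧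
      (∀ t ∈ Set.Ioo 0 T, ∀ θ ∈ Set.Ioo (-(Real.pi / 4)) (Real.pi / 4),
        deriv (fun s => ω θ s) t + 2 * Ψ θ t * deriv (fun φ => ω φ t) θ
            + (R θ t * Real.sin θ + deriv (fun φ => R φ t) θ * Real.cos θ) = 0 ∧
        deriv (fun s => R θ s) t + 2 * Ψ θ t * deriv (fun φ => R φ t) θ
            - deriv (fun φ => Ψ φ t) θ * R θ t = 0) ∧
      (∀ t ∈ Set.Ico 0 T,
        ω (-(Real.pi / 4)) t = 0 ∧ ω (Real.pi / 4) t = 0 ∧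
        R (-(Real.pi / 4)) t = 0 ∧ R (Real.pi / 4) t = 0 ∧
        derivWithin (fun φ => R φ t) (Set.Icc (-(Real.pi / 4)) (Real.pi / 4)) (-(Real.pi / 4)) = 0 ∧
        derivWithin (fun φ => R φ t) (Set.Icc (-(Real.pi / 4)) (Real.pi / 4)) (Real.pi / 4) = 0) ∧
      (∀ M : ℝ, ∃ t₀ ∈ Set.Ico 0 T, ∀ t ∈ Set.Ioo t₀ T,
        ∃ θ ∈ Set.Ioo (-(Real.pi / 4)) (Real.pi / 4),
          M < |ω θ t| + Real.sqrt (R θ t ^ 2 + (deriv (fun φ => R φ t) θ) ^ 2)) := by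
  obtain ⟨T, u, hT, h0, h, hblow⟩ := exists_solution
  refine ⟨T, om u, Rr u, Ps u, hT, om_smooth h h0, Rr_smooth h h0, fun t ht => ?_,
    fun t ht θ hθ => ⟨pde_om h h0 ht hθ, pde_R h h0 ht hθ⟩, fun t ht => ?_, fun M => ?_⟩
  · have hG := good_at h h0 ht
    exact ⟨Ps_slice h h0 ht, Ps_mpi4 hG, Ps_pi4 hG, Ps_int hG, fun θ hθ => ell h h0 ht hθ⟩
  · have hG := good_at h h0 ht
    exact ⟨om_mpi4 h h0 ht, om_pi4 h h0 ht, Rr_mpi4 hG, Rr_pi4 hG, dRr_mpi4 h h0 ht,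
      dRr_pi4 h h0 ht⟩
  · obtain ⟨t₀, ht₀, hM⟩ := hblow M
    refine ⟨t₀, ht₀, fun t ht => ⟨0, ⟨by linarith [Real.pi_pos], by linarith [Real.pi_pos]⟩, ?_⟩⟩
    have ht' : t ∈ Set.Ico 0 T := ⟨ht₀.1.trans ht.1.le, ht.2⟩
    have h1 := hM t ⟨ht.1.le, ht.2⟩
    rw [Rr_zero h h0 ht']
    have h2 : |(u t).1| ≤ Real.sqrt ((-(u t).1) ^ 2 + (deriv (fun φ => Rr u φ t) 0) ^ 2) := by
      refine Real.abs_le_sqrt ?_
      nlinarith [sq_nonneg (deriv (fun φ => Rr u φ t) 0)]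
    have h3 := le_abs_self (u t).1
    have h4 := abs_nonneg (om u 0 t)
    linarith

end Pool.Agent.Work.MP_49ac7c_an
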