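import Pool.Agent.Work.MP_49ac7c_an.ODE

/-!
The Banach algebra `C([-1,1])` with integration from `0` and reflection.
-/

set_option autoImplicit false

namespace Pool.Agent.Work.MP_49ac7c_an

open Set Metric Filter Topology MeasureTheory
open scoped NNReal

abbrev I : Set ℝ := Icc (-1 : ℝ) 1

abbrev CI : Type := C(I, ℝ)

lemma neg_one_le_one' : (-1 : ℝ) ≤ 1 := by norm_num

/-- evaluation (with constant extension outside `[-1,1]`). -/
noncomputable def ev (f : CI) (x : ℝ) : ℝ := f (projIcc (-1) 1 neg_one_le_one' x)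

noncomputable def evL (x : ℝ) : CI →L[ℝ] ℝ :=
  ContinuousMap.evalCLM ℝ (projIcc (-1) 1 neg_one_le_one' x)

lemma evL_apply (x : ℝ) (f : CI) : evL x f = ev f x := rfl

lemma continuous_ev (f : CI) : Continuous (ev f) := f.continuous.comp continuous_projIcc

lemma ev_of_mem (f : CI) {x : ℝ} (hx : x ∈ I) : ev f x = f ⟨x, hx⟩ := by
  unfold ev; rw [projIcc_of_mem _ hx]

lemma ev_ext {f g : CI} (h : ∀ x ∈ I, ev f x = ev g x) : f = g := by
  ext ⟨x, hx⟩
  have := h x hx
  rwa [ev_of_mem f hx, ev_of_mem g hx] at this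

@[simp] lemma ev_add (f g : CI) (x : ℝ) : ev (f + g) x = ev f x + ev g x := rfl
@[simp] lemma ev_sub (f g : CI) (x : ℝ) : ev (f - g) x = ev f x - ev g x := rfl
@[simp] lemma ev_mul (f g : CI) (x : ℝ) : ev (f * g) x = ev f x * ev g x := rfl
@[simp] lemma ev_neg (f : CI) (x : ℝ) : ev (-f) x = - ev f x := rfl
@[simp] lemma ev_pow (f : CI) (n : ℕ) (x : ℝ) : ev (f ^ n) x = ev f x ^ n := rfl
@[simp] lemma ev_one (x : ℝ) : ev 1 x = 1 := rfl
@[simp] lemma ev_zero (x : ℝ) : ev 0 x = 0 := rfl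
@[simp] lemma ev_algebraMap (c x : ℝ) : ev (algebraMap ℝ CI c) x = c := rfl
@[simp] lemma ev_smul (c : ℝ) (f : CI) (x : ℝ) : ev (c • f) x = c * ev f x := rfl
@[simp] lemma ev_ofNat (n : ℕ) [n.AtLeastTwo] (x : ℝ) :
    ev (OfNat.ofNat n : CI) x = OfNat.ofNat n := rfl

lemma abs_ev_le (f : CI) (x : ℝ) : |ev f x| ≤ ‖f‖ := f.norm_coe_le_norm _

lemma norm_le_of_ev {f : CI} {C : ℝ} (hC : 0 ≤ C) (h : ∀ x ∈ I, |ev f x| ≤ C) : ‖f‖ ≤ C := by
  rw [ContinuousMap.norm_le _ hC]
  rintro ⟨x, hx⟩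
  have := h x hx
  rwa [ev_of_mem f hx] at this

lemma norm_one_le : ‖(1 : CI)‖ ≤ 1 := norm_le_of_ev zero_le_one (by simp)

/-- integration from zero. -/
noncomputable def Int0 : CI →L[ℝ] CI :=
  LinearMap.mkContinuous
    { toFun := fun f => ⟨fun x => ∫ s in (0:ℝ)..x, ev f s, by
        have : Continuous (fun x : ℝ => ∫ s in (0:ℝ)..x, ev f s) :=
          intervalIntegral.continuous_primitive (fun a b => (continuous_ev f).intervalIntegrable a b) 0
        exact this.comp continuous_subtype_val⟩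
      map_add' := by
        intro f g
        ext x
        simp only [ContinuousMap.coe_mk, ContinuousMap.add_apply, ev_add]
        exact intervalIntegral.integral_add ((continuous_ev f).intervalIntegrable _ _)
          ((continuous_ev g).intervalIntegrable _ _)
      map_smul' := by
        intro c f
        ext x
        simp only [ContinuousMap.coe_mk, ContinuousMap.smul_apply, ev_smul, RingHom.id_apply,
          smul_eq_mul, intervalIntegral.integral_const_mul] } 1 (by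
    intro f
    rw [one_mul, ContinuousMap.norm_le _ (norm_nonneg _)]
    rintro ⟨x, hx⟩
    simp only [LinearMap.coe_mk, AddHom.coe_mk, ContinuousMap.coe_mk]
    calc ‖∫ s in (0:ℝ)..x, ev f s‖ ≤ ‖f‖ * |x - 0| :=
          intervalIntegral.norm_integral_le_of_norm_le_const fun s _ => abs_ev_le f s
      _ ≤ ‖f‖ * 1 := by
          gcongr
          rw [sub_zero, abs_le]; exact hx
      _ = ‖f‖ := mul_one _)

lemma ev_Int0 (f : CI) {x : ℝ} (hx : x ∈ I) : ev (Int0 f) x = ∫ s in (0:ℝ)..x, ev f s := by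
  rw [ev_of_mem _ hx]; rfl

lemma zero_mem_I : (0 : ℝ) ∈ I := ⟨by norm_num, by norm_num⟩
lemma one_mem_I : (1 : ℝ) ∈ I := ⟨by norm_num, by norm_num⟩
lemma neg_one_mem_I : (-1 : ℝ) ∈ I := ⟨by norm_num, by norm_num⟩

@[simp] lemma ev_Int0_zero (f : CI) : ev (Int0 f) 0 = 0 := by
  rw [ev_Int0 f zero_mem_I]; simp

lemma norm_Int0_le (f : CI) : ‖Int0 f‖ ≤ ‖f‖ := by
  refine norm_le_of_ev (norm_nonneg _) fun x hx => ?_
  rw [ev_Int0 f hx, ← Real.norm_eq_abs]
  calc ‖∫ s in (0:ℝ)..x, ev f s‖ ≤ ‖f‖ * |x - 0| :=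
        intervalIntegral.norm_integral_le_of_norm_le_const fun s _ => abs_ev_le f s
    _ ≤ ‖f‖ * 1 := by
        gcongr
        rw [sub_zero, abs_le]; exact hx
    _ = ‖f‖ := mul_one _

lemma hasDeriv_Int0 (f : CI) {x : ℝ} (hx : x ∈ I) :
    HasDerivWithinAt (ev (Int0 f)) (ev f x) I x := by
  have h1 : HasDerivAt (fun x : ℝ => ∫ s in (0:ℝ)..x, ev f s) (ev f x) x :=
    intervalIntegral.integral_hasDerivAt_right ((continuous_ev f).intervalIntegrable _ _)
      ((continuous_ev f).stronglyMeasurableAtFilter _ _) (continuous_ev f).continuousAt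
  exact h1.hasDerivWithinAt.congr (fun y hy => ev_Int0 f hy) (ev_Int0 f hx)

/-- `g` is the `x`-derivative of `f` on `[-1,1]`. -/
def Dx (f g : CI) : Prop := ∀ x ∈ I, HasDerivWithinAt (ev f) (ev g x) I x

lemma Dx.Int0 (f : CI) : Dx (Int0 f) f := fun _ hx => hasDeriv_Int0 f hx

lemma Dx.const (c : ℝ) : Dx (algebraMap ℝ CI c) 0 := fun x _ => by
  have : ev (algebraMap ℝ CI c) = fun _ => c := rfl
  rw [this]
  exact hasDerivWithinAt_const _ _ _

lemma Dx.add {f g f' g' : CI} (h : Dx f f') (h' : Dx g g') : Dx (f + g) (f' + g') :=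
  fun x hx => (h x hx).add (h' x hx)

lemma Dx.sub {f g f' g' : CI} (h : Dx f f') (h' : Dx g g') : Dx (f - g) (f' - g') :=
  fun x hx => (h x hx).sub (h' x hx)

lemma Dx.neg {f f' : CI} (h : Dx f f') : Dx (-f) (-f') :=
  fun x hx => (h x hx).neg

lemma Dx.mul {f g f' g' : CI} (h : Dx f f') (h' : Dx g g') : Dx (f * g) (f' * g + f * g') :=
  fun x hx => (h x hx).mul (h' x hx)

lemma Dx.congr {f f' g' : CI} (h : Dx f f') (e : f' = g') : Dx f g' := e ▸ h

/-- fundamental theorem of calculus in `C([-1,1])`. -/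
lemma ftc {f g : CI} (h : ∀ x ∈ I, HasDerivWithinAt (ev f) (ev g x) I x) :
    f = algebraMap ℝ CI (ev f 0) + Int0 g := by
  have hconst : ∀ x ∈ I, HasDerivWithinAt (fun x => ev f x - ev (Int0 g) x) 0 I x := by
    intro x hx
    have := (h x hx).sub (hasDeriv_Int0 g hx)
    rwa [sub_self] at this
  refine ev_ext fun x hx => ?_
  have hle : (-1 : ℝ) < 1 := by norm_num
  have key : ∀ y ∈ I, ev f y - ev (Int0 g) y = ev f (-1) - ev (Int0 g) (-1) := by
    intro y hy
    refine constant_of_derivWithin_zero (f := fun x => ev f x - ev (Int0 g) x) (a := -1) (b := 1)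
      (fun z hz => (hconst z hz).differentiableWithinAt) (fun z hz => ?_) y hy
    exact (hconst z ⟨hz.1, hz.2.le⟩).derivWithin (uniqueDiffOn_Icc hle z ⟨hz.1, hz.2.le⟩)
  have h1 := key x hx
  have h2 := key 0 zero_mem_I
  simp only [ev_add, ev_algebraMap, ev_Int0_zero, sub_zero] at *
  linarith

/-- product rule for primitives. -/
lemma Int0_mul (f g : CI) : Int0 f * Int0 g = Int0 (f * Int0 g + Int0 f * g) := by
  have h := ftc (f := Int0 f * Int0 g) (g := f * Int0 g + Int0 f * g) (by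
    intro x hx
    exact (hasDeriv_Int0 f hx).mul (hasDeriv_Int0 g hx))
  rw [h]
  simp

lemma Int0_inj {f g : CI} (h : Int0 f = Int0 g) : f = g := by
  have key : ∀ x ∈ I, ev f x = ev g x := by
    intro x hx
    have h1 := hasDeriv_Int0 f hx
    rw [h] at h1
    exact (uniqueDiffOn_Icc (by norm_num : (-1:ℝ) < 1) x hx).eq_deriv _ h1 (hasDeriv_Int0 g hx)
  exact ev_ext key

/-- the coordinate function. -/
noncomputable def Xc : CI := Int0 1

lemma ev_Xc {x : ℝ} (hx : x ∈ I) : ev Xc x = x := by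
  unfold Xc; rw [ev_Int0 _ hx]; simp

/-- reflection. -/
noncomputable def reflMap : C(I, I) :=
  ⟨fun x => ⟨-x.1, by constructor <;> [linarith [x.2.2]; linarith [x.2.1]]⟩, by fun_prop⟩

noncomputable def Rf : CI →L[ℝ] CI :=
  LinearMap.mkContinuous
    { toFun := fun f => f.comp reflMap
      map_add' := fun _ _ => rfl
      map_smul' := fun _ _ => rfl } 1 (by
    intro f
    rw [one_mul, ContinuousMap.norm_le _ (norm_nonneg _)]
    intro x
    exact f.norm_coe_le_norm _)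

lemma neg_mem_I {x : ℝ} (hx : x ∈ I) : -x ∈ I := ⟨by linarith [hx.2], by linarith [hx.1]⟩

lemma ev_Rf (f : CI) {x : ℝ} (hx : x ∈ I) : ev (Rf f) x = ev f (-x) := by
  rw [ev_of_mem _ hx, ev_of_mem _ (neg_mem_I hx)]; rfl

@[simp] lemma Rf_mul (f g : CI) : Rf (f * g) = Rf f * Rf g := rfl
@[simp] lemma Rf_pow (f : CI) (n : ℕ) : Rf (f ^ n) = Rf f ^ n := rfl
@[simp] lemma Rf_one : Rf 1 = 1 := rfl
@[simp] lemma Rf_algebraMap (c : ℝ) : Rf (algebraMap ℝ CI c) = algebraMap ℝ CI c := rfl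

@[simp] lemma Rf_Int0 (f : CI) : Rf (Int0 f) = - Int0 (Rf f) := by
  refine ev_ext fun x hx => ?_
  rw [ev_Rf _ hx, ev_Int0 _ (neg_mem_I hx), ev_neg, ev_Int0 _ hx]
  have h1 : ∫ s in (0:ℝ)..x, ev (Rf f) s = ∫ s in (0:ℝ)..x, ev f (-s) := by
    refine intervalIntegral.integral_congr fun s hs => ?_
    refine ev_Rf f ?_
    rw [uIcc] at hs
    constructor
    · exact le_trans (le_min zero_mem_I.1 hx.1) hs.1
    · exact le_trans hs.2 (max_le zero_mem_I.2 hx.2)
  rw [h1, intervalIntegral.integral_comp_neg (fun s => ev f s), neg_zero,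
    intervalIntegral.integral_symm]

end Pool.Agent.Work.MP_49ac7c_an
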