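import Pool.Agent.Work.MP_49ac7c_an.Pos

/-!
The solution cannot be continued past time 37.
-/

set_option autoImplicit false

namespace Pool.Agent.Work.MP_49ac7c_an

open Set Metric Filter Topology MeasureTheory
open scoped NNReal ContDiff

variable {u : ℝ → E} {t₁ : ℝ}

lemma Q_pos (h : Sol F u t₁) (h0 : u 0 = uz) {t : ℝ} (ht : t ∈ Icc 0 t₁) : 0 < (u t).1 := by
  rw [← ev_sg_zero]; exact sg_pos h h0 t ht 0

lemma Q_mono (h : Sol F u t₁) (h0 : u 0 = uz) : MonotoneOn (fun t => (u t).1) (Icc 0 t₁) :=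
  mono_of_deriv (fun s hs => hd_s0 (h s hs)) fun s hs =>
    mul_nonneg (good_of_sol h h0 s hs).Av_nonneg (Q_pos h h0 hs).le

lemma Q_zero (h0 : u 0 = uz) : (u 0).1 = 1 := by rw [h0]; rfl

lemma Q_ge_one (h : Sol F u t₁) (h0 : u 0 = uz) {t : ℝ} (ht : t ∈ Icc 0 t₁) :
    1 ≤ (u t).1 := by
  have := Q_mono h h0 ⟨le_rfl, ht.1.trans ht.2⟩ ht ht.1
  simp only [Q_zero h0] at this
  exact this

/-- `r = √Q`. -/
noncomputable def rr (u : ℝ → E) (t : ℝ) : ℝ := Real.sqrt (u t).1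

lemma rr_sq (h : Sol F u t₁) (h0 : u 0 = uz) {t : ℝ} (ht : t ∈ Icc 0 t₁) :
    rr u t ^ 2 = (u t).1 := Real.sq_sqrt (Q_pos h h0 ht).le

lemma rr_ge_one (h : Sol F u t₁) (h0 : u 0 = uz) {t : ℝ} (ht : t ∈ Icc 0 t₁) :
    1 ≤ rr u t := by
  unfold rr
  rw [Real.one_le_sqrt]
  exact Q_ge_one h h0 ht

lemma hd_rr (h : Sol F u t₁) (h0 : u 0 = uz) {s : ℝ} (hs : s ∈ Icc 0 t₁) :
    HasDerivWithinAt (rr u) (1 / 2 * Av (u s) * rr u s) (Icc 0 t₁) s := by
  have hQ := Q_pos h h0 hs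
  have h1 := (hd_s0 (h s hs)).sqrt hQ.ne'
  refine h1.congr_deriv ?_
  have h2 : rr u s = Real.sqrt (u s).1 := rfl
  have h3 : 0 < Real.sqrt (u s).1 := Real.sqrt_pos.mpr hQ
  have h4 : Real.sqrt (u s).1 * Real.sqrt (u s).1 = (u s).1 := Real.mul_self_sqrt hQ.le
  rw [h2, div_eq_iff (by positivity)]
  calc Av (u s) * (u s).1 = Av (u s) * (Real.sqrt (u s).1 * Real.sqrt (u s).1) := by rw [h4]
    _ = _ := by ring

/-- rescaled time. -/
noncomputable def tau (u : ℝ → E) (t₁ : ℝ) (t : ℝ) : ℝ :=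
  ∫ s in (0:ℝ)..t, if h : (0:ℝ) ≤ t₁ then rr u (projIcc 0 t₁ h s) else 0

lemma hd_tau (h : Sol F u t₁) (h0 : u 0 = uz) {s : ℝ} (hs : s ∈ Icc 0 t₁) :
    HasDerivWithinAt (tau u t₁) (rr u s) (Icc 0 t₁) s := by
  have ht1 : (0:ℝ) ≤ t₁ := hs.1.trans hs.2
  have hc : ContinuousOn (rr u) (Icc 0 t₁) := fun x hx => (hd_rr h h0 hx).continuousWithinAt
  have hc' : Continuous (fun s => rr u (projIcc 0 t₁ ht1 s)) := by
    have := hc.domRestrict
    exact this.comp continuous_projIcc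
  have h1 : HasDerivAt (fun t => ∫ s in (0:ℝ)..t, rr u (projIcc 0 t₁ ht1 s))
      (rr u (projIcc 0 t₁ ht1 s)) s :=
    intervalIntegral.integral_hasDerivAt_right (hc'.intervalIntegrable _ _)
      (hc'.stronglyMeasurableAtFilter _ _) hc'.continuousAt
  rw [projIcc_of_mem ht1 hs] at h1
  have e : tau u t₁ = fun t => ∫ s in (0:ℝ)..t, rr u (projIcc 0 t₁ ht1 s) := by
    funext t; unfold tau; simp only [dif_pos ht1]
  rw [e]
  exact h1.hasDerivWithinAt

lemma tau_zero : tau u t₁ 0 = 0 := by unfold tau; simp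

lemma tau_mono (h : Sol F u t₁) (h0 : u 0 = uz) : MonotoneOn (tau u t₁) (Icc 0 t₁) :=
  mono_of_deriv (fun s hs => hd_tau h h0 hs) fun s hs =>
    zero_le_one.trans (rr_ge_one h h0 hs)

/-- positions. -/
lemma phi_mono (h : Sol F u t₁) (h0 : u 0 = uz) {x : ℝ} (hx : x ∈ Icc (0:ℝ) 1) :
    MonotoneOn (fun t => ev (ph (u t)) x) (Icc 0 t₁) :=
  mono_of_deriv (fun s hs => HasDerivWithinAt.ev (hd_ph (h s hs)) x) fun s hs => by
    have := (good_of_sol h h0 s hs).Hh_nonneg hx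
    rw [ev_mul, Good.ev_two]; linarith

/-- `φ / Q²` is nonincreasing. -/
lemma phi_growth (h : Sol F u t₁) (h0 : u 0 = uz) {x : ℝ} (hx : x ∈ Icc (0:ℝ) 1)
    {s t : ℝ} (hs : s ∈ Icc 0 t₁) (ht : t ∈ Icc 0 t₁) (hst : s ≤ t) :
    ev (ph (u t)) x * (u s).1 ^ 2 ≤ ev (ph (u s)) x * (u t).1 ^ 2 := by
  have hm := mono_of_deriv (f := fun t => -(ev (ph (u t)) x / (u t).1 ^ 2)) (a := 0) (b := t₁)
    (fun s hs => (((HasDerivWithinAt.ev (hd_ph (h s hs)) x).div ((hd_s0 (h s hs)).pow 2)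
      (pow_ne_zero 2 (Q_pos h h0 hs).ne')).neg)) (fun s hs => by
        have hG := good_of_sol h h0 s hs
        have h1 := hG.Hh_le hx
        have hQ := Q_pos h h0 hs
        simp only [ev_mul, Good.ev_two]
        rw [neg_nonneg]
        refine div_nonpos_of_nonpos_of_nonneg ?_ (by positivity)
        simp only [Nat.cast_ofNat, Nat.add_one_sub_one, pow_one, Pi.pow_apply]
        have : 2 * ev (Hh (u s)) x * (u s).1 ^ 2 - ev (ph (u s)) x * (2 * (u s).1 *
            (Av (u s) * (u s).1)) = 2 * (u s).1 ^ 2 * (ev (Hh (u s)) x -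
              Av (u s) * ev (ph (u s)) x) := by ring
        rw [this]
        exact mul_nonpos_of_nonneg_of_nonpos (by positivity) (by linarith))
  have h1 := hm hs ht hst
  simp only [neg_le_neg_iff] at h1
  have hQs := Q_pos h h0 hs
  have hQt := Q_pos h h0 ht
  rw [div_le_div_iff₀ (by positivity) (by positivity)] at h1
  exact h1

/-- the ratio `κ = q / Q` along a label. -/
noncomputable def kp (u : ℝ → E) (x t : ℝ) : ℝ := ev q0 x * ev (sg (u t)) x / (u t).1

lemma hd_kp (h : Sol F u t₁) (h0 : u 0 = uz) (x : ℝ) {s : ℝ} (hs : s ∈ Icc 0 t₁) :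
    HasDerivWithinAt (kp u x) ((ev (Kk (u s)) x - Av (u s)) * kp u x s) (Icc 0 t₁) s := by
  have hQ := Q_pos h h0 hs
  have h1 := ((HasDerivWithinAt.ev (hd_sg (h s hs)) x).const_mul (ev q0 x)).div (hd_s0 (h s hs))
    hQ.ne'
  refine h1.congr_deriv ?_
  unfold kp
  simp only [ev_mul]
  field_simp

lemma kp_anti (h : Sol F u t₁) (h0 : u 0 = uz) {x : ℝ} (hx : x ∈ Icc (0:ℝ) 1) {s t : ℝ}
    (hs : s ∈ Icc 0 t₁) (ht : t ∈ Icc 0 t₁) (hst : s ≤ t) : kp u x t ≤ kp u x s := by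
  have hm := mono_of_deriv (f := fun t => -(kp u x t)) (a := 0) (b := t₁)
    (fun s hs => (hd_kp h h0 x hs).neg) (fun s hs => by
      have hG := good_of_sol h h0 s hs
      have h1 := hG.Kk_le hx
      have hq : 0 ≤ ev q0 x := by rw [Good.q0_ev (mem_I_of hx)]; exact mul_self_nonneg _
      have h2 : 0 ≤ kp u x s :=
        div_nonneg (mul_nonneg hq (hG.sgp x (mem_I_of hx)).le) (Q_pos h h0 hs).le
      nlinarith)
  have := hm hs ht hst
  simp only [neg_le_neg_iff] at this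
  exact this

/-- phase (i): lower bound on the vorticity. -/
lemma phase_one (h : Sol F u t₁) (h0 : u 0 = uz) {x : ℝ} (hx0 : 0 ≤ x) (hx : x ≤ 1 / 2)
    {tx : ℝ} (htx : tx ∈ Icc 0 t₁) (hk : ∀ s ∈ Icc 0 tx, 1 / 2 ≤ kp u x s) :
    ∀ s ∈ Icc 0 tx, 3 * x * (Real.exp (tau u t₁ s / 2) - Real.exp (-(tau u t₁ s / 2))) ≤
      rr u s ^ 3 * ev (ww (u s)) x := by
  have hx1 : x ∈ Icc (0:ℝ) 1 := ⟨hx0, by linarith⟩
  have hsub : Icc 0 tx ⊆ Icc 0 t₁ := Icc_subset_Icc_right htx.2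
  set a : ℝ → ℝ := fun s => rr u s ^ 3 * ev (ww (u s)) x with ha
  set b : ℝ → ℝ := fun s => rr u s ^ 2 * (ev (rh (u s)) x * ev (Pp (u s)) x) with hb
  set a' : ℝ → ℝ := fun s => rr u s * b s + 3 / 2 * Av (u s) * a s with ha'
  set b' : ℝ → ℝ := fun s => Av (u s) * b s + rr u s ^ 2 * (-(ev (Kk (u s)) x) *
    (ev (rh (u s)) x * ev (Pp (u s)) x) + ev q0 x * ev (sg (u s)) x *
      (ev (dd (u s)) x * ev (ww (u s)) x + 2 * ev (be (u s)) x)) with hb'
  have hda : ∀ s ∈ Icc 0 tx, HasDerivWithinAt a (a' s) (Icc 0 tx) s := by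
    intro s hs
    have h1 := (((hd_rr h h0 (hsub hs)).pow 3).mul
      (HasDerivWithinAt.ev (hd_ww' (h s (hsub hs))) x)).mono hsub
    refine h1.congr_deriv ?_
    simp only [ha', hb, ha, ev_mul, Pi.pow_apply]
    ring
  have hdb : ∀ s ∈ Icc 0 tx, HasDerivWithinAt b (b' s) (Icc 0 tx) s := by
    intro s hs
    have h1 := (((hd_rr h h0 (hsub hs)).pow 2).mul
      ((HasDerivWithinAt.ev (hd_rh (h s (hsub hs))) x).mul
      (HasDerivWithinAt.ev (hd_Pp h h0 (hsub hs)) x))).mono hsub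
    refine h1.congr_deriv ?_
    have hrs := (good_of_sol h h0 s (hsub hs)).rh_eq (x := x)
    simp only [hb', hb, ev_mul, ev_add, ev_neg, Good.ev_two, Pi.pow_apply, Pi.mul_apply]
    have e : ev (rh (u s)) x * (ev q0 x * (ev (sg (u s)) x * ev (sg (u s)) x) *
        (ev (dd (u s)) x * ev (ww (u s)) x + 2 * ev (be (u s)) x)) =
        (ev (rh (u s)) x * ev (sg (u s)) x) * (ev q0 x * ev (sg (u s)) x *
        (ev (dd (u s)) x * ev (ww (u s)) x + 2 * ev (be (u s)) x)) := by ring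
    rw [e, hrs]
    ring
  have hpos : ∀ s ∈ Icc 0 tx, 0 ≤ a s ∧ 0 ≤ b s ∧ rr u s * b s ≤ a' s ∧
      1 / 4 * rr u s * a s ≤ b' s := by
    intro s hs
    have hG := good_of_sol h h0 s (hsub hs)
    have hr := rr_ge_one h h0 (hsub hs)
    have hA := hG.Av_nonneg
    have hw := hG.wwp x hx1
    have hP := hG.ppp x hx1
    have hrh := hG.rhp (mem_I_of hx1)
    have ha0 : 0 ≤ a s := by simp only [ha]; positivity
    have hb0 : 0 ≤ b s := by simp only [hb]; positivity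
    refine ⟨ha0, hb0, ?_, ?_⟩
    · simp only [ha']
      have : 0 ≤ 3 / 2 * Av (u s) * a s := by positivity
      linarith
    · have hK := hG.Kk_le hx1
      have hrho : 0 ≤ ev (rh (u s)) x * ev (Pp (u s)) x := mul_nonneg hrh.le hP
      have hQ := Q_pos h h0 (hsub hs)
      have hkk := hk s hs
      unfold kp at hkk
      rw [le_div_iff₀ hQ, ← rr_sq h h0 (hsub hs)] at hkk
      have hD : 1 / 2 ≤ ev (dd (u s)) x := by
        have h1 := hG.dd_eq (x := x)
        have h2 := hG.ph_le_one hx1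
        have h3 := hG.ph_nonneg hx1
        have h4 : ev (ph (u s)) x * ev (ph (u s)) x ≤ 1 := by nlinarith
        have h5 := hG.ddpos (x := x)
        nlinarith
      have hbe := hG.be_nonneg hx1
      have e1 : 1 / 4 * rr u s ^ 2 * ev (ww (u s)) x ≤ ev q0 x * ev (sg (u s)) x *
          (ev (dd (u s)) x * ev (ww (u s)) x + 2 * ev (be (u s)) x) := by
        have h1 : 1 / 2 * ev (ww (u s)) x ≤
            ev (dd (u s)) x * ev (ww (u s)) x + 2 * ev (be (u s)) x := by nlinarith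
        have h2 : 0 ≤ 1 / 2 * ev (ww (u s)) x := by positivity
        calc 1 / 4 * rr u s ^ 2 * ev (ww (u s)) x
            = (1 / 2 * rr u s ^ 2) * (1 / 2 * ev (ww (u s)) x) := by ring
          _ ≤ (ev q0 x * ev (sg (u s)) x) * (ev (dd (u s)) x * ev (ww (u s)) x +
              2 * ev (be (u s)) x) :=
            mul_le_mul hkk h1 h2 (le_trans (by positivity) hkk)
      have e2 : 0 ≤ (Av (u s) - ev (Kk (u s)) x) * (rr u s ^ 2 *
          (ev (rh (u s)) x * ev (Pp (u s)) x)) :=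
        mul_nonneg (by linarith) (by positivity)
      have e3 := mul_le_mul_of_nonneg_left e1 (by positivity : (0:ℝ) ≤ rr u s ^ 2)
      simp only [hb', hb, ha]
      nlinarith
  -- S = a + 2 b
  have htau : ∀ s ∈ Icc 0 tx, HasDerivWithinAt (tau u t₁) (rr u s) (Icc 0 tx) s := fun s hs =>
    (hd_tau h h0 (hsub hs)).mono hsub
  have hS := mono_of_deriv (f := fun s => (a s + 2 * b s) * Real.exp (-(tau u t₁ s / 2)))
    (a := 0) (b := tx) (fun s hs => ((hda s hs).add ((hdb s hs).const_mul 2)).mul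
      ((((htau s hs).div_const 2).neg).exp)) (fun s hs => by
        obtain ⟨p1, p2, p3, p4⟩ := hpos s hs
        have hr := rr_ge_one h h0 (hsub hs)
        have hE := Real.exp_pos (-(tau u t₁ s / 2))
        have : 0 ≤ (a' s + 2 * b' s - 1 / 2 * rr u s * (a s + 2 * b s)) *
            Real.exp (-(tau u t₁ s / 2)) := mul_nonneg (by nlinarith) hE.le
        simp only [Pi.add_apply, Pi.neg_apply]
        linarith)
  have z : (0:ℝ) ∈ Icc 0 tx := ⟨le_rfl, htx.1⟩
  have hb0 : 3 * x ≤ b 0 := by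
    simp only [hb]
    have e1 : rr u 0 = 1 := by unfold rr; rw [Q_zero h0]; exact Real.sqrt_one
    have e2 : Pp uz = -q0p := by
      unfold Pp
      have : nu uz = 0 := rfl
      rw [this]; simp
    have e3 : ev (rh uz) x = 1 := rfl
    rw [e1, h0, e2, e3, ev_neg, Good.q0p_ev (mem_I_of hx1)]
    nlinarith
  have ha0 : a 0 = 0 := by
    simp only [ha]
    rw [h0]
    have : ev (ww uz) x = 0 := rfl
    rw [this, mul_zero]
  have hS' : ∀ s ∈ Icc 0 tx, 6 * x * Real.exp (tau u t₁ s / 2) ≤ a s + 2 * b s := by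
    intro s hs
    have h1 := hS z hs hs.1
    simp only [ha0, tau_zero, zero_div, neg_zero, Real.exp_zero, mul_one, zero_add] at h1
    have h2 : Real.exp (-(tau u t₁ s / 2)) * Real.exp (tau u t₁ s / 2) = 1 := by
      rw [← Real.exp_add]; simp
    have h3 := Real.exp_pos (tau u t₁ s / 2)
    have h4 := mul_le_mul_of_nonneg_right h1 h3.le
    rw [mul_assoc (a s + 2 * b s), h2, mul_one] at h4
    nlinarith
  have hT := mono_of_deriv (f := fun s => a s * Real.exp (tau u t₁ s / 2) -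
      3 * x * Real.exp (tau u t₁ s / 2) * Real.exp (tau u t₁ s / 2))
    (a := 0) (b := tx) (fun s hs => ((hda s hs).mul (((htau s hs).div_const 2).exp)).sub
      (((((htau s hs).div_const 2).exp).const_mul (3 * x)).mul (((htau s hs).div_const 2).exp)))
      (fun s hs => by
        obtain ⟨p1, p2, p3, p4⟩ := hpos s hs
        have hr := rr_ge_one h h0 (hsub hs)
        have hE := Real.exp_pos (tau u t₁ s / 2)
        have hSs := hS' s hs
        have e1 : 0 ≤ (a' s - rr u s * b s) * Real.exp (tau u t₁ s / 2) :=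
          mul_nonneg (by linarith) hE.le
        have e2 : 0 ≤ 1 / 2 * rr u s * Real.exp (tau u t₁ s / 2) * (a s + 2 * b s -
            6 * x * Real.exp (tau u t₁ s / 2)) := mul_nonneg (by positivity) (by linarith)
        nlinarith)
  intro s hs
  have h1 := hT z hs hs.1
  simp only [ha0, tau_zero, zero_div, Real.exp_zero, mul_one, zero_mul] at h1
  have h2 : Real.exp (-(tau u t₁ s / 2)) * Real.exp (tau u t₁ s / 2) = 1 := by
    rw [← Real.exp_add]; simp
  have h3 := Real.exp_pos (-(tau u t₁ s / 2))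
  have h4 := mul_le_mul_of_nonneg_right h1 h3.le
  set e := Real.exp (tau u t₁ s / 2) with he
  set e' := Real.exp (-(tau u t₁ s / 2)) with he'
  have h5 : (a s * e - 3 * x * e * e) * e' = a s - 3 * x * e := by
    calc (a s * e - 3 * x * e * e) * e' = (a s - 3 * x * e) * (e' * e) := by ring
      _ = _ := by rw [h2, mul_one]
  rw [h5] at h4
  have : a s = rr u s ^ 3 * ev (ww (u s)) x := rfl
  nlinarith

end Pool.Agent.Work.MP_49ac7c_an
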