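import Pool.Agent.Work.MP_49ac7c_an.Blow

/-!
The solution cannot be continued past time 37 (continued).
-/

set_option autoImplicit false

namespace Pool.Agent.Work.MP_49ac7c_an

open Set Metric Filter Topology MeasureTheory
open scoped NNReal ContDiff

variable {u : ℝ → E} {t₁ : ℝ}

lemma int_ph (v : E) (x : ℝ) : ev (Int0 (ph v * (sg v * sg v))) x = 1 / 2 * ev (ph v) x ^ 2 := by
  have h1 : Dx (ph v * ph v) ((2 : ℝ) • (ph v * (sg v * sg v))) := by
    refine ((Dx_ph v).mul (Dx_ph v)).congr ?_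
    rw [two_smul]; ring
  have h2 := congrArg (fun f => ev f x) (ftc h1)
  simp only [ev_mul, ev_add, ev_algebraMap, ev_ph_zero, map_smul, ev_smul, mul_zero, zero_add] at h2
  rw [pow_two]; linarith

lemma ph_u0 (h0 : u 0 = uz) {x : ℝ} (hx : x ∈ I) : ev (ph (u 0)) x = x := by
  rw [h0, ph_uz, ev_Xc hx]

lemma M_lower (h : Sol F u t₁) (h0 : u 0 = uz) {x : ℝ} (hx0 : 0 ≤ x) (hx : x ≤ 1 / 2)
    {tx : ℝ} (htx : tx ∈ Icc 0 t₁) (hk : ∀ s ∈ Icc 0 tx, 1 / 2 ≤ kp u x s) :
    ∀ s ∈ Icc 0 tx, 3 / 2 * (Real.exp (tau u t₁ s / 2) - Real.exp (-(tau u t₁ s / 2))) *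
      ev (ph (u s)) x ^ 2 ≤ rr u s ^ 7 * ev (Good.Mx (u s)) x := by
  intro s hs
  have hx1 : x ∈ Icc (0:ℝ) 1 := ⟨hx0, by linarith⟩
  have hs1 : s ∈ Icc 0 t₁ := ⟨hs.1, hs.2.trans htx.2⟩
  set e := Real.exp (tau u t₁ s / 2) - Real.exp (-(tau u t₁ s / 2)) with he
  have he0 : 0 ≤ e := by
    have h1 := tau_mono h h0 ⟨le_rfl, hs1.1.trans hs1.2⟩ hs1 hs1.1
    rw [tau_zero] at h1
    have : Real.exp (-(tau u t₁ s / 2)) ≤ Real.exp (tau u t₁ s / 2) := by
      apply Real.exp_le_exp.mpr; linarith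
    rw [he]; linarith
  have key := ev_Int0_le (f := (3 * e) • (ph (u s) * (sg (u s) * sg (u s))))
    (g := (rr u s ^ 7) • (ww (u s) * (sg (u s) * sg (u s)))) hx1 (fun y hy => by
      have hy1 : y ∈ Icc (0:ℝ) 1 := ⟨hy.1, hy.2.trans hx1.2⟩
      have h1 := phase_one h h0 hy.1 (hy.2.trans hx) htx (fun s' hs' => by
        have hs1' : s' ∈ Icc 0 t₁ := ⟨hs'.1, hs'.2.trans htx.2⟩
        refine (hk s' hs').trans ?_
        unfold kp
        exact div_le_div_of_nonneg_right ((good_of_sol h h0 s' hs1').q_anti hy1 hx1 hy.2)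
          (Q_pos h h0 hs1').le) s hs
      have h2 := phi_growth h h0 hy1 ⟨le_rfl, hs1.1.trans hs1.2⟩ hs1 hs1.1
      rw [Q_zero h0, ph_u0 h0 (mem_I_of hy1), one_pow, mul_one, ← rr_sq h h0 hs1] at h2
      simp only [ev_smul, ev_mul]
      have h3 : 3 * e * ev (ph (u s)) y ≤ rr u s ^ 7 * ev (ww (u s)) y := by
        have hr := rr_ge_one h h0 hs1
        calc 3 * e * ev (ph (u s)) y ≤ 3 * e * (y * (rr u s ^ 2) ^ 2) := by gcongr
          _ = rr u s ^ 4 * (3 * y * e) := by ring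
          _ ≤ rr u s ^ 4 * (rr u s ^ 3 * ev (ww (u s)) y) := by gcongr
          _ = _ := by ring
      have h4 := mul_le_mul_of_nonneg_right h3 (mul_self_nonneg (ev (sg (u s)) y))
      calc _ = _ := by ring
        _ ≤ _ := h4
        _ = _ := by ring)
  rw [ev_Int0_const_mul, ev_Int0_const_mul, int_ph] at key
  unfold Good.Mx
  linarith

lemma hd_log (h : Sol F u t₁) (h0 : u 0 = uz) {s : ℝ} (hs : s ∈ Icc 0 t₁) :
    HasDerivWithinAt (fun t => Real.log (u t).1) (Av (u s)) (Icc 0 t₁) s := by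
  have hQ := Q_pos h h0 hs
  refine ((hd_s0 (h s hs)).log hQ.ne').congr_deriv ?_
  field_simp

lemma log_lower (h : Sol F u t₁) (h0 : u 0 = uz) {x : ℝ} (hx0 : 0 ≤ x) (hx : x ≤ 1 / 2)
    {tx t : ℝ} (htx : tx ∈ Icc 0 t) (ht : t ∈ Icc 0 t₁) (hk : ∀ s ∈ Icc 0 tx, 1 / 2 ≤ kp u x s)
    (hph : ev (ph (u t)) x = 1 / 2) :
    Real.exp (tau u t₁ tx / 2) ≤ 5 * (u t).1 ^ 5 := by
  have hx1 : x ∈ Icc (0:ℝ) 1 := ⟨hx0, by linarith⟩
  have htx1 : tx ∈ Icc 0 t₁ := ⟨htx.1, htx.2.trans ht.2⟩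
  have hsub : Icc 0 tx ⊆ Icc 0 t₁ := Icc_subset_Icc_right htx1.2
  have hQt := Q_pos h h0 ht
  have hQt1 := Q_ge_one h h0 ht
  have htau : ∀ s ∈ Icc 0 tx, HasDerivWithinAt (tau u t₁) (rr u s) (Icc 0 tx) s := fun s hs =>
    (hd_tau h h0 (hsub hs)).mono hsub
  have hm := mono_of_deriv (f := fun s => (u t).1 ^ 4 * Real.log (u s).1 -
      9 / 25 * (Real.exp (tau u t₁ s / 2) + Real.exp (-(tau u t₁ s / 2)))) (a := 0) (b := tx)
    (fun s hs => (((hd_log h h0 (hsub hs)).mono hsub).const_mul ((u t).1 ^ 4)).sub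
      (((((htau s hs).div_const 2).exp).add ((((htau s hs).div_const 2).neg).exp)).const_mul
        (9 / 25))) (fun s hs => by
        have hs1 := hsub hs
        have hst : s ≤ t := hs.2.trans htx.2
        have h1 := M_lower h h0 hx0 hx htx1 hk s hs
        have hG := good_of_sol h h0 s hs1
        have hphs : ev (ph (u s)) x ≤ 1 / 2 := by
          have := phi_mono h h0 hx1 hs1 ht hst
          simp only [hph] at this
          exact this
        have h2 := hG.Mx_le hx1 hphs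
        have h3 := phi_growth h h0 hx1 hs1 ht hst
        rw [hph, ← rr_sq h h0 hs1] at h3
        have hr := rr_ge_one h h0 hs1
        have hr0 : 0 < rr u s := by linarith
        have h5 : rr u s ^ 4 ≤ 2 * ev (ph (u s)) x * (u t).1 ^ 2 := by nlinarith
        have h6 : rr u s ^ 8 ≤ 4 * ev (ph (u s)) x ^ 2 * (u t).1 ^ 4 := by
          have h7 : 0 ≤ rr u s ^ 4 := by positivity
          calc rr u s ^ 8 = rr u s ^ 4 * rr u s ^ 4 := by ring
            _ ≤ (2 * ev (ph (u s)) x * (u t).1 ^ 2) * (2 * ev (ph (u s)) x * (u t).1 ^ 2) :=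
              mul_le_mul h5 h5 h7 (h7.trans h5)
            _ = _ := by ring
        set e := Real.exp (tau u t₁ s / 2) with he
        set e' := Real.exp (-(tau u t₁ s / 2)) with he'
        have hee : 0 ≤ e - e' := by
          have h1 := tau_mono h h0 ⟨le_rfl, hs1.1.trans hs1.2⟩ hs1 hs1.1
          rw [tau_zero] at h1
          have : e' ≤ e := by
            apply Real.exp_le_exp.mpr; linarith
          linarith
        have h8 : 9 / 50 * rr u s ^ 8 * (e - e') ≤ rr u s ^ 7 * ((u t).1 ^ 4 * Av (u s)) := by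
          calc 9 / 50 * rr u s ^ 8 * (e - e')
              ≤ 9 / 50 * (4 * ev (ph (u s)) x ^ 2 * (u t).1 ^ 4) * (e - e') := by gcongr
            _ = (12 / 25) * (u t).1 ^ 4 * (3 / 2 * (e - e') * ev (ph (u s)) x ^ 2) := by ring
            _ ≤ (12 / 25) * (u t).1 ^ 4 * (rr u s ^ 7 * ev (Good.Mx (u s)) x) := by gcongr
            _ = rr u s ^ 7 * ((u t).1 ^ 4 * ((12 / 25) * ev (Good.Mx (u s)) x)) := by ring
            _ ≤ _ := by gcongr
        have h9 : 9 / 50 * rr u s * (e - e') ≤ (u t).1 ^ 4 * Av (u s) := by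
          have : rr u s ^ 7 * (9 / 50 * rr u s * (e - e')) ≤
              rr u s ^ 7 * ((u t).1 ^ 4 * Av (u s)) := by
            calc _ = 9 / 50 * rr u s ^ 8 * (e - e') := by ring
              _ ≤ _ := h8
          exact le_of_mul_le_mul_left this (by positivity)
        simp only [Pi.neg_apply]
        linarith)
  have h1 := hm ⟨le_rfl, htx.1⟩ ⟨htx.1, le_rfl⟩ htx.1
  simp only [Q_zero h0, Real.log_one, mul_zero, tau_zero, zero_div, neg_zero, Real.exp_zero] at h1
  have h2 : Real.log (u tx).1 ≤ (u t).1 := by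
    have h3 := Q_mono h h0 htx1 ht htx.2
    simp only at h3
    have h4 := Real.log_le_sub_one_of_pos (Q_pos h h0 htx1)
    linarith
  have h3 : (u t).1 ^ 4 * Real.log (u tx).1 ≤ (u t).1 ^ 5 := by
    calc _ ≤ (u t).1 ^ 4 * (u t).1 := by gcongr
      _ = _ := by ring
  have h4 := Real.exp_pos (-(tau u t₁ tx / 2))
  have h5 : (1:ℝ) ≤ (u t).1 ^ 5 := one_le_pow₀ hQt1
  nlinarith

/-- derivative of `M`. -/
lemma hd_Mx (h : Sol F u t₁) (x : ℝ) {s : ℝ} (hs : s ∈ Icc 0 t₁) :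
    HasDerivWithinAt (fun t => ev (Good.Mx (u t)) x)
      (ev (Int0 (rh (u s) * Pp (u s) * (sg (u s) * sg (u s)) +
        ww (u s) * (2 * (Kk (u s) * (sg (u s) * sg (u s)))))) x) (Icc 0 t₁) s := by
  have h1 := HasDerivWithinAt.ev (HasDerivWithinAt.clm ((hd_ww' (h s hs)).mul
    ((hd_sg (h s hs)).mul (hd_sg (h s hs)))) Int0) x
  refine h1.congr_deriv ?_
  congr 2
  simp only [Pi.mul_apply]
  ring

lemma Mx_deriv_ge {v : E} (hG : Good v) {x : ℝ} (hx : x ∈ Icc (0:ℝ) 1)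
    (hph : ev (ph v) x ≤ 1 / 2) (hk : ev q0 x * ev (sg v) x ≤ 1 / 2 * v.1) :
    1 / 2 * v.1 - 4 / 3 * Av v * ev (Good.Mx v) x ≤
      ev (Int0 (rh v * Pp v * (sg v * sg v) + ww v * (2 * (Kk v * (sg v * sg v))))) x := by
  have e1 : rh v * Pp v * (sg v * sg v) = Pp v * sg v := by
    calc _ = (rh v * sg v) * (Pp v * sg v) := by ring
      _ = _ := by rw [hG.rs, one_mul]
  rw [e1, map_add, ev_add, hG.int_P]
  have h2 : -(4 / 3) * Av v * ev (Good.Mx v) x ≤
      ev (Int0 (ww v * (2 * (Kk v * (sg v * sg v))))) x := by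
    unfold Good.Mx
    rw [← ev_Int0_const_mul]
    refine ev_Int0_le hx fun y hy => ?_
    have hy1 : y ∈ Icc (0:ℝ) 1 := ⟨hy.1, hy.2.trans hx.2⟩
    have h3 := hG.Kk_ge hy1 ((hG.ph_mono hy1 hx hy.2).trans hph)
    have h4 : 0 ≤ ev (ww v) y * (ev (sg v) y * ev (sg v) y) :=
      mul_nonneg (hG.wwp y hy1) (mul_self_nonneg _)
    have h5 := mul_le_mul_of_nonneg_right h3 h4
    simp only [ev_smul, ev_mul, Good.ev_two]
    nlinarith
  linarith

lemma poly_ineq {m : ℝ} (hm : 0 ≤ m) :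
    1 / 3 * (1 + m) ^ 2 ≤ 12 / 25 * m * (1 + m / 6 + m ^ 2) + 1 / 2 := by
  nlinarith [mul_nonneg hm (sq_nonneg (m - 3/5)), sq_nonneg (m - 3/5), sq_nonneg m]

/-- phase (ii). -/
lemma phase_two (h : Sol F u t₁) (h0 : u 0 = uz) {x : ℝ} (hx0 : 0 ≤ x) (hx : x ≤ 1 / 2)
    {tx t : ℝ} (htx : tx ∈ Icc 0 t) (ht : t ∈ Icc 0 t₁) (hk : ∀ s ∈ Icc tx t, kp u x s ≤ 1 / 2)
    (hph : ev (ph (u t)) x = 1 / 2) :
    1 / 3 * (tau u t₁ t - tau u t₁ tx) - 1 ≤ Real.log (u t).1 := by
  have hx1 : x ∈ Icc (0:ℝ) 1 := ⟨hx0, by linarith⟩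
  have htx1 : tx ∈ Icc 0 t₁ := ⟨htx.1, htx.2.trans ht.2⟩
  have hsub : Icc tx t ⊆ Icc 0 t₁ := Icc_subset_Icc htx.1 ht.2
  set M : ℝ → ℝ := fun s => ev (Good.Mx (u s)) x with hM
  set M' : ℝ → ℝ := fun s => (ev (Int0 (rh (u s) * Pp (u s) * (sg (u s) * sg (u s)) +
        ww (u s) * (2 * (Kk (u s) * (sg (u s) * sg (u s)))))) x) with hM'
  have hmm : ∀ s ∈ Icc 0 t₁, 0 ≤ M s / rr u s := fun s hs =>
    div_nonneg ((good_of_sol h h0 s hs).Mx_nonneg hx1) (zero_le_one.trans (rr_ge_one h h0 hs))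
  have hdm : ∀ s ∈ Icc tx t, HasDerivWithinAt (fun s => M s / rr u s)
      ((M' s * rr u s - M s * (1 / 2 * Av (u s) * rr u s)) / rr u s ^ 2) (Icc tx t) s := by
    intro s hs
    have hr := rr_ge_one h h0 (hsub hs)
    exact ((hd_Mx h x (hsub hs)).div (hd_rr h h0 (hsub hs)) (by linarith)).mono hsub
  have hV := mono_of_deriv (f := fun s => Real.log (u s).1 + (M s / rr u s) / (1 + M s / rr u s) -
      1 / 3 * tau u t₁ s) (a := tx) (b := t)
    (fun s hs => ((((hd_log h h0 (hsub hs)).mono hsub).add ((hdm s hs).div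
      ((hdm s hs).const_add 1) (by have := hmm s (hsub hs); positivity))).sub
      (((hd_tau h h0 (hsub hs)).mono hsub).const_mul (1 / 3)))) (fun s hs => by
        have hs1 := hsub hs
        have hG := good_of_sol h h0 s hs1
        have hr := rr_ge_one h h0 hs1
        have hr0 : 0 < rr u s := by linarith
        have hphs : ev (ph (u s)) x ≤ 1 / 2 := by
          have := phi_mono h h0 hx1 hs1 ht hs.2
          simp only [hph] at this
          exact this
        have hks := hk s hs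
        unfold kp at hks
        rw [div_le_iff₀ (Q_pos h h0 hs1)] at hks
        have h1 : 1 / 2 * (u s).1 - 4 / 3 * Av (u s) * M s ≤ M' s :=
          Mx_deriv_ge hG hx1 hphs hks
        have h2 : 12 / 25 * M s ≤ Av (u s) := hG.Mx_le hx1 hphs
        have hA := hG.Av_nonneg
        set m := M s / rr u s with hm
        have hm0 : 0 ≤ m := hmm s hs1
        have hMm : M s = m * rr u s := by rw [hm]; field_simp
        rw [← rr_sq h h0 hs1] at h1
        set r := rr u s with hrdef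
        set A := Av (u s) with hAdef
        set m' := (M' s * r - M s * (1 / 2 * A * r)) / r ^ 2 with hm'
        have h3 : 1 / 2 * r - 11 / 6 * A * m ≤ m' := by
          rw [hm', le_div_iff₀ (by positivity)]
          rw [hMm] at h1 ⊢
          nlinarith
        have h4 : (m' * (1 + m) - m * m') / (1 + m) ^ 2 = m' / (1 + m) ^ 2 := by
          congr 1; ring
        rw [h4]
        have h5 : 0 < (1 + m) ^ 2 := by positivity
        have h6 : 1 / 3 * r * (1 + m) ^ 2 ≤ A * (1 + m) ^ 2 + m' := by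
          have h7 := poly_ineq hm0
          have h8 : 12 / 25 * (m * r) ≤ A := by rw [← hMm]; exact h2
          have h9 : 0 ≤ 1 + m / 6 + m ^ 2 := by positivity
          have h10 := mul_le_mul_of_nonneg_right h8 h9
          have h11 := mul_le_mul_of_nonneg_left h7 hr0.le
          nlinarith
        have h12 : 1 / 3 * r ≤ A + m' / (1 + m) ^ 2 := by
          have : A + m' / (1 + m) ^ 2 = (A * (1 + m) ^ 2 + m') / (1 + m) ^ 2 := by
            field_simp
          rw [this, le_div_iff₀ h5]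
          exact h6
        linarith)
  have h1 := hV ⟨le_rfl, htx.2⟩ ⟨htx.2, le_rfl⟩ htx.2
  simp only at h1
  have h2 : 0 ≤ Real.log (u tx).1 := Real.log_nonneg (Q_ge_one h h0 htx1)
  have h3 : 0 ≤ (M tx / rr u tx) / (1 + M tx / rr u tx) := by
    have := hmm tx htx1
    positivity
  have h4 : (M t / rr u t) / (1 + M t / rr u t) ≤ 1 := by
    have := hmm t ht
    rw [div_le_one (by positivity)]
    linarith
  linarith

/-- The key growth estimate. -/
lemma growth (h : Sol F u t₁) (h0 : u 0 = uz) {t : ℝ} (ht : t ∈ Icc 0 t₁) :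
    tau u t₁ t ≤ 13 * Real.log (u t).1 + 7 := by
  have hG := good_of_sol h h0 t ht
  -- the label at 1/2
  obtain ⟨x, hx, hph⟩ : ∃ x ∈ Icc (0:ℝ) 1, ev (ph (u t)) x = 1 / 2 := by
    have hc : ContinuousOn (ev (ph (u t))) (Icc 0 1) := (continuous_ev _).continuousOn
    have := intermediate_value_Icc (zero_le_one' ℝ) hc
    rw [ev_ph_zero, hG.ph1] at this
    obtain ⟨x, hx, hx'⟩ := this (⟨by norm_num, by norm_num⟩ : (1/2:ℝ) ∈ Icc (0:ℝ) 1)
    exact ⟨x, hx, hx'⟩
  have hx2 : x ≤ 1 / 2 := by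
    have := phi_mono h h0 hx ⟨le_rfl, ht.1.trans ht.2⟩ ht ht.1
    simp only [hph, ph_u0 h0 (mem_I_of hx)] at this
    exact this
  have hk0 : 1 / 2 ≤ kp u x 0 := by
    unfold kp
    rw [Q_zero h0, div_one, h0, sg_uz, ev_one, mul_one, Good.q0_ev (mem_I_of hx)]
    have h1 := hx.1
    have h2 : x * x ≤ 1 / 4 := by nlinarith
    nlinarith
  have hkc : ContinuousOn (kp u x) (Icc 0 t₁) := fun s hs =>
    (hd_kp h h0 x hs).continuousWithinAt
  -- the switching time
  obtain ⟨tx, htx, hk1, hk2⟩ : ∃ tx ∈ Icc 0 t, (∀ s ∈ Icc 0 tx, 1 / 2 ≤ kp u x s) ∧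
      (∀ s ∈ Icc tx t, kp u x s ≤ 1 / 2 ∨ s = t) := by
    by_cases hkt : 1 / 2 ≤ kp u x t
    · refine ⟨t, ⟨ht.1, le_rfl⟩, fun s hs => ?_, fun s hs => Or.inr (le_antisymm hs.2 hs.1)⟩
      exact hkt.trans (kp_anti h h0 hx ⟨hs.1, hs.2.trans ht.2⟩ ht hs.2)
    · push Not at hkt
      have := intermediate_value_Icc' ht.1 (hkc.mono (Icc_subset_Icc_right ht.2))
      obtain ⟨tx, htx, htx'⟩ := this (⟨hkt.le, hk0⟩ : (1/2:ℝ) ∈ Icc (kp u x t) (kp u x 0))
      refine ⟨tx, htx, fun s hs => ?_, fun s hs => Or.inl ?_⟩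
      · rw [← htx']
        exact kp_anti h h0 hx ⟨hs.1, (hs.2.trans htx.2).trans ht.2⟩
          ⟨htx.1, htx.2.trans ht.2⟩ hs.2
      · rw [← htx']
        exact kp_anti h h0 hx ⟨htx.1, htx.2.trans ht.2⟩ ⟨htx.1.trans hs.1, hs.2.trans ht.2⟩ hs.1
  have hL : 0 ≤ Real.log (u t).1 := Real.log_nonneg (Q_ge_one h h0 ht)
  have e1 := log_lower h h0 hx.1 hx2 htx ht hk1 hph
  have e2 : tau u t₁ tx ≤ 4 + 10 * Real.log (u t).1 := by
    have hQ := Q_pos h h0 ht
    have h5 : Real.log 5 ≤ 2 := by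
      rw [Real.log_le_iff_le_exp (by norm_num)]
      have := Real.add_one_le_exp (1:ℝ)
      have h2 : Real.exp 2 = Real.exp 1 * Real.exp 1 := by rw [← Real.exp_add]; norm_num
      have h3 := Real.exp_one_gt_d9
      rw [h2]; nlinarith
    have h6 := Real.log_le_log (Real.exp_pos _) e1
    rw [Real.log_exp, Real.log_mul (by norm_num) (by positivity), Real.log_pow] at h6
    push_cast at h6
    linarith
  have e3 : 1 / 3 * (tau u t₁ t - tau u t₁ tx) - 1 ≤ Real.log (u t).1 := by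
    by_cases htt : tx = t
    · rw [htt]; linarith
    · refine phase_two h h0 hx.1 hx2 htx ht (fun s hs => ?_) hph
      rcases hk2 s hs with hh | hh
      · exact hh
      · -- s = t, use monotonicity from an earlier time
        have hlt : tx < t := lt_of_le_of_ne htx.2 htt
        have hm : (tx + t) / 2 ∈ Icc tx t := ⟨by linarith, by linarith⟩
        have h1 : kp u x ((tx + t) / 2) ≤ 1 / 2 := by
          rcases hk2 _ hm with hh' | hh'
          · exact hh'
          · linarith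
        rw [hh]
        exact (kp_anti h h0 hx ⟨htx.1.trans hm.1, hm.2.trans ht.2⟩ ht hm.2).trans h1
  linarith

/-- No solution up to time `37`. -/
theorem no_sol_37 (α : ℝ → E) (h0 : α 0 = uz) : ¬ Sol F α 37 := by
  intro h
  have hm := mono_of_deriv (f := fun s => -(26 * Real.exp (-((tau α 37 s - 7) / 26))) - s)
    (a := 0) (b := 37) (fun s hs => ((((((hd_tau h h0 hs).sub_const 7).div_const 26).neg).exp
      ).const_mul 26).neg.sub (hasDerivWithinAt_id s _)) (fun s hs => by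
      have h1 := growth h h0 hs
      have hQ := Q_pos h h0 hs
      have hr : rr α s = Real.exp (Real.log (α s).1 / 2) := by
        have h2 : Real.exp (Real.log (α s).1 / 2) ^ 2 = (α s).1 := by
          rw [← Real.exp_nat_mul]
          push_cast
          rw [mul_div_cancel₀ _ (by norm_num : (2:ℝ) ≠ 0), Real.exp_log hQ]
        unfold rr
        rw [← h2]
        simp only [Real.sqrt_sq (Real.exp_pos _).le]
        rw [h2]
      have h3 : 1 ≤ Real.exp (-((tau α 37 s - 7) / 26)) * rr α s := by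
        rw [hr, ← Real.exp_add]
        apply Real.one_le_exp
        linarith
      simp only [Pi.neg_apply]
      linarith)
  have h1 := hm (⟨le_rfl, by norm_num⟩ : (0:ℝ) ∈ Icc (0:ℝ) 37)
    (⟨by norm_num, le_rfl⟩ : (37:ℝ) ∈ Icc (0:ℝ) 37) (by norm_num)
  simp only [tau_zero] at h1
  have h2 := Real.exp_pos (-((tau α 37 37 - 7) / 26))
  have h3 : Real.exp (-((0 - 7) / 26 : ℝ)) ≤ 7 / 5 := by
    have h4 : Real.exp (-((0 - 7) / 26 : ℝ)) ≤ Real.exp (1 / 3) := by
      apply Real.exp_le_exp.mpr; norm_num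
    have h5 : Real.exp (1 / 3 : ℝ) ^ 3 = Real.exp 1 := by
      rw [← Real.exp_nat_mul]; norm_num
    have h6 := Real.exp_one_lt_d9
    have h7 : Real.exp (1 / 3 : ℝ) ≤ 7 / 5 := by
      by_contra hn
      push Not at hn
      have : (7 / 5 : ℝ) ^ 3 < Real.exp (1 / 3 : ℝ) ^ 3 := by gcongr
      rw [h5] at this
      norm_num at this
      linarith
    linarith
  linarith

end Pool.Agent.Work.MP_49ac7c_an
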