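import Mathlib

/-!
Functions of `(y, t)`, `y = x₂ / x₁`, and the pressure (calculus only).
-/

set_option autoImplicit false

namespace Pool.Agent.Work.MP_49ac7c_an.Cart

open Set
open scoped ContDiff

/-- the open domain -/
def Om (T : ℝ) : Set (ℝ × ℝ) := Ioo (-1 : ℝ) 1 ×ˢ Ioo 0 T

theorem isOpen_Om (T : ℝ) : IsOpen (Om T) := isOpen_Ioo.prod isOpen_Ioo

/-- derivative in `y` -/
noncomputable def Dy (f : ℝ × ℝ → ℝ) (p : ℝ × ℝ) : ℝ := fderiv ℝ f p (1, 0)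
/-- derivative in `t` -/
noncomputable def Dt (f : ℝ × ℝ → ℝ) (p : ℝ × ℝ) : ℝ := fderiv ℝ f p (0, 1)

variable {T : ℝ} {f g : ℝ × ℝ → ℝ} {p : ℝ × ℝ}

theorem diff_at (hf : ContDiffOn ℝ ∞ f (Om T)) (hp : p ∈ Om T) : DifferentiableAt ℝ f p :=
  (hf.contDiffAt ((isOpen_Om T).mem_nhds hp)).differentiableAt (by simp)

theorem smooth_fd (hf : ContDiffOn ℝ ∞ f (Om T)) : ContDiffOn ℝ ∞ (fderiv ℝ f) (Om T) :=
  hf.fderiv_of_isOpen (isOpen_Om T) (by simp)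

theorem smooth_Dy (hf : ContDiffOn ℝ ∞ f (Om T)) : ContDiffOn ℝ ∞ (Dy f) (Om T) :=
  (smooth_fd hf).clm_apply contDiffOn_const

theorem smooth_Dt (hf : ContDiffOn ℝ ∞ f (Om T)) : ContDiffOn ℝ ∞ (Dt f) (Om T) :=
  (smooth_fd hf).clm_apply contDiffOn_const

theorem hasD_y (hf : ContDiffOn ℝ ∞ f (Om T)) {y t : ℝ} (hp : (y, t) ∈ Om T) :
    HasDerivAt (fun s => f (s, t)) (Dy f (y, t)) y := by
  have h1 := (diff_at hf hp).hasFDerivAt
  have h2 : HasDerivAt (fun s : ℝ => ((s, t) : ℝ × ℝ)) (1, 0) y :=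
    (hasDerivAt_id y).prodMk (hasDerivAt_const y t)
  exact HasFDerivAt.comp_hasDerivAt (f := fun s : ℝ => ((s, t) : ℝ × ℝ)) y h1 h2

theorem hasD_t (hf : ContDiffOn ℝ ∞ f (Om T)) {y t : ℝ} (hp : (y, t) ∈ Om T) :
    HasDerivAt (fun s => f (y, s)) (Dt f (y, t)) t := by
  have h1 := (diff_at hf hp).hasFDerivAt
  have h2 : HasDerivAt (fun s : ℝ => ((y, s) : ℝ × ℝ)) (0, 1) t :=
    (hasDerivAt_const t y).prodMk (hasDerivAt_id t)
  exact HasFDerivAt.comp_hasDerivAt (f := fun s : ℝ => ((y, s) : ℝ × ℝ)) t h1 h2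

theorem comm (hf : ContDiffOn ℝ ∞ f (Om T)) (hp : p ∈ Om T) : Dy (Dt f) p = Dt (Dy f) p := by
  have h1 : ContDiffAt ℝ ∞ f p := hf.contDiffAt ((isOpen_Om T).mem_nhds hp)
  have h2 := h1.isSymmSndFDerivAt (by
    rw [minSmoothness_of_isRCLikeNormedField]
    exact WithTop.coe_le_coe.2 (le_top : (2 : ℕ∞) ≤ ⊤))
  have h3 : DifferentiableAt ℝ (fderiv ℝ f) p :=
    ((smooth_fd hf).contDiffAt ((isOpen_Om T).mem_nhds hp)).differentiableAt (by simp)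
  have h4 : ∀ v w : ℝ × ℝ, fderiv ℝ (fun q => fderiv ℝ f q v) p w = fderiv ℝ (fderiv ℝ f) p w v := by
    intro v w
    have h5 := (ContinuousLinearMap.apply ℝ ℝ v).hasFDerivAt.comp p h3.hasFDerivAt
    have h6 : fderiv ℝ (fun q => fderiv ℝ f q v) p =
        (ContinuousLinearMap.apply ℝ ℝ v).comp (fderiv ℝ (fderiv ℝ f) p) := h5.fderiv
    rw [h6]
    rfl
  show fderiv ℝ (fun q => fderiv ℝ f q (0, 1)) p (1, 0) = fderiv ℝ (fun q => fderiv ℝ f q (1, 0)) p (0, 1)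
  rw [h4, h4]
  exact h2 _ _

theorem congr_Dy (h : ∀ q ∈ Om T, f q = g q) (hp : p ∈ Om T) : Dy f p = Dy g p := by
  have h1 : f =ᶠ[nhds p] g := by
    filter_upwards [(isOpen_Om T).mem_nhds hp] with q hq
    exact h q hq
  show fderiv ℝ f p (1, 0) = fderiv ℝ g p (1, 0)
  rw [h1.fderiv_eq]

theorem congr_Dt (h : ∀ q ∈ Om T, f q = g q) (hp : p ∈ Om T) : Dt f p = Dt g p := by
  have h1 : f =ᶠ[nhds p] g := by
    filter_upwards [(isOpen_Om T).mem_nhds hp] with q hq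
    exact h q hq
  show fderiv ℝ f p (0, 1) = fderiv ℝ g p (0, 1)
  rw [h1.fderiv_eq]

theorem Dy_eq {d : ℝ} (hf : DifferentiableAt ℝ f p) (h : HasDerivAt (fun s => f (s, p.2)) d p.1) :
    Dy f p = d := by
  have h2 : HasDerivAt (fun s : ℝ => ((s, p.2) : ℝ × ℝ)) (1, 0) p.1 :=
    (hasDerivAt_id p.1).prodMk (hasDerivAt_const p.1 p.2)
  have h3 : HasFDerivAt f (fderiv ℝ f p) ((fun s : ℝ => ((s, p.2) : ℝ × ℝ)) p.1) := hf.hasFDerivAt
  exact (HasFDerivAt.comp_hasDerivAt (f := fun s : ℝ => ((s, p.2) : ℝ × ℝ)) p.1 h3 h2).unique h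

theorem Dt_eq {d : ℝ} (hf : DifferentiableAt ℝ f p) (h : HasDerivAt (fun s => f (p.1, s)) d p.2) :
    Dt f p = d := by
  have h2 : HasDerivAt (fun s : ℝ => ((p.1, s) : ℝ × ℝ)) (0, 1) p.2 :=
    (hasDerivAt_const p.2 p.1).prodMk (hasDerivAt_id p.2)
  have h3 : HasFDerivAt f (fderiv ℝ f p) ((fun s : ℝ => ((p.1, s) : ℝ × ℝ)) p.2) := hf.hasFDerivAt
  exact (HasFDerivAt.comp_hasDerivAt (f := fun s : ℝ => ((p.1, s) : ℝ × ℝ)) p.2 h3 h2).unique h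

/-- the system in the variables `(y, t)` -/
structure Sys (T : ℝ) (H K G W : ℝ × ℝ → ℝ) : Prop where
  sH : ContDiffOn ℝ ∞ H (Om T)
  sK : ContDiffOn ℝ ∞ K (Om T)
  sG : ContDiffOn ℝ ∞ G (Om T)
  sW : ContDiffOn ℝ ∞ W (Om T)
  dH : ∀ p ∈ Om T, Dy H p = K p
  ell : ∀ p ∈ Om T, (1 + p.1 ^ 2) * Dy K p - 2 * p.1 * K p + 2 * H p = W p
  eW : ∀ p ∈ Om T, Dt W p + 2 * H p * Dy W p + Dy G p = 0
  eG : ∀ p ∈ Om T, Dt G p + 2 * H p * Dy G p - K p * G p = 0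

/-- the pressure divided by `x₁ ^ 2` -/
noncomputable def Pr (H K G : ℝ × ℝ → ℝ) (p : ℝ × ℝ) : ℝ :=
  (G p + (1 + p.1 ^ 2) * (Dt K p - K p ^ 2 + 2 * H p * Dy K p) - 2 * p.1 * Dt H p) / 2

namespace Sys

variable {H K G W : ℝ × ℝ → ℝ} (h : Sys T H K G W)

include h

theorem sP : ContDiffOn ℝ ∞ (Pr H K G) (Om T) := by
  have h1 := h.sH
  have h2 := h.sK
  have h3 := h.sG
  have h4 := smooth_Dt h.sK
  have h5 := smooth_Dy h.sK
  have h6 := smooth_Dt h.sH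
  have h7 : ContDiffOn ℝ ∞ (fun p : ℝ × ℝ => p.1) (Om T) := contDiffOn_fst
  have h8 : ContDiffOn ℝ ∞ (fun _ : ℝ × ℝ => (2 : ℝ)) (Om T) := contDiffOn_const
  have h9 : ContDiffOn ℝ ∞ (fun _ : ℝ × ℝ => (1 : ℝ)) (Om T) := contDiffOn_const
  exact ((h3.add ((h9.add (h7.pow 2)).mul ((h4.sub (h2.pow 2)).add ((h8.mul h1).mul h5)))).sub
    ((h8.mul h7).mul h6)).div_const 2

/-- `(1 + y^2) K_yt - 2 y K_t + 2 H_t = W_t` -/
theorem ell_t (hp : p ∈ Om T) :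
    (1 + p.1 ^ 2) * Dt (Dy K) p - 2 * p.1 * Dt K p + 2 * Dt H p = Dt W p := by
  have hp' : (p.1, p.2) ∈ Om T := hp
  rw [← congr_Dt h.ell hp]
  symm
  have a1 := hasD_t (smooth_Dy h.sK) hp'
  have a2 := hasD_t h.sK hp'
  have a3 := hasD_t h.sH hp'
  apply Dt_eq
  · have h7 : ContDiffOn ℝ ∞ (fun p : ℝ × ℝ => p.1) (Om T) := contDiffOn_fst
    have h8 : ContDiffOn ℝ ∞ (fun _ : ℝ × ℝ => (2 : ℝ)) (Om T) := contDiffOn_const
    have h9 : ContDiffOn ℝ ∞ (fun _ : ℝ × ℝ => (1 : ℝ)) (Om T) := contDiffOn_const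
    exact diff_at (((h9.add (h7.pow 2)).mul (smooth_Dy h.sK)).sub ((h8.mul h7).mul h.sK) |>.add
      (h8.mul h.sH)) hp
  · exact ((a1.const_mul (1 + p.1 ^ 2)).sub (a2.const_mul (2 * p.1))).add (a3.const_mul 2)

/-- `(1 + y^2) K_yy = W_y` -/
theorem ell_y (hp : p ∈ Om T) : (1 + p.1 ^ 2) * Dy (Dy K) p = Dy W p := by
  have hp' : (p.1, p.2) ∈ Om T := hp
  rw [← congr_Dy h.ell hp]
  symm
  have a1 := hasD_y (smooth_Dy h.sK) hp'
  have a2 := hasD_y h.sK hp'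
  have a3 := hasD_y h.sH hp'
  apply Dy_eq
  · have h7 : ContDiffOn ℝ ∞ (fun p : ℝ × ℝ => p.1) (Om T) := contDiffOn_fst
    have h8 : ContDiffOn ℝ ∞ (fun _ : ℝ × ℝ => (2 : ℝ)) (Om T) := contDiffOn_const
    have h9 : ContDiffOn ℝ ∞ (fun _ : ℝ × ℝ => (1 : ℝ)) (Om T) := contDiffOn_const
    exact diff_at (((h9.add (h7.pow 2)).mul (smooth_Dy h.sK)).sub ((h8.mul h7).mul h.sK) |>.add
      (h8.mul h.sH)) hp
  · have b1 : HasDerivAt (fun s : ℝ => 1 + s ^ 2) (2 * p.1) p.1 := by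
      have := (hasDerivAt_pow 2 p.1).const_add 1
      simpa using this
    have b2 : HasDerivAt (fun s : ℝ => 2 * s) 2 p.1 := by
      have := (hasDerivAt_id p.1).const_mul 2
      simpa using this
    have b3 := ((b1.mul a1).sub (b2.mul a2)).add (a3.const_mul 2)
    refine b3.congr_deriv ?_
    have e := h.dH p hp
    have e' : Dy H (p.1, p.2) = K (p.1, p.2) := e
    rw [e']
    show 2 * p.1 * Dy K p + (1 + p.1 ^ 2) * Dy (Dy K) p - (2 * K p + 2 * p.1 * Dy K p) + 2 * K p = _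
    ring

/-- the derivative of the pressure -/
theorem dP (hp : p ∈ Om T) :
    Dy (Pr H K G) p = p.1 * (Dt K p - K p ^ 2 + 2 * H p * Dy K p) - 2 * Dt H p := by
  have hp' : (p.1, p.2) ∈ Om T := hp
  have a1 := hasD_y h.sG hp'
  have a2 := hasD_y (smooth_Dt h.sK) hp'
  have a3 := hasD_y h.sK hp'
  have a4 := hasD_y h.sH hp'
  have a5 := hasD_y (smooth_Dy h.sK) hp'
  have a6 := hasD_y (smooth_Dt h.sH) hp'
  apply Dy_eq (diff_at h.sP hp)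
  have b1 : HasDerivAt (fun s : ℝ => 1 + s ^ 2) (2 * p.1) p.1 := by
    have := (hasDerivAt_pow 2 p.1).const_add 1
    simpa using this
  have b2 : HasDerivAt (fun s : ℝ => 2 * s) 2 p.1 := by
    have := (hasDerivAt_id p.1).const_mul 2
    simpa using this
  have b3 := ((a1.add (b1.mul ((a2.sub (a3.pow 2)).add ((a4.const_mul 2).mul a5)))).sub
    (b2.mul a6)).div_const 2
  refine b3.congr_deriv ?_
  have e1 : Dy H (p.1, p.2) = K (p.1, p.2) := h.dH p hp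
  have e2 : Dy (Dt H) (p.1, p.2) = Dt K (p.1, p.2) := by
    rw [comm h.sH hp']
    exact congr_Dt h.dH hp'
  have e3 : Dy (Dt K) (p.1, p.2) = Dt (Dy K) (p.1, p.2) := comm h.sK hp'
  rw [e1, e2, e3]
  have f1 := h.ell_t hp
  have f2 := h.ell_y hp
  have f3 := h.eW p hp
  simp only [Pi.pow_apply, Pi.mul_apply, Pi.sub_apply, Pi.add_apply]
  show (Dy G p + (2 * p.1 * (Dt K p - K p ^ 2 + 2 * H p * Dy K p) + (1 + p.1 ^ 2) *
    (Dt (Dy K) p - ((2 : ℕ) : ℝ) * K p ^ (2 - 1) * Dy K p + (2 * K p * Dy K p + 2 * H p * Dy (Dy K) p))) -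
    (2 * Dt H p + 2 * p.1 * Dt K p)) / 2 = _
  push_cast
  linear_combination (1 / 2) * f1 + H p * f2 + (1 / 2) * f3

end Sys

end Pool.Agent.Work.MP_49ac7c_an.Cart
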