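import Pool.Agent.Work.MP_49ac7c_an.Final2
import Pool.Agent.Work.MP_49ac7c_an.Cart

/-!
The blow-up solution in the variables `(y, t)`.
-/

set_option autoImplicit false

namespace Pool.Agent.Work.MP_49ac7c_an

open Set Metric Filter Topology MeasureTheory Asymptotics
open scoped NNReal ContDiff

variable {T : ℝ} {u : ℝ → E}

noncomputable def HY (u : ℝ → E) (p : ℝ × ℝ) : ℝ := Eu (u p.2) (Hh (u p.2)) p.1
noncomputable def KY (u : ℝ → E) (p : ℝ × ℝ) : ℝ := Eu (u p.2) (Kk (u p.2)) p.1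
noncomputable def GY (u : ℝ → E) (p : ℝ × ℝ) : ℝ := -(Eu (u p.2) (q0 * sg (u p.2)) p.1)
noncomputable def WY (u : ℝ → E) (p : ℝ × ℝ) : ℝ := -(Eu (u p.2) (ww (u p.2)) p.1)

theorem loc_y {g : ℝ × ℝ → ℝ}
    (h : ∀ t₁, 0 < t₁ → t₁ < T → ContDiffOn ℝ ∞ g (I ×ˢ Icc 0 t₁)) :
    ContDiffOn ℝ ∞ g (I ×ˢ Ico 0 T) := by
  intro p hp
  have hp2 := hp.2
  obtain ⟨t₁, h1, h2⟩ := exists_between hp2.2
  have h3 := h t₁ (lt_of_le_of_lt hp2.1 h1) h2 p ⟨hp.1, hp2.1, h1.le⟩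
  refine h3.mono_of_mem_nhdsWithin ?_
  have h4 : {q : ℝ × ℝ | q.2 < t₁} ∈ 𝓝 p := (isOpen_lt continuous_snd continuous_const).mem_nhds h1
  filter_upwards [self_mem_nhdsWithin, mem_nhdsWithin_of_mem_nhds h4] with q hq hq'
  exact ⟨hq.1, hq.2.1, le_of_lt hq'⟩

theorem HY_smooth (h : ∀ t₁ < T, Sol F u t₁) (h0 : u 0 = uz) :
    ContDiffOn ℝ ∞ (HY u) (I ×ˢ Ico 0 T) :=
  loc_y fun t₁ h1 h2 => Ge_smooth h1 (h t₁ h2) h0 (DI_Hh h1.le (h t₁ h2) h0)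

theorem KY_smooth (h : ∀ t₁ < T, Sol F u t₁) (h0 : u 0 = uz) :
    ContDiffOn ℝ ∞ (KY u) (I ×ˢ Ico 0 T) :=
  loc_y fun t₁ h1 h2 => Ge_smooth h1 (h t₁ h2) h0
    (fun k => ((Rk_all h1.le (h t₁ h2) h0 k).Kk (h t₁ h2)).pred)

theorem GY_smooth (h : ∀ t₁ < T, Sol F u t₁) (h0 : u 0 = uz) :
    ContDiffOn ℝ ∞ (GY u) (I ×ˢ Ico 0 T) :=
  loc_y fun t₁ h1 h2 => (Ge_smooth h1 (h t₁ h2) h0 (DI_q h1.le (h t₁ h2) h0)).neg

theorem WY_smooth (h : ∀ t₁ < T, Sol F u t₁) (h0 : u 0 = uz) :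
    ContDiffOn ℝ ∞ (WY u) (I ×ˢ Ico 0 T) :=
  loc_y fun t₁ h1 h2 => (Ge_smooth h1 (h t₁ h2) h0 (DI_ww h1.le (h t₁ h2) h0)).neg

theorem Om_sub : Cart.Om T ⊆ I ×ˢ Ico 0 T := fun p hp =>
  ⟨⟨hp.1.1.le, hp.1.2.le⟩, hp.2.1.le, hp.2.2⟩

theorem I_nhds {y : ℝ} (h : y ∈ Ioo (-1 : ℝ) 1) : I ∈ 𝓝 y := Icc_mem_nhds h.1 h.2

/-- derivative in `y` at interior points -/
theorem hd_y (h : ∀ t₁ < T, Sol F u t₁) (h0 : u 0 = uz) {t : ℝ} (ht : t ∈ Ico 0 T) {y : ℝ}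
    (hy : y ∈ I) {f fx : CI} (hx : Dx f fx) :
    HasDerivWithinAt (Eu (u t) f) (Eu (u t) (fx * (rh (u t) * rh (u t))) y) I y :=
  hasD_Eu (h t ht.2) h0 hy ⟨ht.1, le_rfl⟩ hx

theorem HY_y (h : ∀ t₁ < T, Sol F u t₁) (h0 : u 0 = uz) {t : ℝ} (ht : t ∈ Ico 0 T) {y : ℝ}
    (hy : y ∈ I) : HasDerivWithinAt (fun s => HY u (s, t)) (KY u (y, t)) I y := by
  have hG := good_at h h0 ht
  refine (hd_y h h0 ht hy (Dx_Hh (u t))).congr_deriv ?_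
  have e : Kk (u t) * (sg (u t) * sg (u t)) * (rh (u t) * rh (u t)) = Kk (u t) := by
    calc _ = Kk (u t) * ((rh (u t) * sg (u t)) * (rh (u t) * sg (u t))) := by ring
      _ = _ := by rw [hG.rs, mul_one, mul_one]
  rw [e]
  rfl

theorem GY_y (h : ∀ t₁ < T, Sol F u t₁) (h0 : u 0 = uz) {t : ℝ} (ht : t ∈ Ico 0 T) {y : ℝ}
    (hy : y ∈ I) :
    HasDerivWithinAt (fun s => GY u (s, t)) (Eu (u t) (rh (u t) * Pp (u t)) y) I y := by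
  have hG := good_at h h0 ht
  refine (hd_y h h0 ht hy hG.Dx_q).neg.congr_deriv ?_
  have e : -(Pp (u t) * sg (u t)) * (rh (u t) * rh (u t)) = -(rh (u t) * Pp (u t)) := by
    calc _ = -(rh (u t) * Pp (u t)) * (rh (u t) * sg (u t)) := by ring
      _ = _ := by rw [hG.rs, mul_one]
  rw [e]
  simp only [Eu, ev_neg, neg_neg]

theorem KY_y (h : ∀ t₁ < T, Sol F u t₁) (h0 : u 0 = uz) {t : ℝ} (ht : t ∈ Ico 0 T) {y : ℝ}
    (hy : y ∈ I) : ∃ d : ℝ, HasDerivWithinAt (fun s => KY u (s, t)) d I y ∧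
      (1 + y ^ 2) * d - 2 * y * KY u (y, t) + 2 * HY u (y, t) = WY u (y, t) := by
  have hG := good_at h h0 ht
  refine ⟨_, hd_y h h0 ht hy (Dx_Kk (u t)), ?_⟩
  have hyp := hG.ph_Xi hy
  have hdd := hG.dd_eq (x := Xi (u t) y)
  have hrs := hG.rh_eq (x := Xi (u t) y)
  unfold KY HY WY Eu kap Kk Hh mm
  simp only [ev_add, ev_mul, ev_neg, ev_sub, ev_one, Good.ev_two]
  rw [hyp] at hdd ⊢
  generalize Xi (u t) y = x at *
  generalize ev (dd (u t)) x = D at *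
  generalize ev (sg (u t)) x = s at *
  generalize ev (rh (u t)) x = r at *
  generalize ev (ww (u t)) x = w at *
  generalize ev (al (u t)) x = a at *
  generalize ev (be (u t)) x = b at *
  linear_combination (-w * (D * (1 + y * y) + 1) * (s * r * (s * r))) * hdd -
    (w + 2 * b * (1 + y * y)) * (r * s + 1) * hrs

theorem sys (h : ∀ t₁ < T, Sol F u t₁) (h0 : u 0 = uz) :
    Cart.Sys T (HY u) (KY u) (GY u) (WY u) := by
  have sH := (HY_smooth h h0).mono Om_sub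
  have sK := (KY_smooth h h0).mono Om_sub
  have sG := (GY_smooth h h0).mono Om_sub
  have sW := (WY_smooth h h0).mono Om_sub
  have mI : ∀ {p : ℝ × ℝ}, p ∈ Cart.Om T → p.1 ∈ I := fun hp => ⟨hp.1.1.le, hp.1.2.le⟩
  have mT : ∀ {p : ℝ × ℝ}, p ∈ Cart.Om T → p.2 ∈ Ico 0 T := fun hp => ⟨hp.2.1.le, hp.2.2⟩
  have gy : ∀ p ∈ Cart.Om T, Cart.Dy (GY u) p = Eu (u p.2) (rh (u p.2) * Pp (u p.2)) p.1 :=
    fun p hp => Cart.Dy_eq (Cart.diff_at sG hp)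
      ((GY_y h h0 (mT hp) (mI hp)).hasDerivAt (I_nhds hp.1))
  refine ⟨sH, sK, sG, sW, fun p hp => ?_, fun p hp => ?_, fun p hp => ?_, fun p hp => ?_⟩
  · exact Cart.Dy_eq (Cart.diff_at sH hp) ((HY_y h h0 (mT hp) (mI hp)).hasDerivAt (I_nhds hp.1))
  · obtain ⟨d, hd, he⟩ := KY_y h h0 (mT hp) (mI hp)
    rw [Cart.Dy_eq (Cart.diff_at sK hp) (hd.hasDerivAt (I_nhds hp.1))]
    exact he
  · obtain ⟨t₁, h1, h2⟩ := exists_between hp.2.2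
    have ht1 : 0 < t₁ := hp.2.1.trans h1
    obtain ⟨g, -, hg⟩ := (DI_ww ht1.le (h t₁ h2) h0).exists_dx
    have hx : Dx (ww (u p.2)) (g p.2) := hg p.2 ⟨hp.2.1.le, h1.le⟩
    have e1 : Cart.Dy (WY u) p = -(Eu (u p.2) (g p.2 * (rh (u p.2) * rh (u p.2))) p.1) :=
      Cart.Dy_eq (Cart.diff_at sW hp)
        ((hd_y h h0 (mT hp) (mI hp) hx).neg.hasDerivAt (I_nhds hp.1))
    have e2 : Cart.Dt (WY u) p = -(Eu (u p.2) (rh (u p.2) * Pp (u p.2)) p.1 -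
        2 * Eu (u p.2) (Hh (u p.2)) p.1 * Eu (u p.2) (g p.2 * (rh (u p.2) * rh (u p.2))) p.1) := by
      apply Cart.Dt_eq (Cart.diff_at sW hp)
      refine (time_at h h0 hp.2 (mI hp) (f := fun s => ww (u s)) hx fun t₁ h1 h2 => ?_).neg
      exact hd_ww' (sol_at h hp.2 h1 h2)
    rw [gy p hp, e1, e2]
    unfold HY
    ring
  · have hG := good_at h h0 (mT hp)
    have h1 := time_at h h0 hp.2 (mI hp) (f := fun s => q0 * sg (u s))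
      (ft := q0 * (Kk (u p.2) * sg (u p.2))) hG.Dx_q fun t₁ h1 h2 => by
        have := (hasDerivWithinAt_const (x := p.2) (s := Icc 0 t₁) (c := q0)).mul
          (hd_sg (sol_at h hp.2 h1 h2))
        refine this.congr_deriv ?_
        rw [zero_mul, zero_add]
    have e : -(Pp (u p.2) * sg (u p.2)) * (rh (u p.2) * rh (u p.2)) =
        -(rh (u p.2) * Pp (u p.2)) := by
      calc _ = -(rh (u p.2) * Pp (u p.2)) * (rh (u p.2) * sg (u p.2)) := by ring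
        _ = _ := by rw [hG.rs, mul_one]
    rw [e] at h1
    rw [gy p hp, Cart.Dt_eq (Cart.diff_at sG hp) h1.neg]
    unfold HY KY GY
    simp only [Eu, ev_neg, ev_mul]
    ring

end Pool.Agent.Work.MP_49ac7c_an
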