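import Pool.Agent.Work.MP_49ac7c_an.Cart

/-!
From the variables `(y, t)` to the Cartesian variables.
-/

set_option autoImplicit false

namespace Pool.Agent.Work.MP_49ac7c_an.Cart

open Set Filter Topology
open scoped ContDiff

variable {T : ℝ} {f : ℝ × ℝ → ℝ}

theorem mem_Om_of {x y t : ℝ} (hxy : |y| < x) (ht : t ∈ Ioo 0 T) : (y / x, t) ∈ Om T := by
  have hx : 0 < x := (abs_nonneg y).trans_lt hxy
  have h1 := abs_lt.1 hxy
  refine ⟨⟨?_, ?_⟩, ht⟩
  · rw [lt_div_iff₀ hx]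
    linarith [h1.1]
  · rw [div_lt_one hx]
    exact h1.2

theorem hd_x (hf : ContDiffOn ℝ ∞ f (Om T)) {x y t : ℝ} (hxy : |y| < x) (ht : t ∈ Ioo 0 T) :
    HasDerivAt (fun a => f (y / a, t)) (Dy f (y / x, t) * (-y / x ^ 2)) x := by
  have hx : 0 < x := (abs_nonneg y).trans_lt hxy
  have h1 := hasD_y hf (mem_Om_of hxy ht)
  have h2 : HasDerivAt (fun a : ℝ => y / a) (-y / x ^ 2) x := by
    have h3 := (hasDerivAt_inv hx.ne').const_mul y
    have e : y * -(x ^ 2)⁻¹ = -y / x ^ 2 := by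
      rw [div_eq_mul_inv]
      ring
    rw [e] at h3
    simpa [div_eq_mul_inv] using h3
  exact HasDerivAt.comp (h₂ := fun s => f (s, t)) (h := fun a => y / a) x h1 h2

theorem hd_2 (hf : ContDiffOn ℝ ∞ f (Om T)) {x y t : ℝ} (hxy : |y| < x) (ht : t ∈ Ioo 0 T) :
    HasDerivAt (fun b => f (b / x, t)) (Dy f (y / x, t) * (1 / x)) y := by
  have h1 := hasD_y hf (mem_Om_of hxy ht)
  have h2 : HasDerivAt (fun b : ℝ => b / x) (1 / x) y := (hasDerivAt_id y).div_const x
  exact HasDerivAt.comp (h₂ := fun s => f (s, t)) (h := fun b => b / x) y h1 h2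

noncomputable def V1 (K : ℝ × ℝ → ℝ) (x y t : ℝ) : ℝ := -(x * K (y / x, t))
noncomputable def V2 (H K : ℝ × ℝ → ℝ) (x y t : ℝ) : ℝ := 2 * x * H (y / x, t) - y * K (y / x, t)
noncomputable def Rh (G : ℝ × ℝ → ℝ) (x y t : ℝ) : ℝ := x * G (y / x, t)
noncomputable def PP (P : ℝ × ℝ → ℝ) (x y t : ℝ) : ℝ := x ^ 2 * P (y / x, t)

namespace Sys

variable {H K G W : ℝ × ℝ → ℝ} (h : Sys T H K G W) {x y t : ℝ} (hxy : |y| < x) (ht : t ∈ Ioo 0 T)

include h hxy ht

theorem V1_x : HasDerivAt (fun a => V1 K a y t) (-(K (y / x, t) - y / x * Dy K (y / x, t))) x := by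
  have hx : 0 < x := (abs_nonneg y).trans_lt hxy
  have h1 := ((hasDerivAt_id x).mul (hd_x h.sK hxy ht)).neg
  refine h1.congr_deriv ?_
  simp only [id]
  field_simp
  ring

theorem V1_y : HasDerivAt (fun b => V1 K x b t) (-(Dy K (y / x, t))) y := by
  have hx : 0 < x := (abs_nonneg y).trans_lt hxy
  have h1 := ((hd_2 h.sK hxy ht).const_mul x).neg
  refine h1.congr_deriv ?_
  field_simp

theorem V1_t : HasDerivAt (fun s => V1 K x y s) (-(x * Dt K (y / x, t))) t :=
  ((hasD_t h.sK (mem_Om_of hxy ht)).const_mul x).neg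

theorem V2_x : HasDerivAt (fun a => V2 H K a y t)
    (2 * H (y / x, t) - 2 * (y / x) * K (y / x, t) + (y / x) ^ 2 * Dy K (y / x, t)) x := by
  have hx : 0 < x := (abs_nonneg y).trans_lt hxy
  have h0 : HasDerivAt (fun a : ℝ => 2 * a) 2 x := by simpa using (hasDerivAt_id x).const_mul 2
  have h1 := (h0.mul (hd_x h.sH hxy ht)).sub ((hd_x h.sK hxy ht).const_mul y)
  refine h1.congr_deriv ?_
  rw [h.dH _ (mem_Om_of hxy ht)]
  field_simp
  ring

theorem V2_y : HasDerivAt (fun b => V2 H K x b t)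
    (K (y / x, t) - y / x * Dy K (y / x, t)) y := by
  have hx : 0 < x := (abs_nonneg y).trans_lt hxy
  have h1 := ((hd_2 h.sH hxy ht).const_mul (2 * x)).sub
    ((hasDerivAt_id y).mul (hd_2 h.sK hxy ht))
  refine h1.congr_deriv ?_
  rw [h.dH _ (mem_Om_of hxy ht)]
  simp only [id]
  field_simp
  ring

theorem V2_t : HasDerivAt (fun s => V2 H K x y s)
    (2 * x * Dt H (y / x, t) - y * Dt K (y / x, t)) t :=
  ((hasD_t h.sH (mem_Om_of hxy ht)).const_mul (2 * x)).sub
    ((hasD_t h.sK (mem_Om_of hxy ht)).const_mul y)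

theorem Rh_x : HasDerivAt (fun a => Rh G a y t) (G (y / x, t) - y / x * Dy G (y / x, t)) x := by
  have hx : 0 < x := (abs_nonneg y).trans_lt hxy
  have h1 := (hasDerivAt_id x).mul (hd_x h.sG hxy ht)
  refine h1.congr_deriv ?_
  simp only [id]
  field_simp
  ring

theorem Rh_y : HasDerivAt (fun b => Rh G x b t) (Dy G (y / x, t)) y := by
  have hx : 0 < x := (abs_nonneg y).trans_lt hxy
  have h1 := (hd_2 h.sG hxy ht).const_mul x
  refine h1.congr_deriv ?_
  field_simp

theorem Rh_t : HasDerivAt (fun s => Rh G x y s) (x * Dt G (y / x, t)) t :=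
  (hasD_t h.sG (mem_Om_of hxy ht)).const_mul x

theorem PP_x : HasDerivAt (fun a => PP (Pr H K G) a y t)
    (x * (2 * Pr H K G (y / x, t) - y / x * Dy (Pr H K G) (y / x, t))) x := by
  have hx : 0 < x := (abs_nonneg y).trans_lt hxy
  have h0 : HasDerivAt (fun a : ℝ => a ^ 2) (2 * x) x := by simpa using hasDerivAt_pow 2 x
  have h1 := h0.mul (hd_x h.sP hxy ht)
  refine h1.congr_deriv ?_
  field_simp
  ring

theorem PP_y : HasDerivAt (fun b => PP (Pr H K G) x b t) (x * Dy (Pr H K G) (y / x, t)) y := by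
  have hx : 0 < x := (abs_nonneg y).trans_lt hxy
  have h1 := (hd_2 h.sP hxy ht).const_mul (x ^ 2)
  refine h1.congr_deriv ?_
  field_simp

/-- momentum, first component -/
theorem mom1 : deriv (fun s => V1 K x y s) t + V1 K x y t * deriv (fun a => V1 K a y t) x +
    V2 H K x y t * deriv (fun b => V1 K x b t) y + deriv (fun a => PP (Pr H K G) a y t) x =
      Rh G x y t := by
  have hx : 0 < x := (abs_nonneg y).trans_lt hxy
  rw [(h.V1_t hxy ht).deriv, (h.V1_x hxy ht).deriv, (h.V1_y hxy ht).deriv, (h.PP_x hxy ht).deriv,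
    h.dP (mem_Om_of hxy ht)]
  unfold V1 V2 Rh Pr
  simp only
  field_simp
  ring

/-- momentum, second component -/
theorem mom2 : deriv (fun s => V2 H K x y s) t + V1 K x y t * deriv (fun a => V2 H K a y t) x +
    V2 H K x y t * deriv (fun b => V2 H K x b t) y + deriv (fun b => PP (Pr H K G) x b t) y =
      0 := by
  have hx : 0 < x := (abs_nonneg y).trans_lt hxy
  rw [(h.V2_t hxy ht).deriv, (h.V2_x hxy ht).deriv, (h.V2_y hxy ht).deriv, (h.PP_y hxy ht).deriv,
    h.dP (mem_Om_of hxy ht)]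
  unfold V1 V2
  simp only
  field_simp
  ring

theorem dvg : deriv (fun a => V1 K a y t) x + deriv (fun b => V2 H K x b t) y = 0 := by
  rw [(h.V1_x hxy ht).deriv, (h.V2_y hxy ht).deriv]
  ring

theorem den : deriv (fun s => Rh G x y s) t + V1 K x y t * deriv (fun a => Rh G a y t) x +
    V2 H K x y t * deriv (fun b => Rh G x b t) y = 0 := by
  have hx : 0 < x := (abs_nonneg y).trans_lt hxy
  rw [(h.Rh_t hxy ht).deriv, (h.Rh_x hxy ht).deriv, (h.Rh_y hxy ht).deriv]
  have e := h.eG _ (mem_Om_of hxy ht)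
  unfold V1 V2
  have e2 : x * Dt G (y / x, t) = x * (K (y / x, t) * G (y / x, t) -
      2 * H (y / x, t) * Dy G (y / x, t)) := by
    rw [show Dt G (y / x, t) = K (y / x, t) * G (y / x, t) -
      2 * H (y / x, t) * Dy G (y / x, t) by linarith]
  rw [e2]
  field_simp
  ring

end Sys

end Pool.Agent.Work.MP_49ac7c_an.Cart
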