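import Pool.Agent.Work.MP_49ac7c_an.Cart2
import Pool.Agent.Work.MP_49ac7c_an.Cart3

/-!
The solution in Cartesian variables: boundary values, initial values, blow-up.
-/

set_option autoImplicit false

namespace Pool.Agent.Work.MP_49ac7c_an

open Set Metric Filter Topology MeasureTheory Asymptotics
open scoped NNReal ContDiff

variable {T : ℝ} {u : ℝ → E}

/-- derivative of `G` in `y` -/
noncomputable def QY (u : ℝ → E) (p : ℝ × ℝ) : ℝ := Eu (u p.2) (rh (u p.2) * Pp (u p.2)) p.1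

theorem div_mem {x y : ℝ} (hx : 0 < x) (hxy : |y| ≤ x) : y / x ∈ I := by
  have h1 := abs_le.1 hxy
  refine ⟨?_, ?_⟩
  · rw [le_div_iff₀ hx]
    linarith [h1.1]
  · rw [div_le_one hx]
    exact h1.2

theorem div_mem' {x y : ℝ} (hxy : |y| < x) : y / x ∈ Ioo (-1 : ℝ) 1 := by
  have hx : 0 < x := (abs_nonneg y).trans_lt hxy
  have h1 := abs_lt.1 hxy
  refine ⟨?_, ?_⟩
  · rw [lt_div_iff₀ hx]
    linarith [h1.1]
  · rw [div_lt_one hx]
    exact h1.2

/-- smoothness in the Cartesian variables -/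
theorem smooth_cart {f : ℝ × ℝ → ℝ} (hf : ContDiffOn ℝ ∞ f (I ×ˢ Ico 0 T)) :
    ContDiffOn ℝ ∞ (fun q : ℝ × ℝ × ℝ => f (q.2.1 / q.1, q.2.2))
      {q | 0 < q.1 ∧ |q.2.1| ≤ q.1 ∧ q.2.2 ∈ Ico 0 T} := by
  have h1 : ContDiffOn ℝ ∞ (fun q : ℝ × ℝ × ℝ => ((q.2.1 / q.1, q.2.2) : ℝ × ℝ))
      {q | 0 < q.1 ∧ |q.2.1| ≤ q.1 ∧ q.2.2 ∈ Ico 0 T} := by
    refine ContDiffOn.prodMk (ContDiffOn.div ?_ ?_ ?_) ?_
    · exact (contDiff_fst.comp contDiff_snd).contDiffOn
    · exact contDiff_fst.contDiffOn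
    · intro q hq
      exact hq.1.ne'
    · exact (contDiff_snd.comp contDiff_snd).contDiffOn
  exact hf.comp h1 fun q hq => ⟨div_mem hq.1 hq.2.1, hq.2.2⟩

theorem smooth_cart' {f : ℝ × ℝ → ℝ} (hf : ContDiffOn ℝ ∞ f (Cart.Om T)) :
    ContDiffOn ℝ ∞ (fun q : ℝ × ℝ × ℝ => f (q.2.1 / q.1, q.2.2))
      {q | |q.2.1| < q.1 ∧ q.2.2 ∈ Ioo 0 T} := by
  have h1 : ContDiffOn ℝ ∞ (fun q : ℝ × ℝ × ℝ => ((q.2.1 / q.1, q.2.2) : ℝ × ℝ))
      {q | |q.2.1| < q.1 ∧ q.2.2 ∈ Ioo 0 T} := by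
    refine ContDiffOn.prodMk (ContDiffOn.div ?_ ?_ ?_) ?_
    · exact (contDiff_fst.comp contDiff_snd).contDiffOn
    · exact contDiff_fst.contDiffOn
    · intro q hq
      exact ((abs_nonneg _).trans_lt hq.1).ne'
    · exact (contDiff_snd.comp contDiff_snd).contDiffOn
  exact hf.comp h1 fun q hq => Cart.mem_Om_of hq.1 hq.2

/-! ### space derivatives at a fixed time -/

section space

variable {f : ℝ × ℝ → ℝ} {d x y t : ℝ}

theorem sd_x (hxy : |y| < x) (h : HasDerivAt (fun s => f (s, t)) d (y / x)) :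
    HasDerivAt (fun a => f (y / a, t)) (d * (-y / x ^ 2)) x := by
  have hx : 0 < x := (abs_nonneg y).trans_lt hxy
  have h2 : HasDerivAt (fun a : ℝ => y / a) (-y / x ^ 2) x := by
    have h3 := (hasDerivAt_inv hx.ne').const_mul y
    have e : y * -(x ^ 2)⁻¹ = -y / x ^ 2 := by
      rw [div_eq_mul_inv]
      ring
    rw [e] at h3
    simpa [div_eq_mul_inv] using h3
  exact HasDerivAt.comp (h₂ := fun s => f (s, t)) (h := fun a => y / a) x h h2

theorem sd_y (h : HasDerivAt (fun s => f (s, t)) d (y / x)) :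
    HasDerivAt (fun b => f (b / x, t)) (d * (1 / x)) y := by
  have h2 : HasDerivAt (fun b : ℝ => b / x) (1 / x) y := (hasDerivAt_id y).div_const x
  exact HasDerivAt.comp (h₂ := fun s => f (s, t)) (h := fun b => b / x) y h h2

end space

theorem vort (h : ∀ t₁ < T, Sol F u t₁) (h0 : u 0 = uz) {t : ℝ} (ht : t ∈ Ico 0 T) {x y : ℝ}
    (hxy : |y| < x) :
    deriv (fun a => Cart.V2 (HY u) (KY u) a y t) x - deriv (fun b => Cart.V1 (KY u) x b t) y =
      WY u (y / x, t) := by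
  have hx : 0 < x := (abs_nonneg y).trans_lt hxy
  have hI := div_mem hx hxy.le
  have hN := I_nhds (div_mem' hxy)
  obtain ⟨d, hd, he⟩ := KY_y h h0 ht hI
  have hK := hd.hasDerivAt hN
  have hH := (HY_y h h0 ht hI).hasDerivAt hN
  have a0 : HasDerivAt (fun a : ℝ => 2 * a) 2 x := by simpa using (hasDerivAt_id x).const_mul 2
  have a1 := (a0.mul (sd_x hxy hH)).sub ((sd_x hxy hK).const_mul y)
  have a2 := ((sd_y hK).const_mul x).neg
  have e1 : deriv (fun a => Cart.V2 (HY u) (KY u) a y t) x = _ := a1.deriv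
  have e2 : deriv (fun b => Cart.V1 (KY u) x b t) y = _ := a2.deriv
  rw [e1, e2, ← he]
  field_simp
  ring

theorem rho_x (h : ∀ t₁ < T, Sol F u t₁) (h0 : u 0 = uz) {t : ℝ} (ht : t ∈ Ico 0 T) {x y : ℝ}
    (hxy : |y| < x) :
    deriv (fun a => Cart.Rh (GY u) a y t) x = GY u (y / x, t) - y / x * QY u (y / x, t) := by
  have hx : 0 < x := (abs_nonneg y).trans_lt hxy
  have hG := (GY_y h h0 ht (div_mem hx hxy.le)).hasDerivAt (I_nhds (div_mem' hxy))
  have a1 := (hasDerivAt_id x).mul (sd_x hxy hG)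
  have e1 : deriv (fun a => Cart.Rh (GY u) a y t) x = _ := a1.deriv
  rw [e1]
  simp only [id, QY]
  field_simp
  ring

theorem rho_y (h : ∀ t₁ < T, Sol F u t₁) (h0 : u 0 = uz) {t : ℝ} (ht : t ∈ Ico 0 T) {x y : ℝ}
    (hxy : |y| < x) :
    deriv (fun b => Cart.Rh (GY u) x b t) y = QY u (y / x, t) := by
  have hx : 0 < x := (abs_nonneg y).trans_lt hxy
  have hG := (GY_y h h0 ht (div_mem hx hxy.le)).hasDerivAt (I_nhds (div_mem' hxy))
  have a1 := (sd_y hG).const_mul x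
  have e1 : deriv (fun b => Cart.Rh (GY u) x b t) y = _ := a1.deriv
  rw [e1]
  simp only [QY]
  field_simp

/-! ### boundary values -/

theorem cont_Eu (h : ∀ t₁ < T, Sol F u t₁) (h0 : u 0 = uz) {t : ℝ} (ht : t ∈ Ico 0 T) (f : CI) :
    ContinuousOn (fun y => Eu (u t) f y) I := by
  have hG := good_at h h0 ht
  obtain ⟨C, hC⟩ : ∃ C, ‖rh (u t)‖ ≤ C := ⟨_, le_rfl⟩
  have h1 : ContinuousOn (Xi (u t)) I := by
    have h2 : ContinuousOn (fun y => Ge u (fun s => ph (u s)) (y, t)) I := by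
      intro y hy
      exact (hasD_Eu (h t ht.2) h0 hy ⟨ht.1, le_rfl⟩ (Dx_ph (u t))).continuousWithinAt
    intro y hy
    have h3 := hasF_Zz (h t ht.2) h0 hy ⟨ht.1, le_rfl⟩
    have h4 := h3.continuousWithinAt
    have h5 : ContinuousWithinAt (fun s : ℝ => ((s, t) : ℝ × ℝ)) I y :=
      (continuous_id.prodMk continuous_const).continuousWithinAt
    exact ContinuousWithinAt.comp (t := Bx t) (f := fun s : ℝ => ((s, t) : ℝ × ℝ)) h4 h5
      fun s hs => ⟨hs, ht.1, le_rfl⟩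
  exact (continuous_ev f).comp_continuousOn h1

theorem Eu_bd {t : ℝ} (hG : Good (u t)) {f : CI} (h1 : ev f 1 = 0) (h2 : ev f (-1) = 0) {y : ℝ}
    (hy : y = 1 ∨ y = -1) : Eu (u t) f y = 0 := by
  unfold Eu
  rcases hy with rfl | rfl
  · rw [hG.Xi_one, h1]
  · rw [hG.Xi_m1, h2]

/-- limits at the boundary -/
theorem lim_bd (h : ∀ t₁ < T, Sol F u t₁) (h0 : u 0 = uz) {t : ℝ} (ht : t ∈ Ico 0 T) {f : CI}
    (h1 : ev f 1 = 0) (h2 : ev f (-1) = 0) {x y : ℝ} (hx : 0 < x) (hy : |y| = x) :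
    Tendsto (fun z : ℝ × ℝ => Eu (u t) f (z.2 / z.1)) (𝓝[{z : ℝ × ℝ | |z.2| < z.1}] (x, y))
      (𝓝 0) := by
  have hG := good_at h h0 ht
  have hyx : y / x = 1 ∨ y / x = -1 := by
    rcases abs_eq hx.le |>.1 hy with h3 | h3
    · left
      rw [h3, div_self hx.ne']
    · right
      rw [h3, neg_div, div_self hx.ne']
  have e : Eu (u t) f (y / x) = 0 := Eu_bd hG h1 h2 hyx
  have hm : y / x ∈ I := by
    rcases hyx with h3 | h3 <;> rw [h3] <;> norm_num
  have c1 : ContinuousWithinAt (fun y => Eu (u t) f y) I (y / x) := cont_Eu h h0 ht f (y / x) hm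
  have c2 : ContinuousWithinAt (fun z : ℝ × ℝ => z.2 / z.1) {z : ℝ × ℝ | |z.2| < z.1} (x, y) := by
    apply ContinuousAt.continuousWithinAt
    exact ContinuousAt.div continuousAt_snd continuousAt_fst hx.ne'
  have c3 := ContinuousWithinAt.comp (f := fun z : ℝ × ℝ => z.2 / z.1) (g := fun y => Eu (u t) f y)
    (t := I) (x := (x, y)) c1 c2 (fun z hz => div_mem ((abs_nonneg _).trans_lt hz) (le_of_lt hz))
  have c4 : Tendsto _ _ (𝓝 _) := c3
  simp only [Function.comp_def] at c4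
  rw [e] at c4
  exact c4

theorem ev_q_pm (v : E) : ev (q0 * sg v) 1 = 0 ∧ ev (q0 * sg v) (-1) = 0 := by
  refine ⟨?_, ?_⟩
  · rw [ev_mul, q0_pm one_mem_I (by norm_num), zero_mul]
  · rw [ev_mul, q0_pm neg_one_mem_I (by norm_num), zero_mul]

theorem ev_P_pm (v : E) : ev (rh v * Pp v) 1 = 0 ∧ ev (rh v * Pp v) (-1) = 0 := by
  refine ⟨?_, ?_⟩
  · rw [ev_mul, Pp_pm v one_mem_I (by norm_num), mul_zero]
  · rw [ev_mul, Pp_pm v neg_one_mem_I (by norm_num), mul_zero]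

/-! ### the initial values -/

theorem good_uz (hT : 0 < T) (h : ∀ t₁ < T, Sol F u t₁) (h0 : u 0 = uz) : Good uz := by
  have := good_at h h0 (t := 0) ⟨le_rfl, hT⟩
  rwa [h0] at this

theorem Xi_uz (hG : Good uz) {y : ℝ} (hy : y ∈ I) : Xi uz y = y := by
  have h1 := hG.ph_Xi hy
  rw [ph_uz, ev_Xc (hG.Xi_mem hy)] at h1
  exact h1

theorem mm_uz : mm uz = 0 := by
  have : ww uz = 0 := rfl
  unfold mm
  rw [this]
  ring

theorem ff_uz : ff uz = 0 := by unfold ff; rw [mm_uz, mul_zero]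

theorem gg_uz : gg uz = 0 := by unfold gg; rw [mm_uz, mul_zero]

theorem Av_uz : Av uz = 0 := by
  unfold Av
  rw [ff_uz, map_zero, map_zero, map_zero]
  ring

theorem al_uz : al uz = 0 := by
  unfold al
  rw [Av_uz, ff_uz, map_zero, map_zero, sub_zero]

theorem be_uz : be uz = 0 := by
  unfold be
  rw [gg_uz, map_zero]

theorem Kk_uz : Kk uz = 0 := by
  unfold Kk
  rw [al_uz, be_uz, mul_zero, sub_zero]

theorem Hh_uz : Hh uz = 0 := by
  unfold Hh
  rw [al_uz, be_uz, mul_zero, mul_zero, add_zero]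

end Pool.Agent.Work.MP_49ac7c_an
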