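import Pool.Agent.Work.MP_49ac7c_an.Blow2

/-!
Continuation: the maximal solution has `Q → ∞`.
-/

set_option autoImplicit false

namespace Pool.Agent.Work.MP_49ac7c_an

open Set Metric Filter Topology MeasureTheory
open scoped NNReal ContDiff

variable {u : ℝ → E} {t₁ : ℝ}

lemma norm_le_of_even {f : CI} {C : ℝ} (hC : 0 ≤ C) (hf : Rf f = f ∨ Rf f = -f)
    (h : ∀ x ∈ Icc (0:ℝ) 1, |ev f x| ≤ C) : ‖f‖ ≤ C := by
  refine norm_le_of_ev hC fun x hx => ?_
  rcases le_total 0 x with h0 | h0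
  · exact h x ⟨h0, hx.2⟩
  · have h1 := h (-x) ⟨by linarith, by linarith [hx.1]⟩
    rcases hf with hf | hf
    · rwa [← ev_Rf f hx, hf] at h1
    · rwa [← ev_Rf f hx, hf, ev_neg, abs_neg] at h1

lemma X_deriv_le {v : E} (hG : Good v) :
    ev (Int0 (rh v * Pp v * (sg v * sg v) + ww v * (2 * (Kk v * (sg v * sg v))))) 1 ≤
      v.1 + 2 * Av v * ev (Good.Mx v) 1 := by
  have one' : (1:ℝ) ∈ Icc (0:ℝ) 1 := ⟨zero_le_one, le_rfl⟩
  have e1 : rh v * Pp v * (sg v * sg v) = Pp v * sg v := by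
    calc _ = (rh v * sg v) * (Pp v * sg v) := by ring
      _ = _ := by rw [hG.rs, one_mul]
  rw [e1, map_add, ev_add, hG.int_P]
  have h1 : ev q0 1 = 0 := by rw [Good.q0_ev one_mem_I]; norm_num
  rw [h1, zero_mul, sub_zero]
  have h2 : ev (Int0 (ww v * (2 * (Kk v * (sg v * sg v))))) 1 ≤
      2 * Av v * ev (Good.Mx v) 1 := by
    unfold Good.Mx
    rw [← ev_Int0_const_mul]
    refine ev_Int0_le one' fun y hy => ?_
    have h3 := hG.Kk_le hy
    have h4 : 0 ≤ ev (ww v) y * (ev (sg v) y * ev (sg v) y) :=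
      mul_nonneg (hG.wwp y hy) (mul_self_nonneg _)
    have h5 := mul_le_mul_of_nonneg_right h3 h4
    simp only [ev_smul, ev_mul, Good.ev_two]
    nlinarith
  linarith

lemma X_bound (h : Sol F u t₁) (h0 : u 0 = uz) {t : ℝ} (ht : t ∈ Icc 0 t₁) :
    ev (Good.Mx (u t)) 1 ≤ t * (u t).1 ^ 2 := by
  have one' : (1:ℝ) ∈ Icc (0:ℝ) 1 := ⟨zero_le_one, le_rfl⟩
  have hm := mono_of_deriv (f := fun s => s - ev (Good.Mx (u s)) 1 / (u s).1 ^ 2) (a := 0)
    (b := t₁) (fun s hs => (hasDerivWithinAt_id s _).sub ((hd_Mx h 1 hs).div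
      ((hd_s0 (h s hs)).pow 2) (pow_ne_zero 2 (Q_pos h h0 hs).ne'))) (fun s hs => by
      have hG := good_of_sol h h0 s hs
      have hQ := Q_pos h h0 hs
      have hQ1 := Q_ge_one h h0 hs
      have h1 := X_deriv_le hG
      have h2 := hG.Av_nonneg
      have h3 := hG.Mx_nonneg one'
      simp only [Nat.cast_ofNat, Nat.add_one_sub_one, pow_one, Pi.pow_apply]
      rw [sub_nonneg, div_le_one (by positivity)]
      have h4 : (u s).1 ^ 3 ≤ ((u s).1 ^ 2) ^ 2 := by
        have : ((u s).1 ^ 2) ^ 2 = (u s).1 ^ 3 * (u s).1 := by ring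
        rw [this]
        exact le_mul_of_one_le_right (by positivity) hQ1
      have h5 := mul_le_mul_of_nonneg_right h1 (by positivity : (0:ℝ) ≤ (u s).1 ^ 2)
      nlinarith)
  have h1 := hm ⟨le_rfl, ht.1.trans ht.2⟩ ht ht.1
  simp only [h0] at h1
  have h2 : ev (Good.Mx uz) 1 = 0 := by
    unfold Good.Mx
    have : ww uz = 0 := rfl
    rw [this, zero_mul, map_zero]; rfl
  rw [h2, zero_div, sub_zero, sub_nonneg, div_le_iff₀ (by have := Q_pos h h0 ht; positivity)] at h1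
  exact h1

lemma Av_le_X {v : E} (hG : Good v) : Av v ≤ ev (Good.Mx v) 1 := by
  rw [hG.Av_eq]
  refine ev_Int0_le ⟨zero_le_one, le_rfl⟩ fun y hy => ?_
  simp only [ff, mm, ev_mul, ev_sub, ev_one]
  have h1 := hG.ph_nonneg hy
  have h2 := hG.ph_le_one hy
  have h3 := hG.ddpos (x := y)
  have h4 := hG.dd_le_one (x := y)
  have h5 : 0 ≤ ev (ww v) y * (ev (sg v) y * ev (sg v) y) :=
    mul_nonneg (hG.wwp y hy) (mul_self_nonneg _)
  have h6 : (1 - ev (ph v) y * ev (ph v) y) * (ev (dd v) y * ev (dd v) y) ≤ 1 := by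
    have h7 : ev (dd v) y * ev (dd v) y ≤ 1 := by nlinarith
    have h8 : 0 ≤ ev (ph v) y * ev (ph v) y := mul_self_nonneg _
    have h9 : 0 ≤ ev (dd v) y * ev (dd v) y := mul_self_nonneg _
    nlinarith
  calc _ = ((1 - ev (ph v) y * ev (ph v) y) * (ev (dd v) y * ev (dd v) y)) *
        (ev (ww v) y * (ev (sg v) y * ev (sg v) y)) := by ring
    _ ≤ 1 * (ev (ww v) y * (ev (sg v) y * ev (sg v) y)) := mul_le_mul_of_nonneg_right h6 h5
    _ = _ := one_mul _

lemma be_le_X {v : E} (hG : Good v) {x : ℝ} (hx : x ∈ Icc (0:ℝ) 1) :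
    ev (be v) x ≤ ev (Good.Mx v) 1 := by
  have one' : (1:ℝ) ∈ Icc (0:ℝ) 1 := ⟨zero_le_one, le_rfl⟩
  have h0 : ev (be v) x ≤ ev (be v) 1 :=
    ev_Int0_mono hx one' hx.2 fun z hz => hG.gg_nonneg ⟨hx.1.trans hz.1, hz.2⟩
  refine h0.trans (ev_Int0_le one' fun y hy => ?_)
  simp only [gg, mm, ev_mul]
  have h1 := hG.ph_nonneg hy
  have h2 := hG.ph_le_one hy
  have h3 := hG.ddpos (x := y)
  have h4 := hG.dd_le_one (x := y)
  have h5 : 0 ≤ ev (ww v) y * (ev (sg v) y * ev (sg v) y) :=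
    mul_nonneg (hG.wwp y hy) (mul_self_nonneg _)
  have h6 : ev (ph v) y * (ev (dd v) y * ev (dd v) y) ≤ 1 := by
    have h7 : ev (dd v) y * ev (dd v) y ≤ 1 := by nlinarith
    have h9 : 0 ≤ ev (dd v) y * ev (dd v) y := mul_self_nonneg _
    nlinarith
  calc _ = (ev (ph v) y * (ev (dd v) y * ev (dd v) y)) *
        (ev (ww v) y * (ev (sg v) y * ev (sg v) y)) := by ring
    _ ≤ 1 * (ev (ww v) y * (ev (sg v) y * ev (sg v) y)) := mul_le_mul_of_nonneg_right h6 h5
    _ = _ := one_mul _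

lemma norm_be_le {v : E} (hG : Good v) : ‖be v‖ ≤ ev (Good.Mx v) 1 := by
  refine norm_le_of_even (hG.Mx_nonneg ⟨zero_le_one, le_rfl⟩) (Or.inr ?_) fun x hx => ?_
  · have := be_Tr v
    rw [hG.tr] at this
    rw [eq_neg_iff_add_eq_zero, add_comm, ← eq_neg_iff_add_eq_zero]; exact this
  · rw [abs_of_nonneg (hG.be_nonneg hx)]
    exact be_le_X hG hx

lemma norm_Kk_le {v : E} (hG : Good v) : ‖Kk v‖ ≤ 2 * ev (Good.Mx v) 1 := by
  have hX := hG.Mx_nonneg (x := 1) ⟨zero_le_one, le_rfl⟩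
  refine norm_le_of_even (by positivity) (Or.inl ?_) fun x hx => ?_
  · have := Kk_Tr v
    rw [hG.tr] at this
    exact this.symm
  · rw [Good.Kk_ev]
    have h1 := hG.al_nonneg hx
    have h2 := (hG.al_le hx).trans (Av_le_X hG)
    have h3 := hG.be_nonneg hx
    have h4 := be_le_X hG hx
    have h5 := hG.ph_nonneg hx
    have h6 := hG.ph_le_one hx
    have h7 : 0 ≤ ev (ph v) x * ev (be v) x := mul_nonneg h5 h3
    have h8 : ev (ph v) x * ev (be v) x ≤ ev (Good.Mx v) 1 := by nlinarith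
    rw [abs_le]
    constructor <;> nlinarith

lemma norm_dd_le {v : E} (hG : Good v) : ‖dd v‖ ≤ 1 :=
  norm_le_of_ev zero_le_one fun x _ => by
    rw [abs_of_nonneg hG.ddpos.le]; exact hG.dd_le_one

lemma kap_eq {v : E} (hG : Good v) :
    kap v = -(dd v * ww v * (sg v * sg v) + 2 * (sg v * sg v) * be v) := by
  unfold kap mm
  have := hG.ddp
  calc _ = -(dd v * (dd v * (1 + ph v * ph v)) * ww v * (sg v * sg v) +
        2 * (sg v * sg v) * be v) := by ring
    _ = _ := by rw [this]; ring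

lemma norm_two_mul_le (f : CI) : ‖2 * f‖ ≤ 2 * ‖f‖ := by
  rw [two_mul, two_mul]; exact norm_add_le _ _

/-- a priori bound on the state from a bound on `Q`. -/
theorem state_bound (M : ℝ) : ∃ N : ℝ, ∀ (u : ℝ → E) (t₁ : ℝ), t₁ ≤ 37 → Sol F u t₁ → u 0 = uz →
    (∀ t ∈ Icc 0 t₁, (u t).1 ≤ M) → ∀ t ∈ Icc 0 t₁, ‖u t‖ ≤ N := by
  set X : ℝ := 37 * M ^ 2 with hX
  have hX0 : 0 ≤ X := by positivity
  set S : ℝ := Real.exp (2 * X * 37) with hS
  have hS0 : 0 < S := Real.exp_pos _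
  set a : ℝ := S ^ 2 * ‖q0‖ + S ^ 3 + 2 * X with ha
  set b : ℝ := S * ‖q0p‖ + 2 * S ^ 3 * X with hb
  have ha0 : 0 ≤ a := by positivity
  have hb0 : 0 ≤ b := by positivity
  refine ⟨max (max M (gronwallBound 0 a b 37)) (max S 1), ?_⟩
  intro u t₁ ht1 h h0 hM t ht
  have hXt : ∀ s ∈ Icc 0 t₁, ev (Good.Mx (u s)) 1 ≤ X := by
    intro s hs
    refine (X_bound h h0 hs).trans ?_
    have h1 := Q_pos h h0 hs
    have h2 := hM s hs
    have h3 : s ≤ 37 := hs.2.trans ht1
    have h4 := hs.1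
    calc s * (u s).1 ^ 2 ≤ 37 * M ^ 2 := by gcongr
      _ = X := rfl
  have hK : ∀ s ∈ Icc 0 t₁, ‖Kk (u s)‖ ≤ 2 * X := fun s hs =>
    (norm_Kk_le (good_of_sol h h0 s hs)).trans (by linarith [hXt s hs])
  have hbe : ∀ s ∈ Icc 0 t₁, ‖be (u s)‖ ≤ X := fun s hs =>
    (norm_be_le (good_of_sol h h0 s hs)).trans (hXt s hs)
  have hgb : ∀ s ∈ Icc 0 t₁, gronwallBound 1 (2 * X) 0 s ≤ S := by
    intro s hs
    rw [gronwallBound_ε0, one_mul, hS]
    apply Real.exp_le_exp.mpr
    have := hs.2.trans ht1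
    gcongr
  have hsg : ∀ s ∈ Icc 0 t₁, ‖sg (u s)‖ ≤ S := by
    intro s hs
    have := gronwall_norm (f := fun s => sg (u s)) (K := 2 * X) (ε := 0)
      (fun s hs => hd_sg (h s hs)) (fun s hs => by
        rw [add_zero]
        exact (norm_mul_le _ _).trans
          (mul_le_mul_of_nonneg_right (hK s ⟨hs.1, hs.2.le⟩) (norm_nonneg _))) s hs
    refine this.trans (le_trans ?_ (hgb s hs))
    rw [h0, sg_uz, gronwallBound_ε0, gronwallBound_ε0]
    exact mul_le_mul_of_nonneg_right norm_one_le (Real.exp_pos _).le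
  have hrh : ∀ s ∈ Icc 0 t₁, ‖rh (u s)‖ ≤ S := by
    intro s hs
    have := gronwall_norm (f := fun s => rh (u s)) (K := 2 * X) (ε := 0)
      (fun s hs => hd_rh (h s hs)) (fun s hs => by
        rw [add_zero, norm_neg]
        exact (norm_mul_le _ _).trans
          (mul_le_mul_of_nonneg_right (hK s ⟨hs.1, hs.2.le⟩) (norm_nonneg _))) s hs
    refine this.trans (le_trans ?_ (hgb s hs))
    have : rh uz = 1 := rfl
    rw [h0, this, gronwallBound_ε0, gronwallBound_ε0]
    exact mul_le_mul_of_nonneg_right norm_one_le (Real.exp_pos _).le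
  -- the pair (w, ν)
  have hpair : ∀ s ∈ Icc 0 t₁, ‖(ww (u s), nu (u s))‖ ≤ gronwallBound 0 a b s := by
    intro s hs
    have := gronwall_norm (f := fun s => (ww (u s), nu (u s))) (K := a) (ε := b)
      (fun s hs => (hd_ww (h s hs)).prodMk (hd_nu (h s hs))) (fun s hs => by
        have hs' : s ∈ Icc 0 t₁ := ⟨hs.1, hs.2.le⟩
        have hG := good_of_sol h h0 s hs'
        have e1 : ‖ww (u s)‖ ≤ ‖(ww (u s), nu (u s))‖ := norm_fst_le (ww (u s), nu (u s))
        have e2 : ‖nu (u s)‖ ≤ ‖(ww (u s), nu (u s))‖ := norm_snd_le (ww (u s), nu (u s))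
        set V := ‖(ww (u s), nu (u s))‖ with hV
        have hV0 : 0 ≤ V := norm_nonneg _
        have hD := norm_dd_le hG
        have b1 := hsg s hs'
        have b2 := hrh s hs'
        have b3 := hK s hs'
        have b4 := hbe s hs'
        rw [Prod.norm_mk]
        refine max_le ?_ ?_
        · rw [norm_neg]
          have c1 : ‖rh (u s) * (q0p + q0 * nu (u s) * rh (u s))‖ ≤
              S * (‖q0p‖ + ‖q0‖ * V * S) := by
            refine (norm_mul_le _ _).trans ?_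
            gcongr
            refine (norm_add_le _ _).trans ?_
            gcongr
            refine (norm_mul_le _ _).trans ?_
            gcongr
            refine (norm_mul_le _ _).trans ?_
            gcongr
          refine c1.trans ?_
          have : 0 ≤ (S ^ 3 + 2 * X) * V + 2 * S ^ 3 * X := by positivity
          rw [ha, hb]
          nlinarith
        · rw [kap_eq hG]
          have c1 : ‖dd (u s) * ww (u s) * (sg (u s) * sg (u s))‖ ≤ 1 * V * (S * S) := by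
            refine (norm_mul_le _ _).trans ?_
            gcongr
            · refine (norm_mul_le _ _).trans ?_
              gcongr
            · refine (norm_mul_le _ _).trans ?_
              gcongr
          have c2 : ‖2 * (sg (u s) * sg (u s)) * be (u s)‖ ≤ 2 * (S * S) * X := by
            refine (norm_mul_le _ _).trans ?_
            gcongr
            refine (norm_two_mul_le _).trans ?_
            gcongr
            refine (norm_mul_le _ _).trans ?_
            gcongr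
          have c3 : ‖-(dd (u s) * ww (u s) * (sg (u s) * sg (u s)) +
              2 * (sg (u s) * sg (u s)) * be (u s)) * sg (u s) + Kk (u s) * nu (u s)‖ ≤
              (1 * V * (S * S) + 2 * (S * S) * X) * S + 2 * X * V := by
            refine (norm_add_le _ _).trans ?_
            gcongr
            · refine (norm_mul_le _ _).trans ?_
              gcongr
              rw [norm_neg]
              exact (norm_add_le _ _).trans (add_le_add c1 c2)
            · refine (norm_mul_le _ _).trans ?_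
              gcongr
          refine c3.trans ?_
          have : 0 ≤ (S ^ 2 * ‖q0‖) * V + S * ‖q0p‖ := by positivity
          rw [ha, hb]
          nlinarith) s hs
    refine this.trans (le_of_eq ?_)
    rw [h0]
    have e1 : ww uz = 0 := rfl
    have e2 : nu uz = 0 := rfl
    rw [e1, e2]
    simp
  have hpt := (hpair t ht).trans (gronwallBound_mono le_rfl hb0 ha0 (ht.2.trans ht1))
  have e1 : ‖ww (u t)‖ ≤ gronwallBound 0 a b 37 :=
    (norm_fst_le (ww (u t), nu (u t))).trans hpt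
  have e2 : ‖nu (u t)‖ ≤ gronwallBound 0 a b 37 :=
    (norm_snd_le (ww (u t), nu (u t))).trans hpt
  have e3 : ‖(u t).1‖ ≤ M := by
    rw [Real.norm_eq_abs, abs_of_nonneg (Q_pos h h0 ht).le]
    exact hM t ht
  have e4 : ‖u t‖ = max ‖(u t).1‖ (max ‖nu (u t)‖ (max ‖rh (u t)‖ (max ‖dd (u t)‖ ‖ww (u t)‖))) :=
    rfl
  rw [e4]
  have e5 := norm_dd_le (good_of_sol h h0 t ht)
  have e6 := hrh t ht
  refine max_le (e3.trans ?_) (max_le (e2.trans ?_) (max_le (e6.trans ?_) (max_le (e5.trans ?_)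
    (e1.trans ?_)))) <;> simp [le_max_iff]

/-- The maximal solution. -/
theorem exists_solution : ∃ (T : ℝ) (u : ℝ → E), 0 < T ∧ u 0 = uz ∧ (∀ t₁ < T, Sol F u t₁) ∧
    ∀ M : ℝ, ∃ t₀ ∈ Ico 0 T, ∀ t ∈ Ico t₀ T, M < (u t).1 := by
  obtain ⟨T, hT0, hT37, u, hu0, hsol, hbl⟩ := maximal LB_F uz 37 (by norm_num) no_sol_37
  refine ⟨T, u, hT0, hu0, hsol, fun M => ?_⟩
  obtain ⟨N, hN⟩ := state_bound M
  have : ∃ t₀ ∈ Ico 0 T, M < (u t₀).1 := by
    by_contra hcon
    push Not at hcon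
    obtain ⟨t, ht, htN⟩ := hbl N
    have := hN u t (ht.2.le.trans hT37) (hsol t ht.2) hu0
      (fun s hs => hcon s ⟨hs.1, hs.2.trans_lt ht.2⟩) t ⟨ht.1, le_rfl⟩
    linarith
  obtain ⟨t₀, ht₀, hMt⟩ := this
  refine ⟨t₀, ht₀, fun t ht => hMt.trans_le ?_⟩
  exact Q_mono (hsol t ht.2) hu0 ⟨ht₀.1, ht.1⟩ ⟨ht₀.1.trans ht.1, le_rfl⟩ ht.1

end Pool.Agent.Work.MP_49ac7c_an
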