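import Pool.Agent.Work.MP_49ac7c_an.Field

/-!
Time derivatives along the solution, invariants.
-/

set_option autoImplicit false

namespace Pool.Agent.Work.MP_49ac7c_an

open Set Metric Filter Topology MeasureTheory
open scoped NNReal ContDiff

section clm
variable {G H : Type*} [NormedAddCommGroup G] [NormedSpace ℝ G] [NormedAddCommGroup H]
  [NormedSpace ℝ H]

lemma HasDerivWithinAt.clm {f : ℝ → G} {f' : G} {J : Set ℝ} {s : ℝ}
    (h : HasDerivWithinAt f f' J s) (L : G →L[ℝ] H) :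
    HasDerivWithinAt (fun t => L (f t)) (L f') J s :=
  L.hasFDerivAt.comp_hasDerivWithinAt s h

end clm

variable {u : ℝ → E} {J : Set ℝ} {s : ℝ}

lemma hd_s0 (h : HasDerivWithinAt u (F (u s)) J s) :
    HasDerivWithinAt (fun t => (u t).1) (Av (u s) * (u s).1) J s :=
  HasDerivWithinAt.clm h (ContinuousLinearMap.fst ℝ ℝ (CI × CI × CI × CI))

lemma hd_snd (h : HasDerivWithinAt u (F (u s)) J s) :
    HasDerivWithinAt (fun t => (u t).2) (F (u s)).2 J s :=
  HasDerivWithinAt.clm h (ContinuousLinearMap.snd ℝ ℝ (CI × CI × CI × CI))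

lemma hd_nu (h : HasDerivWithinAt u (F (u s)) J s) :
    HasDerivWithinAt (fun t => nu (u t)) (kap (u s) * sg (u s) + Kk (u s) * nu (u s)) J s :=
  HasDerivWithinAt.clm (hd_snd h) (ContinuousLinearMap.fst ℝ CI (CI × CI × CI))

lemma hd_snd2 (h : HasDerivWithinAt u (F (u s)) J s) :
    HasDerivWithinAt (fun t => (u t).2.2) (F (u s)).2.2 J s :=
  HasDerivWithinAt.clm (hd_snd h) (ContinuousLinearMap.snd ℝ CI (CI × CI × CI))

lemma hd_rh (h : HasDerivWithinAt u (F (u s)) J s) :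
    HasDerivWithinAt (fun t => rh (u t)) (-(Kk (u s) * rh (u s))) J s :=
  HasDerivWithinAt.clm (hd_snd2 h) (ContinuousLinearMap.fst ℝ CI (CI × CI))

lemma hd_snd3 (h : HasDerivWithinAt u (F (u s)) J s) :
    HasDerivWithinAt (fun t => (u t).2.2.2) (F (u s)).2.2.2 J s :=
  HasDerivWithinAt.clm (hd_snd2 h) (ContinuousLinearMap.snd ℝ CI (CI × CI))

lemma hd_dd (h : HasDerivWithinAt u (F (u s)) J s) :
    HasDerivWithinAt (fun t => dd (u t))
      (-(4 * ph (u s) * Hh (u s) * (dd (u s) * dd (u s)))) J s :=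
  HasDerivWithinAt.clm (hd_snd3 h) (ContinuousLinearMap.fst ℝ CI CI)

lemma hd_ww (h : HasDerivWithinAt u (F (u s)) J s) :
    HasDerivWithinAt (fun t => ww (u t))
      (-(rh (u s) * (q0p + q0 * nu (u s) * rh (u s)))) J s :=
  HasDerivWithinAt.clm (hd_snd3 h) (ContinuousLinearMap.snd ℝ CI CI)

lemma HasDerivWithinAt.cst {f : ℝ → ℝ} {f' : ℝ} (h : HasDerivWithinAt f f' J s) :
    HasDerivWithinAt (fun t => algebraMap ℝ CI (f t)) (algebraMap ℝ CI f') J s :=
  HasDerivWithinAt.clm h (Algebra.linearMap ℝ CI).toContinuousLinearMap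

lemma hd_sg (h : HasDerivWithinAt u (F (u s)) J s) :
    HasDerivWithinAt (fun t => sg (u t)) (Kk (u s) * sg (u s)) J s := by
  have := (HasDerivWithinAt.cst (hd_s0 h)).add (HasDerivWithinAt.clm (hd_nu h) Int0)
  rw [Kk_mul_sg]
  exact this

lemma hd_ph (h : HasDerivWithinAt u (F (u s)) J s) :
    HasDerivWithinAt (fun t => ph (u t)) (2 * Hh (u s)) J s := by
  have := HasDerivWithinAt.clm ((hd_sg h).mul (hd_sg h)) Int0
  have e : 2 * Hh (u s) = Int0 (Kk (u s) * sg (u s) * sg (u s) + sg (u s) * (Kk (u s) * sg (u s))) := by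
    rw [Hh_eq]
    have : Kk (u s) * sg (u s) * sg (u s) + sg (u s) * (Kk (u s) * sg (u s))
      = (2:ℝ) • (Kk (u s) * (sg (u s) * sg (u s))) := by
      rw [two_smul]; ring
    rw [this, map_smul, two_smul]; ring
  rw [e]
  exact this

/-! ### initial data -/

noncomputable def D0 : CI := ⟨fun x => 1 / (1 + x.1 * x.1), by
  refine Continuous.div (by fun_prop) (by fun_prop) fun x => ?_
  have := mul_self_nonneg x.1
  positivity⟩

lemma ev_D0 {x : ℝ} (hx : x ∈ I) : ev D0 x = 1 / (1 + x * x) := by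
  rw [ev_of_mem _ hx]; rfl

noncomputable def uz : E := (1, 0, 1, D0, 0)

lemma sg_uz : sg uz = 1 := by
  unfold sg uz nu; simp

lemma ph_uz : ph uz = Xc := by
  unfold ph; rw [sg_uz, mul_one]; rfl

/-! ### invariants -/

section inv

variable {t₁ : ℝ}

lemma inv_rs (h : Sol F u t₁) (h0 : u 0 = uz) : ∀ t ∈ Icc 0 t₁, rh (u t) * sg (u t) = 1 := by
  intro t ht
  have := eq_zero_of_deriv_bound (f := fun t => rh (u t) * sg (u t) - 1) (f' := fun _ => 0)
    (K := 0) (b := t₁) (fun s hs => by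
      refine (((hd_rh (h s hs)).mul (hd_sg (h s hs))).sub_const 1).congr_deriv ?_
      ring) (by simp [h0, sg_uz]; simp [rh, uz]) (by simp) t ht
  exact sub_eq_zero.mp this

lemma sol_cont (h : Sol F u t₁) : ContinuousOn u (Icc 0 t₁) :=
  fun s hs => (h s hs).continuousWithinAt

lemma sol_bdd (h : Sol F u t₁) {G : Type*} [NormedAddCommGroup G] {g : E → G}
    (hg : Continuous g) : ∃ C, ∀ t ∈ Icc 0 t₁, ‖g (u t)‖ ≤ C := by
  obtain ⟨C, hC⟩ := (isCompact_Icc.image_of_continuousOn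
    (hg.comp_continuousOn (sol_cont h))).isBounded.exists_norm_le
  exact ⟨C, fun t ht => hC _ ⟨t, ht, rfl⟩⟩

lemma inv_dd (h : Sol F u t₁) (h0 : u 0 = uz) :
    ∀ t ∈ Icc 0 t₁, dd (u t) * (1 + ph (u t) * ph (u t)) = 1 := by
  intro t ht
  obtain ⟨C, hC⟩ := sol_bdd h (g := fun v => 4 * ph v * Hh v * dd v)
    (((continuous_const.mul CD_ph.continuous).mul CD_Hh.continuous).mul CD_dd.continuous)
  have := eq_zero_of_deriv_bound (f := fun t => dd (u t) * (1 + ph (u t) * ph (u t)) - 1)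
    (f' := fun s => -(4 * ph (u s) * Hh (u s) * dd (u s)) *
      (dd (u s) * (1 + ph (u s) * ph (u s)) - 1))
    (K := C) (b := t₁) (fun s hs => by
      refine (((hd_dd (h s hs)).mul (((hd_ph (h s hs)).mul
        (hd_ph (h s hs))).const_add 1)).sub_const 1).congr_deriv ?_
      simp only [Pi.mul_apply]
      ring) (by
        simp only [h0, ph_uz]
        refine ev_ext fun x hx => ?_
        simp only [dd, uz, ev_sub, ev_mul, ev_add, ev_one, ev_Xc hx, ev_D0 hx, ev_zero]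
        have : 1 + x * x ≠ 0 := by have := mul_self_nonneg x; positivity
        field_simp
        ring) (fun s hs => by
        calc _ ≤ ‖-(4 * ph (u s) * Hh (u s) * dd (u s))‖ *
              ‖dd (u s) * (1 + ph (u s) * ph (u s)) - 1‖ := norm_mul_le _ _
          _ ≤ _ := by
            gcongr
            rw [norm_neg]
            exact hC s ⟨hs.1, hs.2.le⟩) t ht
  exact sub_eq_zero.mp this

end inv

/-! ### reflection symmetry -/

noncomputable def Tr : E →L[ℝ] E :=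
  (ContinuousLinearMap.fst ℝ ℝ (CI × CI × CI × CI)).prod
    ((-(Rf.comp ((ContinuousLinearMap.fst ℝ CI (CI × CI × CI)).comp
      (ContinuousLinearMap.snd ℝ ℝ (CI × CI × CI × CI))))).prod
    ((Rf.comp ((ContinuousLinearMap.fst ℝ CI (CI × CI)).comp
      ((ContinuousLinearMap.snd ℝ CI (CI × CI × CI)).comp
      (ContinuousLinearMap.snd ℝ ℝ (CI × CI × CI × CI))))).prod
    ((Rf.comp ((ContinuousLinearMap.fst ℝ CI CI).comp
      ((ContinuousLinearMap.snd ℝ CI (CI × CI)).comp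
      ((ContinuousLinearMap.snd ℝ CI (CI × CI × CI)).comp
      (ContinuousLinearMap.snd ℝ ℝ (CI × CI × CI × CI)))))).prod
    (-(Rf.comp ((ContinuousLinearMap.snd ℝ CI CI).comp
      ((ContinuousLinearMap.snd ℝ CI (CI × CI)).comp
      ((ContinuousLinearMap.snd ℝ CI (CI × CI × CI)).comp
      (ContinuousLinearMap.snd ℝ ℝ (CI × CI × CI × CI))))))))))

lemma Tr_apply (u : E) : Tr u = (u.1, -(Rf (nu u)), Rf (rh u), Rf (dd u), -(Rf (ww u))) := rfl

lemma Rf_Xc : Rf Xc = -Xc := by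
  unfold Xc; rw [Rf_Int0, Rf_one]

lemma Rf_q0 : Rf q0 = q0 := by
  unfold q0; rw [Rf_mul, map_sub, Rf_mul, Rf_Xc, Rf_one]; ring

lemma Rf_q0p : Rf q0p = -q0p := by
  unfold q0p
  have h4 : Rf (4 : CI) = 4 := by
    have := Rf_algebraMap 4
    rwa [map_ofNat] at this
  rw [map_neg, Rf_mul, Rf_mul, map_sub, Rf_mul, Rf_Xc, Rf_one, h4]; ring

lemma Rf_two : Rf (2 : CI) = 2 := by
  have := Rf_algebraMap 2
  rwa [map_ofNat] at this

lemma Rf_four : Rf (4 : CI) = 4 := by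
  have := Rf_algebraMap 4
  rwa [map_ofNat] at this

lemma Int0_neg_Rf (f : CI) : Int0 (-(Rf f)) = Rf (Int0 f) := by
  rw [map_neg, Rf_Int0]

lemma Int0_Rf (f : CI) : Int0 (Rf f) = -(Rf (Int0 f)) := by
  rw [Rf_Int0, neg_neg]

lemma sg_Tr (u : E) : sg (Tr u) = Rf (sg u) := by
  have : nu (Tr u) = -(Rf (nu u)) := rfl
  unfold sg
  rw [this, Int0_neg_Rf, map_add, Rf_algebraMap]; rfl

lemma ph_Tr (u : E) : ph (Tr u) = -(Rf (ph u)) := by
  unfold ph
  rw [sg_Tr, ← Rf_mul, Int0_Rf]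

lemma mm_Tr (u : E) : mm (Tr u) = -(Rf (mm u)) := by
  have h1 : dd (Tr u) = Rf (dd u) := rfl
  have h2 : ww (Tr u) = -(Rf (ww u)) := rfl
  unfold mm
  rw [sg_Tr, h1, h2]
  simp only [Rf_mul]
  ring

lemma ff_Tr (u : E) : ff (Tr u) = -(Rf (ff u)) := by
  unfold ff
  rw [ph_Tr, mm_Tr]
  simp only [Rf_mul, map_sub, Rf_one]
  ring

lemma gg_Tr (u : E) : gg (Tr u) = Rf (gg u) := by
  unfold gg
  rw [ph_Tr, mm_Tr]
  simp only [Rf_mul]
  ring

lemma Av_Tr (u : E) : Av (Tr u) = Av u := by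
  unfold Av
  rw [ff_Tr, Int0_neg_Rf, evL_apply, evL_apply, evL_apply, evL_apply, ev_Rf _ one_mem_I,
    ev_Rf _ neg_one_mem_I, neg_neg, add_comm]

lemma al_Tr (u : E) : al (Tr u) = Rf (al u) := by
  unfold al
  rw [Av_Tr, ff_Tr, Int0_neg_Rf, map_sub, Rf_algebraMap]

lemma be_Tr (u : E) : be (Tr u) = -(Rf (be u)) := by
  unfold be
  rw [gg_Tr, Int0_Rf]

lemma Kk_Tr (u : E) : Kk (Tr u) = Rf (Kk u) := by
  unfold Kk
  rw [al_Tr, ph_Tr, be_Tr]
  simp only [Rf_mul, map_sub, Rf_two]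
  ring

lemma Hh_Tr (u : E) : Hh (Tr u) = -(Rf (Hh u)) := by
  unfold Hh
  rw [al_Tr, ph_Tr, be_Tr]
  simp only [Rf_mul, map_sub, map_add, Rf_one]
  ring

lemma kap_Tr (u : E) : kap (Tr u) = -(Rf (kap u)) := by
  unfold kap
  rw [sg_Tr, ph_Tr, be_Tr, mm_Tr]
  simp only [Rf_mul, map_neg, map_add, Rf_one, Rf_two]
  ring

lemma F_Tr (u : E) : F (Tr u) = Tr (F u) := by
  have h1 : dd (Tr u) = Rf (dd u) := rfl
  have h2 : nu (Tr u) = -(Rf (nu u)) := rfl
  have h3 : rh (Tr u) = Rf (rh u) := rfl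
  have h4 : (Tr u).1 = u.1 := rfl
  have e : Tr (F u) = (Av u * u.1, -(Rf (kap u * sg u + Kk u * nu u)),
    Rf (-(Kk u * rh u)), Rf (-(4 * ph u * Hh u * (dd u * dd u))),
    -(Rf (-(rh u * (q0p + q0 * nu u * rh u))))) := rfl
  rw [e]
  unfold F
  rw [Av_Tr, kap_Tr, sg_Tr, Kk_Tr, ph_Tr, Hh_Tr, h1, h2, h3, h4]
  simp only [Rf_mul, map_neg, map_add, Rf_four, Rf_q0, Rf_q0p]
  refine Prod.ext rfl (Prod.ext ?_ (Prod.ext ?_ (Prod.ext ?_ ?_))) <;> simp only <;> ring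

lemma Tr_uz : Tr uz = uz := by
  rw [Tr_apply]
  have h1 : nu uz = 0 := rfl
  have h2 : rh uz = 1 := rfl
  have h3 : dd uz = D0 := rfl
  have h4 : ww uz = 0 := rfl
  have h5 : Rf D0 = D0 := by
    refine ev_ext fun x hx => ?_
    rw [ev_Rf _ hx, ev_D0 hx, ev_D0 (neg_mem_I hx)]
    ring_nf
  rw [h1, h2, h3, h4, h5, map_zero, neg_zero, Rf_one]
  rfl

lemma Tr_sol {t₁ : ℝ} (h : Sol F u t₁) : Sol F (fun t => Tr (u t)) t₁ := by
  intro s hs
  have := HasDerivWithinAt.clm (h s hs) Tr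
  rw [← F_Tr] at this
  exact this

lemma sym {t₁ : ℝ} (h : Sol F u t₁) (h0 : u 0 = uz) : ∀ t ∈ Icc 0 t₁, Tr (u t) = u t := by
  intro t ht
  exact Sol.unique LB_F (Tr_sol h) h (by simp only [h0, Tr_uz]) ht.1 ht.2 ht.2

end Pool.Agent.Work.MP_49ac7c_an
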