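import Pool.Agent.Work.MP_49ac7c_an.Label

/-!
Eulerian functions: joint smoothness and derivatives.
-/

set_option autoImplicit false

namespace Pool.Agent.Work.MP_49ac7c_an

open Set Metric Filter Topology MeasureTheory Asymptotics
open scoped NNReal ContDiff

variable {t₁ : ℝ} {u : ℝ → E}

/-- Eulerian version of a Lagrangian function. -/
noncomputable def Ge (u : ℝ → E) (f : ℝ → CI) (p : ℝ × ℝ) : ℝ := Eu (u p.2) (f p.2) p.1

lemma hasF_Ge (h : Sol F u t₁) (h0 : u 0 = uz) {y t : ℝ} (hy : y ∈ I) (ht : t ∈ Icc 0 t₁)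
    {f : ℝ → CI} {fx ft : CI} (hx : Dx (f t) fx) (hf : HasDerivWithinAt f ft (Icc 0 t₁) t) :
    HasFDerivWithinAt (Ge u f)
      (cov (Eu (u t) (fx * (rh (u t) * rh (u t))) y)
        (Eu (u t) (ft - 2 * Hh (u t) * (fx * (rh (u t) * rh (u t)))) y))
      (Bx t₁) (y, t) := by
  have hG := good_of_sol h h0 t ht
  have h1 := hasF_Zz h h0 hy ht
  have h2 : HasFDerivWithinAt (Zz u) ((cov (Eu (u t) (rh (u t) * rh (u t)) y)
      (Eu (u t) (-(2 * Hh (u t) * (rh (u t) * rh (u t)))) y)).prod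
      (ContinuousLinearMap.snd ℝ ℝ ℝ)) (Bx t₁) (y, t) :=
    h1.prodMk hasFDerivWithinAt_snd
  have h3 := hasF_joint (f := f) (hG.Xi_mem hy) hx hf
  have h4 := HasFDerivWithinAt.comp (y, t) (g := fun p : ℝ × ℝ => ev (f p.2) p.1) (f := Zz u)
    (t := Bx t₁) h3 h2 (Zz_maps h h0)
  refine h4.congr_fderiv ?_
  ext
  · simp [Eu]
  · simp [Eu, Good.ev_two]; ring

lemma uniq_Bx (ht1 : 0 < t₁) : UniqueDiffOn ℝ (Bx t₁) :=
  (uniqueDiffOn_Icc (by norm_num : (-1:ℝ) < 1)).prod (uniqueDiffOn_Icc ht1)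

lemma cov_smooth {n : WithTop ℕ∞} {s : Set (ℝ × ℝ)} {a b : ℝ × ℝ → ℝ} (ha : ContDiffOn ℝ n a s)
    (hb : ContDiffOn ℝ n b s) : ContDiffOn ℝ n (fun p => cov (a p) (b p)) s :=
  (ha.smul contDiffOn_const).add (hb.smul contDiffOn_const)

lemma DI_rh (ht1 : 0 ≤ t₁) (h : Sol F u t₁) (h0 : u 0 = uz) : DI t₁ (fun t => rh (u t)) :=
  fun k => (Rk_all ht1 h h0 k).rh

lemma DI_ww (ht1 : 0 ≤ t₁) (h : Sol F u t₁) (h0 : u 0 = uz) : DI t₁ (fun t => ww (u t)) :=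
  fun k => (Rk_all ht1 h h0 k).ww

lemma DI_Hh (ht1 : 0 ≤ t₁) (h : Sol F u t₁) (h0 : u 0 = uz) : DI t₁ (fun t => Hh (u t)) :=
  fun k => ((Rk_all ht1 h h0 k).Hh h).pred

lemma DI_q (ht1 : 0 ≤ t₁) (h : Sol F u t₁) (h0 : u 0 = uz) : DI t₁ (fun t => q0 * sg (u t)) :=
  fun k => (Dk.q0 k).mul ((Rk_all ht1 h h0 k).sg' h).pred

theorem Ge_smooth_nat (ht1 : 0 < t₁) (h : Sol F u t₁) (h0 : u 0 = uz) (n : ℕ) :
    ∀ f : ℝ → CI, DI t₁ f → ContDiffOn ℝ n (Ge u f) (Bx t₁) := by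
  have hder : ∀ f : ℝ → CI, DI t₁ f → ∃ a b : ℝ → CI, DI t₁ a ∧ DI t₁ b ∧
      ∀ p ∈ Bx t₁, HasFDerivWithinAt (Ge u f) (cov (Ge u a p) (Ge u b p)) (Bx t₁) p := by
    intro f hf
    obtain ⟨fx, hfx, hx⟩ := hf.exists_dx
    obtain ⟨ft, hft, htt⟩ := hf.exists_dt ht1
    have hrh := DI_rh ht1.le h h0
    have ha : DI t₁ (fun t => fx t * (rh (u t) * rh (u t))) := hfx.mul (hrh.mul hrh)
    refine ⟨fun t => fx t * (rh (u t) * rh (u t)),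
      fun t => ft t - 2 * Hh (u t) * (fx t * (rh (u t) * rh (u t))), ha, ?_, fun p hp => ?_⟩
    · have h2 : DI t₁ (fun _ => (2 : CI)) := fun k => Dk.two k
      exact hft.sub ((h2.mul (DI_Hh ht1.le h h0)).mul ha)
    · exact hasF_Ge h h0 hp.1 hp.2 (hx p.2 hp.2) (htt p.2 hp.2)
  induction n with
  | zero =>
    intro f hf
    obtain ⟨a, b, _, _, hd⟩ := hder f hf
    refine contDiffOn_zero.2 fun p hp => (hd p hp).continuousWithinAt
  | succ n ih =>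
    intro f hf
    obtain ⟨a, b, ha, hb, hd⟩ := hder f hf
    rw [Nat.cast_succ, contDiffOn_succ_iff_hasFDerivWithinAt_of_uniqueDiffOn (uniq_Bx ht1)]
    refine ⟨fun hn => absurd hn (by simp), _, cov_smooth (ih a ha) (ih b hb), hd⟩

theorem Ge_smooth (ht1 : 0 < t₁) (h : Sol F u t₁) (h0 : u 0 = uz) {f : ℝ → CI}
    (hf : DI t₁ f) : ContDiffOn ℝ ∞ (Ge u f) (Bx t₁) :=
  contDiffOn_infty.2 fun n => Ge_smooth_nat ht1 h h0 n f hf

/-- `y`-derivative at fixed time. -/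
lemma hasD_Eu (h : Sol F u t₁) (h0 : u 0 = uz) {y t : ℝ} (hy : y ∈ I) (ht : t ∈ Icc 0 t₁)
    {f fx : CI} (hx : Dx f fx) :
    HasDerivWithinAt (Eu (u t) f) (Eu (u t) (fx * (rh (u t) * rh (u t))) y) I y := by
  have h1 := hasF_Ge (f := fun _ => f) h h0 hy ht hx (hasDerivWithinAt_const _ _ _)
  have h2 : HasDerivWithinAt (fun z : ℝ => ((z, t) : ℝ × ℝ)) (1, 0) I y :=
    (hasDerivWithinAt_id y I).prodMk (hasDerivWithinAt_const _ _ _)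
  have hm : MapsTo (fun z : ℝ => ((z, t) : ℝ × ℝ)) I (Bx t₁) := fun z hz => ⟨hz, ht⟩
  have h3 := HasFDerivWithinAt.comp_hasDerivWithinAt y h1 h2 hm
  refine HasDerivWithinAt.congr_deriv h3 ?_
  simp

/-- time derivative at fixed Eulerian position. -/
lemma hasD_Ge_t (h : Sol F u t₁) (h0 : u 0 = uz) {y t : ℝ} (hy : y ∈ I) (ht : t ∈ Icc 0 t₁)
    {f : ℝ → CI} {fx ft : CI} (hx : Dx (f t) fx) (hf : HasDerivWithinAt f ft (Icc 0 t₁) t) :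
    HasDerivWithinAt (fun s => Ge u f (y, s))
      (Eu (u t) ft y - 2 * Eu (u t) (Hh (u t)) y * Eu (u t) (fx * (rh (u t) * rh (u t))) y)
      (Icc 0 t₁) t := by
  have h1 := hasF_Ge h h0 hy ht hx hf
  have h2 : HasDerivWithinAt (fun s : ℝ => ((y, s) : ℝ × ℝ)) (0, 1) (Icc 0 t₁) t :=
    (hasDerivWithinAt_const _ _ _).prodMk (hasDerivWithinAt_id t _)
  have hm : MapsTo (fun s : ℝ => ((y, s) : ℝ × ℝ)) (Icc 0 t₁) (Bx t₁) := fun z hz => ⟨hy, hz⟩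
  have h3 := HasFDerivWithinAt.comp_hasDerivWithinAt t h1 h2 hm
  refine HasDerivWithinAt.congr_deriv h3 ?_
  simp [Eu, Good.ev_two]

end Pool.Agent.Work.MP_49ac7c_an
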