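import Pool.Agent.Work.MP_49ac7c_an.Alg

/-!
The Lagrangian vector field.
-/

set_option autoImplicit false

namespace Pool.Agent.Work.MP_49ac7c_an

open Set Metric Filter Topology MeasureTheory
open scoped NNReal ContDiff

/-- initial density profile `(1 - x²)²` and its derivative. -/
noncomputable def q0 : CI := (1 - Xc * Xc) * (1 - Xc * Xc)
noncomputable def q0p : CI := -(4 * Xc * (1 - Xc * Xc))

lemma Dx_Xc : Dx Xc 1 := Dx.Int0 1

lemma Dx_one : Dx 1 0 := by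
  have := Dx.const 1
  simpa using this

lemma Dx_q0 : Dx q0 q0p := by
  unfold q0 q0p
  have h1 : Dx (1 - Xc * Xc) (0 - (1 * Xc + Xc * 1)) := Dx_one.sub (Dx_Xc.mul Dx_Xc)
  refine (h1.mul h1).congr ?_
  ring

abbrev E : Type := ℝ × CI × CI × CI × CI

noncomputable section

def nu (u : E) : CI := u.2.1
def rh (u : E) : CI := u.2.2.1
def dd (u : E) : CI := u.2.2.2.1
def ww (u : E) : CI := u.2.2.2.2
def sg (u : E) : CI := algebraMap ℝ CI u.1 + Int0 (nu u)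
def ph (u : E) : CI := Int0 (sg u * sg u)
def mm (u : E) : CI := dd u * dd u * ww u * (sg u * sg u)
def ff (u : E) : CI := (1 - ph u * ph u) * mm u
def gg (u : E) : CI := ph u * mm u
def Av (u : E) : ℝ := (evL 1 (Int0 (ff u)) + evL (-1) (Int0 (ff u))) * (1 / 2)
def al (u : E) : CI := algebraMap ℝ CI (Av u) - Int0 (ff u)
def be (u : E) : CI := Int0 (gg u)
def Kk (u : E) : CI := al u - 2 * ph u * be u
def Hh (u : E) : CI := ph u * al u + (1 - ph u * ph u) * be u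
def kap (u : E) : CI := -((1 + ph u * ph u) * mm u + 2 * (sg u * sg u) * be u)
/-- the vector field. -/
def F (u : E) : E :=
  (Av u * u.1, kap u * sg u + Kk u * nu u, -(Kk u * rh u), -(4 * ph u * Hh u * (dd u * dd u)),
    -(rh u * (q0p + q0 * nu u * rh u)))

end

/-! ### Lipschitz on balls -/

lemma LB_nu : LB nu := LB.id.snd.fst
lemma LB_rh : LB rh := LB.id.snd.snd.fst
lemma LB_dd : LB dd := LB.id.snd.snd.snd.fst
lemma LB_ww : LB ww := LB.id.snd.snd.snd.snd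

lemma LB.cst {G : Type*} [NormedAddCommGroup G] {F : G → ℝ} (hF : LB F) :
    LB (fun u => algebraMap ℝ CI (F u)) := hF.clm (Algebra.linearMap ℝ CI).toContinuousLinearMap

lemma LB_sg : LB sg := (LB.id.fst.cst).add (LB_nu.clm Int0)
lemma LB_ph : LB ph := (LB_sg.mul LB_sg).clm Int0
lemma LB_mm : LB mm := ((LB_dd.mul LB_dd).mul LB_ww).mul (LB_sg.mul LB_sg)
lemma LB_ff : LB ff := ((LB.const 1).sub (LB_ph.mul LB_ph)).mul LB_mm
lemma LB_gg : LB gg := LB_ph.mul LB_mm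
lemma LB_Av : LB Av := (((LB_ff.clm Int0).clm (evL 1)).add ((LB_ff.clm Int0).clm (evL (-1)))).mul
  (LB.const _)
lemma LB_al : LB al := LB_Av.cst.sub (LB_ff.clm Int0)
lemma LB_be : LB be := LB_gg.clm Int0
lemma LB_Kk : LB Kk := LB_al.sub (((LB.const 2).mul LB_ph).mul LB_be)
lemma LB_Hh : LB Hh := (LB_ph.mul LB_al).add (((LB.const 1).sub (LB_ph.mul LB_ph)).mul LB_be)
lemma LB_kap : LB kap := ((((LB.const 1).add (LB_ph.mul LB_ph)).mul LB_mm).add
  (((LB.const 2).mul (LB_sg.mul LB_sg)).mul LB_be)).neg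
lemma LB_F : LB F := by
  unfold F
  refine LB.prodMk (LB_Av.mul LB.id.fst) (LB.prodMk ((LB_kap.mul LB_sg).add (LB_Kk.mul LB_nu))
    (LB.prodMk (LB_Kk.mul LB_rh).neg (LB.prodMk
      ((((LB.const 4).mul LB_ph).mul LB_Hh).mul (LB_dd.mul LB_dd)).neg
      (LB_rh.mul ((LB.const q0p).add (((LB.const q0).mul LB_nu).mul LB_rh))).neg)))

/-! ### smoothness -/

lemma CD_cst {G : Type*} [NormedAddCommGroup G] [NormedSpace ℝ G] {f : G → ℝ}
    (hf : ContDiff ℝ ∞ f) : ContDiff ℝ ∞ (fun u => algebraMap ℝ CI (f u)) :=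
  ((Algebra.linearMap ℝ CI).toContinuousLinearMap).contDiff.comp hf

lemma CD_nu : ContDiff ℝ ∞ nu := by unfold nu; fun_prop
lemma CD_rh : ContDiff ℝ ∞ rh := by unfold rh; fun_prop
lemma CD_dd : ContDiff ℝ ∞ dd := by unfold dd; fun_prop
lemma CD_ww : ContDiff ℝ ∞ ww := by unfold ww; fun_prop
lemma CD_sg : ContDiff ℝ ∞ sg := (CD_cst contDiff_fst).add (Int0.contDiff.comp CD_nu)
lemma CD_ph : ContDiff ℝ ∞ ph := Int0.contDiff.comp (CD_sg.mul CD_sg)
lemma CD_mm : ContDiff ℝ ∞ mm := ((CD_dd.mul CD_dd).mul CD_ww).mul (CD_sg.mul CD_sg)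
lemma CD_ff : ContDiff ℝ ∞ ff := (contDiff_const.sub (CD_ph.mul CD_ph)).mul CD_mm
lemma CD_gg : ContDiff ℝ ∞ gg := CD_ph.mul CD_mm
lemma CD_Av : ContDiff ℝ ∞ Av := (((evL 1).contDiff.comp (Int0.contDiff.comp CD_ff)).add
  ((evL (-1)).contDiff.comp (Int0.contDiff.comp CD_ff))).mul contDiff_const
lemma CD_al : ContDiff ℝ ∞ al := (CD_cst CD_Av).sub (Int0.contDiff.comp CD_ff)
lemma CD_be : ContDiff ℝ ∞ be := Int0.contDiff.comp CD_gg
lemma CD_Kk : ContDiff ℝ ∞ Kk := CD_al.sub ((contDiff_const.mul CD_ph).mul CD_be)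
lemma CD_Hh : ContDiff ℝ ∞ Hh :=
  (CD_ph.mul CD_al).add ((contDiff_const.sub (CD_ph.mul CD_ph)).mul CD_be)
lemma CD_kap : ContDiff ℝ ∞ kap := (((contDiff_const.add (CD_ph.mul CD_ph)).mul CD_mm).add
  ((contDiff_const.mul (CD_sg.mul CD_sg)).mul CD_be)).neg
lemma CD_F : ContDiff ℝ ∞ F := by
  unfold F
  exact (CD_Av.mul contDiff_fst).prodMk (((CD_kap.mul CD_sg).add (CD_Kk.mul CD_nu)).prodMk
    ((CD_Kk.mul CD_rh).neg.prodMk ((((contDiff_const.mul CD_ph).mul CD_Hh).mul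
      (CD_dd.mul CD_dd)).neg.prodMk
      ((CD_rh.mul (contDiff_const.add ((contDiff_const.mul CD_nu).mul CD_rh))).neg))))

/-! ### x-derivatives -/

lemma Dx_sg (u : E) : Dx (sg u) (nu u) := ((Dx.const _).add (Dx.Int0 _)).congr (by ring)
lemma Dx_ph (u : E) : Dx (ph u) (sg u * sg u) := Dx.Int0 _
lemma Dx_al (u : E) : Dx (al u) (-(ff u)) := ((Dx.const _).sub (Dx.Int0 _)).congr (by ring)
lemma Dx_be (u : E) : Dx (be u) (gg u) := Dx.Int0 _

lemma Dx_two : Dx 2 0 := by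
  have := Dx.const 2
  rwa [map_ofNat] at this

lemma Dx_Kk (u : E) : Dx (Kk u) (kap u) := by
  unfold Kk
  refine ((Dx_al u).sub ((Dx_two.mul (Dx_ph u)).mul (Dx_be u))).congr ?_
  unfold kap ff gg
  ring

lemma Dx_Hh (u : E) : Dx (Hh u) (Kk u * (sg u * sg u)) := by
  unfold Hh
  refine (((Dx_ph u).mul (Dx_al u)).add ((Dx_one.sub ((Dx_ph u).mul (Dx_ph u))).mul
    (Dx_be u))).congr ?_
  unfold Kk ff gg
  ring

@[simp] lemma ev_ph_zero (u : E) : ev (ph u) 0 = 0 := by unfold ph; simp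
@[simp] lemma ev_be_zero (u : E) : ev (be u) 0 = 0 := by unfold be; simp
@[simp] lemma ev_al_zero (u : E) : ev (al u) 0 = Av u := by unfold al; simp
@[simp] lemma ev_sg_zero (u : E) : ev (sg u) 0 = u.1 := by unfold sg; simp
@[simp] lemma ev_Kk_zero (u : E) : ev (Kk u) 0 = Av u := by unfold Kk; simp
@[simp] lemma ev_Hh_zero (u : E) : ev (Hh u) 0 = 0 := by unfold Hh; simp

lemma Kk_mul_sg (u : E) : Kk u * sg u
    = algebraMap ℝ CI (Av u * u.1) + Int0 (kap u * sg u + Kk u * nu u) := by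
  have h := ftc (((Dx_Kk u).mul (Dx_sg u)))
  rw [h]; simp

lemma Hh_eq (u : E) : Hh u = Int0 (Kk u * (sg u * sg u)) := by
  have h := ftc (Dx_Hh u)
  rw [h]; simp

end Pool.Agent.Work.MP_49ac7c_an
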