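import Pool.Agent.Work.MP_49ac7c_an.Euler

/-!
The final fields in the angular variable.
-/

set_option autoImplicit false

namespace Pool.Agent.Work.MP_49ac7c_an

open Set Metric Filter Topology MeasureTheory Asymptotics
open scoped NNReal ContDiff

/-- the angular interval. -/
abbrev Th : Set ℝ := Icc (-(Real.pi / 4)) (Real.pi / 4)

lemma cos_pos_Th {θ : ℝ} (h : θ ∈ Th) : 0 < Real.cos θ :=
  Real.cos_pos_of_mem_Ioo ⟨by linarith [h.1, Real.pi_pos], by linarith [h.2, Real.pi_pos]⟩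

lemma Th_sub : Th ⊆ Ioo (-(Real.pi / 2)) (Real.pi / 2) := fun θ h =>
  ⟨by linarith [h.1, Real.pi_pos], by linarith [h.2, Real.pi_pos]⟩

lemma pi4_mem : Real.pi / 4 ∈ Th := ⟨by linarith [Real.pi_pos], le_rfl⟩
lemma mpi4_mem : -(Real.pi / 4) ∈ Th := ⟨le_rfl, by linarith [Real.pi_pos]⟩

lemma tan_mpi4 : Real.tan (-(Real.pi / 4)) = -1 := by rw [Real.tan_neg, Real.tan_pi_div_four]

lemma tan_mem {θ : ℝ} (h : θ ∈ Th) : Real.tan θ ∈ I := by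
  constructor
  · rw [← tan_mpi4]
    exact Real.strictMonoOn_tan.monotoneOn (Th_sub mpi4_mem) (Th_sub h) h.1
  · rw [← Real.tan_pi_div_four]
    exact Real.strictMonoOn_tan.monotoneOn (Th_sub h) (Th_sub pi4_mem) h.2

lemma tan_smooth : ContDiffOn ℝ ∞ Real.tan Th := fun _ h =>
  (Real.contDiffAt_tan.2 (cos_pos_Th h).ne').contDiffWithinAt

variable {T : ℝ} {u : ℝ → E}

noncomputable def om (u : ℝ → E) (θ t : ℝ) : ℝ := -(Eu (u t) (ww (u t)) (Real.tan θ))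
noncomputable def Rr (u : ℝ → E) (θ t : ℝ) : ℝ :=
  -(Real.cos θ * Eu (u t) (q0 * sg (u t)) (Real.tan θ))
noncomputable def Ps (u : ℝ → E) (θ t : ℝ) : ℝ :=
  Real.cos θ ^ 2 * Eu (u t) (Hh (u t)) (Real.tan θ)

lemma smooth_aux {t₁ : ℝ} (ht1 : 0 < t₁) (h : Sol F u t₁) (h0 : u 0 = uz) {f : ℝ → CI}
    (hf : DI t₁ f) :
    ContDiffOn ℝ ∞ (fun p : ℝ × ℝ => Eu (u p.2) (f p.2) (Real.tan p.1)) (Th ×ˢ Icc 0 t₁) := by
  have h1 := Ge_smooth ht1 h h0 hf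
  have h2 : ContDiffOn ℝ ∞ (fun p : ℝ × ℝ => ((Real.tan p.1, p.2) : ℝ × ℝ)) (Th ×ˢ Icc 0 t₁) :=
    (tan_smooth.comp contDiffOn_fst fun p hp => hp.1).prodMk contDiffOn_snd
  exact h1.comp h2 fun p hp => ⟨tan_mem hp.1, hp.2⟩

/-- localisation in time. -/
lemma loc_smooth {g : ℝ × ℝ → ℝ}
    (h : ∀ t₁, 0 < t₁ → t₁ < T → ContDiffOn ℝ ∞ g (Th ×ˢ Icc 0 t₁)) :
    ContDiffOn ℝ ∞ g (Th ×ˢ Ico 0 T) := by
  intro p hp
  have hp2 := hp.2
  obtain ⟨t₁, h1, h2⟩ := exists_between hp2.2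
  have h3 := h t₁ (lt_of_le_of_lt hp2.1 h1) h2 p ⟨hp.1, hp2.1, h1.le⟩
  refine h3.mono_of_mem_nhdsWithin ?_
  have h4 : {q : ℝ × ℝ | q.2 < t₁} ∈ 𝓝 p := (isOpen_lt continuous_snd continuous_const).mem_nhds h1
  filter_upwards [self_mem_nhdsWithin, mem_nhdsWithin_of_mem_nhds h4] with q hq hq'
  exact ⟨hq.1, hq.2.1, le_of_lt hq'⟩

lemma om_smooth (h : ∀ t₁ < T, Sol F u t₁) (h0 : u 0 = uz) :
    ContDiffOn ℝ ∞ (fun p : ℝ × ℝ => om u p.1 p.2) (Th ×ˢ Ico 0 T) :=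
  loc_smooth fun t₁ h1 h2 => (smooth_aux h1 (h t₁ h2) h0 (DI_ww h1.le (h t₁ h2) h0)).neg

lemma cos_smooth {s : Set (ℝ × ℝ)} : ContDiffOn ℝ ∞ (fun p : ℝ × ℝ => Real.cos p.1) s :=
  (Real.contDiff_cos.comp contDiff_fst).contDiffOn

lemma Rr_smooth (h : ∀ t₁ < T, Sol F u t₁) (h0 : u 0 = uz) :
    ContDiffOn ℝ ∞ (fun p : ℝ × ℝ => Rr u p.1 p.2) (Th ×ˢ Ico 0 T) :=
  loc_smooth fun t₁ h1 h2 =>
    (cos_smooth.mul (smooth_aux h1 (h t₁ h2) h0 (DI_q h1.le (h t₁ h2) h0))).neg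

lemma Ps_smooth (h : ∀ t₁ < T, Sol F u t₁) (h0 : u 0 = uz) :
    ContDiffOn ℝ ∞ (fun p : ℝ × ℝ => Ps u p.1 p.2) (Th ×ˢ Ico 0 T) :=
  loc_smooth fun t₁ h1 h2 =>
    (cos_smooth.pow 2).mul (smooth_aux h1 (h t₁ h2) h0 (DI_Hh h1.le (h t₁ h2) h0))

lemma Ps_slice (h : ∀ t₁ < T, Sol F u t₁) (h0 : u 0 = uz) {t : ℝ} (ht : t ∈ Ico 0 T) :
    ContDiffOn ℝ 2 (fun θ => Ps u θ t) Th := by
  have h1 := Ps_smooth h h0
  have h2 : ContDiffOn ℝ ∞ (fun θ : ℝ => ((θ, t) : ℝ × ℝ)) Th :=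
    contDiffOn_id.prodMk contDiffOn_const
  have h3 := h1.comp h2 fun θ hθ => ⟨hθ, ht⟩
  exact h3.of_le (WithTop.coe_le_coe.2 (le_top : (2 : ℕ∞) ≤ ⊤))

/-- a good time. -/
lemma good_at (h : ∀ t₁ < T, Sol F u t₁) (h0 : u 0 = uz) {t : ℝ} (ht : t ∈ Ico 0 T) :
    Good (u t) := good_of_sol (h t ht.2) h0 t ⟨ht.1, le_rfl⟩

lemma Eu_odd {v : E} (hG : Good v) {f : CI} (hf : Rf f = -f) {y : ℝ} (hy : y ∈ I) :
    Eu v f (-y) = -(Eu v f y) := by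
  unfold Eu
  rw [hG.Xi_neg hy, ← ev_Rf _ (hG.Xi_mem hy), hf, ev_neg]

lemma Rf_Hh {v : E} (hG : Good v) : Rf (Hh v) = -(Hh v) := by
  have := Hh_Tr v
  rw [hG.tr] at this
  rw [this, neg_neg, ← this]

lemma Ps_odd {t : ℝ} (hG : Good (u t)) {θ : ℝ} (hθ : θ ∈ Th) : Ps u (-θ) t = -(Ps u θ t) := by
  unfold Ps
  rw [Real.cos_neg, Real.tan_neg, Eu_odd hG (Rf_Hh hG) (tan_mem hθ)]; ring

lemma Hh_one {v : E} (hG : Good v) : ev (Hh v) 1 = 0 := by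
  unfold Hh al
  simp only [ev_add, ev_mul, ev_sub, ev_one, ev_algebraMap, hG.ph1, hG.Av_eq]
  ring

lemma Ps_pi4 {t : ℝ} (hG : Good (u t)) : Ps u (Real.pi / 4) t = 0 := by
  unfold Ps Eu
  rw [Real.tan_pi_div_four, hG.Xi_one, Hh_one hG, mul_zero]

lemma Ps_mpi4 {t : ℝ} (hG : Good (u t)) : Ps u (-(Real.pi / 4)) t = 0 := by
  rw [Ps_odd hG pi4_mem, Ps_pi4 hG, neg_zero]

lemma Ps_int {t : ℝ} (hG : Good (u t)) :
    (∫ θ in (-(Real.pi / 4))..(Real.pi / 4), Ps u θ t * Real.cos (2 * θ)) = 0 := by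
  have h1 := intervalIntegral.integral_comp_neg (a := -(Real.pi / 4)) (b := Real.pi / 4)
    (fun θ => Ps u θ t * Real.cos (2 * θ))
  rw [neg_neg] at h1
  have h2 : (∫ θ in (-(Real.pi / 4))..(Real.pi / 4), Ps u (-θ) t * Real.cos (2 * -θ)) =
      ∫ θ in (-(Real.pi / 4))..(Real.pi / 4), -(Ps u θ t * Real.cos (2 * θ)) := by
    refine intervalIntegral.integral_congr fun θ hθ => ?_
    rw [uIcc_of_le (by linarith [Real.pi_pos])] at hθ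
    rw [Ps_odd hG hθ, mul_neg, Real.cos_neg]; ring
  rw [h2, intervalIntegral.integral_neg] at h1
  linarith

/-! ### angular derivatives -/

lemma tan_Ioo {θ : ℝ} (h : θ ∈ Ioo (-(Real.pi / 4)) (Real.pi / 4)) : Real.tan θ ∈ Ioo (-1 : ℝ) 1 := by
  have hθ : θ ∈ Th := ⟨h.1.le, h.2.le⟩
  constructor
  · rw [← tan_mpi4]
    exact Real.strictMonoOn_tan (Th_sub mpi4_mem) (Th_sub hθ) h.1
  · rw [← Real.tan_pi_div_four]
    exact Real.strictMonoOn_tan (Th_sub hθ) (Th_sub pi4_mem) h.2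

lemma hasD_tan (h : ∀ t₁ < T, Sol F u t₁) (h0 : u 0 = uz) {t : ℝ} (ht : t ∈ Ico 0 T) {θ : ℝ}
    (hθ : θ ∈ Th) {f fx : CI} (hx : Dx f fx) :
    HasDerivWithinAt (fun φ => Eu (u t) f (Real.tan φ))
      (Eu (u t) (fx * (rh (u t) * rh (u t))) (Real.tan θ) * (1 / Real.cos θ ^ 2)) Th θ := by
  have h1 := hasD_Eu (h t ht.2) h0 (tan_mem hθ) ⟨ht.1, le_rfl⟩ hx
  have h2 := (Real.hasDerivAt_tan (cos_pos_Th hθ).ne').hasDerivWithinAt (s := Th)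
  exact HasDerivWithinAt.comp (h₂ := Eu (u t) f) (h := Real.tan) θ h1 h2 fun φ hφ => tan_mem hφ

lemma hasD_Rr (h : ∀ t₁ < T, Sol F u t₁) (h0 : u 0 = uz) {t : ℝ} (ht : t ∈ Ico 0 T) {θ : ℝ}
    (hθ : θ ∈ Th) :
    HasDerivWithinAt (fun φ => Rr u φ t)
      (Real.sin θ * Eu (u t) (q0 * sg (u t)) (Real.tan θ) +
        Eu (u t) (rh (u t) * Pp (u t)) (Real.tan θ) / Real.cos θ) Th θ := by
  have hG := good_at h h0 ht
  have h1 := hasD_tan h h0 ht hθ hG.Dx_q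
  have h2 := ((Real.hasDerivAt_cos θ).hasDerivWithinAt (s := Th)).mul h1
  refine h2.neg.congr_deriv ?_
  have hc := (cos_pos_Th hθ).ne'
  have e : -(Pp (u t) * sg (u t)) * (rh (u t) * rh (u t)) = -(rh (u t) * Pp (u t)) := by
    calc _ = -(rh (u t) * Pp (u t)) * (rh (u t) * sg (u t)) := by ring
      _ = _ := by rw [hG.rs, mul_one]
  rw [e]
  simp only [Eu, ev_neg]
  field_simp
  ring

lemma hasD_om (h : ∀ t₁ < T, Sol F u t₁) (h0 : u 0 = uz) {t : ℝ} (ht : t ∈ Ico 0 T) {θ : ℝ}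
    (hθ : θ ∈ Th) {wx : CI} (hx : Dx (ww (u t)) wx) :
    HasDerivWithinAt (fun φ => om u φ t)
      (-(Eu (u t) (wx * (rh (u t) * rh (u t))) (Real.tan θ) * (1 / Real.cos θ ^ 2))) Th θ :=
  (hasD_tan h h0 ht hθ hx).neg

lemma hasD_Ps (h : ∀ t₁ < T, Sol F u t₁) (h0 : u 0 = uz) {t : ℝ} (ht : t ∈ Ico 0 T) {θ : ℝ}
    (hθ : θ ∈ Th) :
    HasDerivWithinAt (fun φ => Ps u φ t)
      (-(2 * Real.sin θ * Real.cos θ * Eu (u t) (Hh (u t)) (Real.tan θ)) +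
        Eu (u t) (Kk (u t)) (Real.tan θ)) Th θ := by
  have hG := good_at h h0 ht
  have h1 := hasD_tan h h0 ht hθ (Dx_Hh (u t))
  have h2 := (((Real.hasDerivAt_cos θ).hasDerivWithinAt (s := Th)).pow 2).mul h1
  refine h2.congr_deriv ?_
  have hc := (cos_pos_Th hθ).ne'
  have e : Kk (u t) * (sg (u t) * sg (u t)) * (rh (u t) * rh (u t)) = Kk (u t) := by
    calc _ = Kk (u t) * ((rh (u t) * sg (u t)) * (rh (u t) * sg (u t))) := by ring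
      _ = _ := by rw [hG.rs, mul_one, mul_one]
  rw [e]
  simp only [Eu, Pi.pow_apply]
  field_simp
  ring

lemma hasD_Ps2 (h : ∀ t₁ < T, Sol F u t₁) (h0 : u 0 = uz) {t : ℝ} (ht : t ∈ Ico 0 T) {θ : ℝ}
    (hθ : θ ∈ Th) :
    HasDerivWithinAt (fun φ => -(2 * Real.sin φ * Real.cos φ * Eu (u t) (Hh (u t)) (Real.tan φ)) +
        Eu (u t) (Kk (u t)) (Real.tan φ))
      (om u θ t - 4 * Ps u θ t) Th θ := by
  have hG := good_at h h0 ht
  have h1 := hasD_tan h h0 ht hθ (Dx_Hh (u t))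
  have h1' := hasD_tan h h0 ht hθ (Dx_Kk (u t))
  have h2 := (((((Real.hasDerivAt_sin θ).hasDerivWithinAt (s := Th)).const_mul 2).mul
    ((Real.hasDerivAt_cos θ).hasDerivWithinAt (s := Th))).mul h1).neg.add h1'
  refine h2.congr_deriv ?_
  have hc := (cos_pos_Th hθ).ne'
  have e : Kk (u t) * (sg (u t) * sg (u t)) * (rh (u t) * rh (u t)) = Kk (u t) := by
    calc _ = Kk (u t) * ((rh (u t) * sg (u t)) * (rh (u t) * sg (u t))) := by ring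
      _ = _ := by rw [hG.rs, mul_one, mul_one]
  rw [e]
  have hy := hG.ph_Xi (tan_mem hθ)
  have hdd := hG.dd_eq (x := Xi (u t) (Real.tan θ))
  have hrs := hG.rh_eq (x := Xi (u t) (Real.tan θ))
  have hcs := Real.sin_sq_add_cos_sq θ
  have htan : Real.sin θ = Real.tan θ * Real.cos θ := by
    rw [Real.tan_eq_sin_div_cos]; field_simp
  unfold om Ps Eu kap Kk Hh mm
  simp only [Pi.mul_apply, ev_add, ev_mul, ev_neg, ev_sub, ev_one, Good.ev_two]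
  rw [hy] at hdd ⊢
  rw [htan] at hcs ⊢
  generalize Real.tan θ = y at *
  generalize Real.cos θ = c at *
  generalize Xi (u t) y = x at *
  generalize ev (dd (u t)) x = D at *
  generalize ev (sg (u t)) x = s at *
  generalize ev (rh (u t)) x = r at *
  generalize ev (ww (u t)) x = w at *
  generalize ev (al (u t)) x = a at *
  generalize ev (be (u t)) x = b at *
  have hc2 : 1 / c ^ 2 = 1 + y * y := by
    field_simp
    linarith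
  have hY : 1 + y * y ≠ 0 := by rw [← hc2]; positivity
  have hD : D = c ^ 2 := by
    have : D * (1 + y * y) = c ^ 2 * (1 + y * y) := by rw [hdd]; linarith
    exact mul_right_cancel₀ hY this
  rw [hc2, hD]
  linear_combination (2 * (1 + y * y) * b - w * (2 + ((y * c) ^ 2 + c ^ 2 - 1))) * hcs -
    (2 * b * (1 + y * y) + w * ((1 + y * y) * c ^ 2) ^ 2) * (r * s + 1) * hrs

end Pool.Agent.Work.MP_49ac7c_an
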