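import Pool.Agent.Work.MP_49ac7c_an.Final

/-!
The two equations, boundary values and blow-up.
-/

set_option autoImplicit false

namespace Pool.Agent.Work.MP_49ac7c_an

open Set Metric Filter Topology MeasureTheory Asymptotics
open scoped NNReal ContDiff

variable {T : ℝ} {u : ℝ → E}

abbrev Tho : Set ℝ := Ioo (-(Real.pi / 4)) (Real.pi / 4)

lemma Tho_sub {θ : ℝ} (h : θ ∈ Tho) : θ ∈ Th := ⟨h.1.le, h.2.le⟩

lemma Th_nhds {θ : ℝ} (h : θ ∈ Tho) : Th ∈ 𝓝 θ := Icc_mem_nhds h.1 h.2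

lemma ell (h : ∀ t₁ < T, Sol F u t₁) (h0 : u 0 = uz) {t : ℝ} (ht : t ∈ Ico 0 T) {θ : ℝ}
    (hθ : θ ∈ Tho) : deriv (deriv (fun φ => Ps u φ t)) θ + 4 * Ps u θ t = om u θ t := by
  have e : deriv (fun φ => Ps u φ t) =ᶠ[𝓝 θ]
      (fun φ => -(2 * Real.sin φ * Real.cos φ * Eu (u t) (Hh (u t)) (Real.tan φ)) +
        Eu (u t) (Kk (u t)) (Real.tan φ)) := by
    filter_upwards [isOpen_Ioo.mem_nhds hθ] with φ hφ
    exact ((hasD_Ps h h0 ht (Tho_sub hφ)).hasDerivAt (Th_nhds hφ)).deriv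
  rw [e.deriv_eq, ((hasD_Ps2 h h0 ht (Tho_sub hθ)).hasDerivAt (Th_nhds hθ)).deriv]
  ring

lemma time_at (h : ∀ t₁ < T, Sol F u t₁) (h0 : u 0 = uz) {t : ℝ} (ht : t ∈ Ioo 0 T) {y : ℝ}
    (hy : y ∈ I) {f : ℝ → CI} {fx ft : CI} (hx : Dx (f t) fx)
    (hf : ∀ t₁, t < t₁ → t₁ < T → HasDerivWithinAt f ft (Icc 0 t₁) t) :
    HasDerivAt (fun s => Eu (u s) (f s) y)
      (Eu (u t) ft y - 2 * Eu (u t) (Hh (u t)) y * Eu (u t) (fx * (rh (u t) * rh (u t))) y) t := by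
  obtain ⟨t₁, h1, h2⟩ := exists_between ht.2
  exact (hasD_Ge_t (h t₁ h2) h0 hy ⟨ht.1.le, h1.le⟩ hx (hf t₁ h1 h2)).hasDerivAt
    (Icc_mem_nhds ht.1 h1)

lemma sol_at (h : ∀ t₁ < T, Sol F u t₁) {t : ℝ} (ht : t ∈ Ioo 0 T) {t₁ : ℝ} (h1 : t < t₁)
    (h2 : t₁ < T) : HasDerivWithinAt u (F (u t)) (Icc 0 t₁) t := h t₁ h2 t ⟨ht.1.le, h1.le⟩

lemma hasD_om_t (h : ∀ t₁ < T, Sol F u t₁) (h0 : u 0 = uz) {t : ℝ} (ht : t ∈ Ioo 0 T) {θ : ℝ}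
    (hθ : θ ∈ Tho) {wx : CI} (hx : Dx (ww (u t)) wx) :
    HasDerivAt (fun s => om u θ s)
      (-(Eu (u t) (rh (u t) * Pp (u t)) (Real.tan θ) - 2 * Eu (u t) (Hh (u t)) (Real.tan θ) *
        Eu (u t) (wx * (rh (u t) * rh (u t))) (Real.tan θ))) t := by
  refine (time_at h h0 ht (tan_mem (Tho_sub hθ)) (f := fun s => ww (u s)) hx fun t₁ h1 h2 => ?_).neg
  exact hd_ww' (sol_at h ht h1 h2)

lemma hasD_Rr_t (h : ∀ t₁ < T, Sol F u t₁) (h0 : u 0 = uz) {t : ℝ} (ht : t ∈ Ioo 0 T) {θ : ℝ}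
    (hθ : θ ∈ Tho) :
    HasDerivAt (fun s => Rr u θ s)
      (-(Real.cos θ * (Eu (u t) (Kk (u t)) (Real.tan θ) * Eu (u t) (q0 * sg (u t)) (Real.tan θ) +
        2 * Eu (u t) (Hh (u t)) (Real.tan θ) * Eu (u t) (rh (u t) * Pp (u t)) (Real.tan θ)))) t := by
  have hG := good_at h h0 ⟨ht.1.le, ht.2⟩
  have h1 := time_at h h0 ht (tan_mem (Tho_sub hθ)) (f := fun s => q0 * sg (u s))
    (ft := q0 * (Kk (u t) * sg (u t))) hG.Dx_q fun t₁ h1 h2 => by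
      have := (hasDerivWithinAt_const (x := t) (s := Icc 0 t₁) (c := q0)).mul
        (hd_sg (sol_at h ht h1 h2))
      refine this.congr_deriv ?_
      rw [zero_mul, zero_add]
  refine (h1.const_mul (Real.cos θ)).neg.congr_deriv ?_
  have e : -(Pp (u t) * sg (u t)) * (rh (u t) * rh (u t)) = -(rh (u t) * Pp (u t)) := by
    calc _ = -(rh (u t) * Pp (u t)) * (rh (u t) * sg (u t)) := by ring
      _ = _ := by rw [hG.rs, mul_one]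
  rw [e]
  simp only [Eu, ev_neg, ev_mul]
  ring

lemma pde_om (h : ∀ t₁ < T, Sol F u t₁) (h0 : u 0 = uz) {t : ℝ} (ht : t ∈ Ioo 0 T) {θ : ℝ}
    (hθ : θ ∈ Tho) :
    deriv (fun s => om u θ s) t + 2 * Ps u θ t * deriv (fun φ => om u φ t) θ
            + (Rr u θ t * Real.sin θ + deriv (fun φ => Rr u φ t) θ * Real.cos θ) = 0 := by
  obtain ⟨t₁, h1, h2⟩ := exists_between ht.2
  have ht1 : 0 < t₁ := ht.1.trans h1
  obtain ⟨g, -, hg⟩ := (DI_ww ht1.le (h t₁ h2) h0).exists_dx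
  have hx : Dx (ww (u t)) (g t) := hg t ⟨ht.1.le, h1.le⟩
  have ht' : t ∈ Ico 0 T := ⟨ht.1.le, ht.2⟩
  rw [(hasD_om_t h h0 ht hθ hx).deriv,
    ((hasD_om h h0 ht' (Tho_sub hθ) hx).hasDerivAt (Th_nhds hθ)).deriv,
    ((hasD_Rr h h0 ht' (Tho_sub hθ)).hasDerivAt (Th_nhds hθ)).deriv]
  have hc := (cos_pos_Th (Tho_sub hθ)).ne'
  unfold Ps Rr
  field_simp
  ring

lemma pde_R (h : ∀ t₁ < T, Sol F u t₁) (h0 : u 0 = uz) {t : ℝ} (ht : t ∈ Ioo 0 T) {θ : ℝ}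
    (hθ : θ ∈ Tho) :
    deriv (fun s => Rr u θ s) t + 2 * Ps u θ t * deriv (fun φ => Rr u φ t) θ
            - deriv (fun φ => Ps u φ t) θ * Rr u θ t = 0 := by
  have ht' : t ∈ Ico 0 T := ⟨ht.1.le, ht.2⟩
  rw [(hasD_Rr_t h h0 ht hθ).deriv,
    ((hasD_Ps h h0 ht' (Tho_sub hθ)).hasDerivAt (Th_nhds hθ)).deriv,
    ((hasD_Rr h h0 ht' (Tho_sub hθ)).hasDerivAt (Th_nhds hθ)).deriv]
  have hc := (cos_pos_Th (Tho_sub hθ)).ne'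
  unfold Ps Rr
  field_simp
  ring

/-! ### boundary values -/

lemma q0_pm {x : ℝ} (hx : x ∈ I) (h1 : x * x = 1) : ev q0 x = 0 := by
  rw [Good.q0_ev hx, h1]; ring

lemma q0p_pm {x : ℝ} (hx : x ∈ I) (h1 : x * x = 1) : ev q0p x = 0 := by
  rw [Good.q0p_ev hx, h1]; ring

lemma ww_pm (h : ∀ t₁ < T, Sol F u t₁) (h0 : u 0 = uz) {t : ℝ} (ht : t ∈ Ico 0 T) {x : ℝ}
    (hx : x ∈ I) (h1 : x * x = 1) : ev (ww (u t)) x = 0 := by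
  have h2 := h t ht.2
  refine eq_zero_of_deriv_bound (f := fun s => ev (ww (u s)) x) (K := 0) (b := t)
    (fun s hs => HasDerivWithinAt.ev (hd_ww (h2 s hs)) x) ?_ ?_ t ⟨ht.1, le_rfl⟩
  · simp only [h0]; rfl
  · intro s hs
    simp only [ev_neg, ev_mul, ev_add, q0_pm hx h1, q0p_pm hx h1]
    simp

lemma om_pi4 (h : ∀ t₁ < T, Sol F u t₁) (h0 : u 0 = uz) {t : ℝ} (ht : t ∈ Ico 0 T) :
    om u (Real.pi / 4) t = 0 := by
  unfold om Eu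
  rw [Real.tan_pi_div_four, (good_at h h0 ht).Xi_one, ww_pm h h0 ht one_mem_I (by norm_num),
    neg_zero]

lemma om_mpi4 (h : ∀ t₁ < T, Sol F u t₁) (h0 : u 0 = uz) {t : ℝ} (ht : t ∈ Ico 0 T) :
    om u (-(Real.pi / 4)) t = 0 := by
  unfold om Eu
  rw [tan_mpi4, (good_at h h0 ht).Xi_m1, ww_pm h h0 ht neg_one_mem_I (by norm_num), neg_zero]

lemma Rr_pi4 {t : ℝ} (hG : Good (u t)) : Rr u (Real.pi / 4) t = 0 := by
  unfold Rr Eu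
  rw [Real.tan_pi_div_four, hG.Xi_one, ev_mul, q0_pm one_mem_I (by norm_num)]; ring

lemma Rr_mpi4 {t : ℝ} (hG : Good (u t)) : Rr u (-(Real.pi / 4)) t = 0 := by
  unfold Rr Eu
  rw [tan_mpi4, hG.Xi_m1, ev_mul, q0_pm neg_one_mem_I (by norm_num)]; ring

lemma Pp_pm (v : E) {x : ℝ} (hx : x ∈ I) (h1 : x * x = 1) : ev (Pp v) x = 0 := by
  unfold Pp
  simp only [ev_neg, ev_mul, ev_add, q0_pm hx h1, q0p_pm hx h1]
  simp

lemma uniq_Th {θ : ℝ} (h : θ ∈ Th) : UniqueDiffWithinAt ℝ Th θ :=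
  uniqueDiffOn_Icc (by linarith [Real.pi_pos]) θ h

lemma dRr_pi4 (h : ∀ t₁ < T, Sol F u t₁) (h0 : u 0 = uz) {t : ℝ} (ht : t ∈ Ico 0 T) :
    derivWithin (fun φ => Rr u φ t) Th (Real.pi / 4) = 0 := by
  have hG := good_at h h0 ht
  rw [(hasD_Rr h h0 ht pi4_mem).derivWithin (uniq_Th pi4_mem)]
  unfold Eu
  rw [Real.tan_pi_div_four, hG.Xi_one, ev_mul, ev_mul, q0_pm one_mem_I (by norm_num),
    Pp_pm _ one_mem_I (by norm_num)]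
  ring

lemma dRr_mpi4 (h : ∀ t₁ < T, Sol F u t₁) (h0 : u 0 = uz) {t : ℝ} (ht : t ∈ Ico 0 T) :
    derivWithin (fun φ => Rr u φ t) Th (-(Real.pi / 4)) = 0 := by
  have hG := good_at h h0 ht
  rw [(hasD_Rr h h0 ht mpi4_mem).derivWithin (uniq_Th mpi4_mem)]
  unfold Eu
  rw [tan_mpi4, hG.Xi_m1, ev_mul, ev_mul, q0_pm neg_one_mem_I (by norm_num),
    Pp_pm _ neg_one_mem_I (by norm_num)]
  ring

lemma Rr_zero (h : ∀ t₁ < T, Sol F u t₁) (h0 : u 0 = uz) {t : ℝ} (ht : t ∈ Ico 0 T) :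
    Rr u 0 t = -(u t).1 := by
  have hG := good_at h h0 ht
  unfold Rr Eu
  rw [Real.tan_zero, hG.Xi_zero, ev_mul, Good.q0_zero, ev_sg_zero, Real.cos_zero]; ring

end Pool.Agent.Work.MP_49ac7c_an
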