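import Pool.Agent.Work.MP_49ac7c_an.Reg

/-!
Joint differentiability in `(x,t)` and the label map.
-/

set_option autoImplicit false

namespace Pool.Agent.Work.MP_49ac7c_an

open Set Metric Filter Topology MeasureTheory Asymptotics
open scoped NNReal ContDiff

variable {t₁ : ℝ}

/-- smooth in `t` and `x`. -/
def DI (t₁ : ℝ) (f : ℝ → CI) : Prop := ∀ k, Dk t₁ k f

lemma DI.mul {f g : ℝ → CI} (hf : DI t₁ f) (hg : DI t₁ g) : DI t₁ (fun t => f t * g t) :=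
  fun k => (hf k).mul (hg k)

lemma DI.add {f g : ℝ → CI} (hf : DI t₁ f) (hg : DI t₁ g) : DI t₁ (fun t => f t + g t) :=
  fun k => (hf k).add (hg k)

lemma DI.sub {f g : ℝ → CI} (hf : DI t₁ f) (hg : DI t₁ g) : DI t₁ (fun t => f t - g t) :=
  fun k => (hf k).sub (hg k)

lemma Dx.unique {f g g' : CI} (h : Dx f g) (h' : Dx f g') : g = g' :=
  ev_ext fun x hx => (uniqueDiffOn_Icc (by norm_num : (-1:ℝ) < 1) x hx).eq_deriv _ (h x hx) (h' x hx)

lemma DI.exists_dx {f : ℝ → CI} (hf : DI t₁ f) :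
    ∃ g, DI t₁ g ∧ ∀ t ∈ Icc 0 t₁, Dx (f t) (g t) := by
  have key : ∀ k, ∃ g : ℝ → CI, Dk t₁ k g ∧ ∀ t ∈ Icc 0 t₁, Dx (f t) (g t) := by
    intro k
    obtain ⟨c, g, _, hg, e⟩ := hf (k + 1)
    refine ⟨g, hg, fun t ht => ?_⟩
    rw [e t ht]
    exact ((Dx.const _).add (Dx.Int0 _)).congr (zero_add _)
  choose g hg hd using key
  exact ⟨g 0, fun k => (hg k).congr fun t ht => (hd 0 t ht).unique (hd k t ht), hd 0⟩

lemma Dk.derivWithin (ht1 : 0 < t₁) {k : ℕ} {f : ℝ → CI} (hf : Dk t₁ k f) :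
    Dk t₁ k (derivWithin f (Icc 0 t₁)) := by
  induction k generalizing f with
  | zero => exact ((contDiffOn_infty_iff_derivWithin (uniqueDiffOn_Icc ht1)).1 hf).2
  | succ k ih =>
    obtain ⟨c, g, hc, hg, e⟩ := hf
    have hc' := (contDiffOn_infty_iff_derivWithin (uniqueDiffOn_Icc ht1)).1 hc
    have hg' := (contDiffOn_infty_iff_derivWithin (uniqueDiffOn_Icc ht1)).1 hg.cdo
    refine ⟨_, _, hc'.2, ih hg, fun t ht => ?_⟩
    have h1 := HasDerivWithinAt.cst (hc'.1 t ht).hasDerivWithinAt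
    have h2 := HasDerivWithinAt.clm (hg'.1 t ht).hasDerivWithinAt Int0
    have h3 := (h1.add h2).congr (f₁ := f) (fun s hs => e s hs) (e t ht)
    exact h3.derivWithin (uniqueDiffOn_Icc ht1 t ht)

lemma DI.exists_dt (ht1 : 0 < t₁) {f : ℝ → CI} (hf : DI t₁ f) :
    ∃ g, DI t₁ g ∧ ∀ t ∈ Icc 0 t₁, HasDerivWithinAt f (g t) (Icc 0 t₁) t :=
  ⟨_, fun k => (hf k).derivWithin ht1, fun t ht =>
    (((contDiffOn_infty_iff_derivWithin (uniqueDiffOn_Icc ht1)).1 (hf 0).cdo).1 t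
      ht).hasDerivWithinAt⟩

/-- the rectangle. -/
abbrev Bx (t₁ : ℝ) : Set (ℝ × ℝ) := I ×ˢ Icc 0 t₁

/-- the covector `a dx + b dt`. -/
noncomputable def cov (a b : ℝ) : ℝ × ℝ →L[ℝ] ℝ :=
  a • ContinuousLinearMap.fst ℝ ℝ ℝ + b • ContinuousLinearMap.snd ℝ ℝ ℝ

@[simp] lemma cov_apply (a b : ℝ) (p : ℝ × ℝ) : cov a b p = a * p.1 + b * p.2 := rfl

lemma hasF_joint {f : ℝ → CI} {g h : CI} {x t : ℝ} (hx : x ∈ I)
    (hg : Dx (f t) g) (hh : HasDerivWithinAt f h (Icc 0 t₁) t) :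
    HasFDerivWithinAt (fun p : ℝ × ℝ => ev (f p.2) p.1) (cov (ev g x) (ev h x))
      (Bx t₁) (x, t) := by
  rw [hasFDerivWithinAt_iff_isLittleO]
  have hfst : Tendsto (Prod.fst : ℝ × ℝ → ℝ) (𝓝[Bx t₁] (x, t)) (𝓝[I] x) :=
    (continuous_fst.tendsto (x, t)).inf (tendsto_principal_principal.2 fun p hp => hp.1)
  have hsnd : Tendsto (Prod.snd : ℝ × ℝ → ℝ) (𝓝[Bx t₁] (x, t)) (𝓝[Icc 0 t₁] t) :=
    (continuous_snd.tendsto (x, t)).inf (tendsto_principal_principal.2 fun p hp => hp.2)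
  have o1 : (fun p : ℝ × ℝ => p.1 - x) =O[𝓝[Bx t₁] (x, t)] (fun p : ℝ × ℝ => p - (x, t)) :=
    isBigO_of_le _ fun p => by rw [Prod.norm_def]; exact le_max_left _ _
  have o2 : (fun p : ℝ × ℝ => p.2 - t) =O[𝓝[Bx t₁] (x, t)] (fun p : ℝ × ℝ => p - (x, t)) :=
    isBigO_of_le _ fun p => by rw [Prod.norm_def]; exact le_max_right _ _
  -- time increment
  have A : (fun p : ℝ × ℝ => f p.2 - f t - (p.2 - t) • h) =o[𝓝[Bx t₁] (x, t)]
      (fun p : ℝ × ℝ => p - (x, t)) :=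
    ((hasDerivWithinAt_iff_isLittleO.1 hh).comp_tendsto hsnd).trans_isBigO o2
  have A' : (fun p : ℝ × ℝ => ev (f p.2) p.1 - ev (f t) p.1 - (p.2 - t) * ev h p.1)
      =o[𝓝[Bx t₁] (x, t)] (fun p : ℝ × ℝ => p - (x, t)) := by
    refine (IsBigO.of_bound 1 (Eventually.of_forall fun p => ?_)).trans_isLittleO A
    rw [one_mul]
    exact abs_ev_le (f p.2 - f t - (p.2 - t) • h) p.1
  -- space increment
  have B : (fun p : ℝ × ℝ => ev (f t) p.1 - ev (f t) x - (p.1 - x) * ev g x)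
      =o[𝓝[Bx t₁] (x, t)] (fun p : ℝ × ℝ => p - (x, t)) := by
    have := (hasDerivWithinAt_iff_isLittleO.1 (hg x hx)).comp_tendsto hfst
    exact this.trans_isBigO o1
  -- mixed
  have C : (fun p : ℝ × ℝ => (p.2 - t) * (ev h p.1 - ev h x))
      =o[𝓝[Bx t₁] (x, t)] (fun p : ℝ × ℝ => p - (x, t)) := by
    have c1 : Tendsto (fun p : ℝ × ℝ => ev h p.1 - ev h x) (𝓝[Bx t₁] (x, t)) (𝓝 0) := by
      have : Tendsto (fun p : ℝ × ℝ => ev h p.1 - ev h x) (𝓝 (x, t)) (𝓝 (ev h x - ev h x)) :=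
        (((continuous_ev h).comp continuous_fst).sub continuous_const).tendsto (x, t)
      rw [sub_self] at this
      exact this.mono_left nhdsWithin_le_nhds
    have c2 : (fun p : ℝ × ℝ => ev h p.1 - ev h x) =o[𝓝[Bx t₁] (x, t)] (fun _ => (1 : ℝ)) :=
      (isLittleO_one_iff ℝ).2 c1
    have o2' : (fun p : ℝ × ℝ => p.2 - t) =O[𝓝[Bx t₁] (x, t)]
        (fun p : ℝ × ℝ => ‖p - (x, t)‖) := o2.norm_right
    have := o2'.mul_isLittleO c2
    refine this.trans_isBigO ?_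
    refine IsBigO.of_bound 1 (Eventually.of_forall fun p => ?_)
    simp
  refine ((A'.add B).add C).congr_left fun p => ?_
  simp only [cov_apply, Prod.fst_sub, Prod.snd_sub]
  ring

end Pool.Agent.Work.MP_49ac7c_an
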