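import Pool.Agent.Work.MP_49ac7c_an.Joint

/-!
The label map (inverse of the flow map).
-/

set_option autoImplicit false

namespace Pool.Agent.Work.MP_49ac7c_an

open Set Metric Filter Topology MeasureTheory Asymptotics
open scoped NNReal ContDiff

/-- the label map. -/
noncomputable def Xi (v : E) (y : ℝ) : ℝ := Function.invFunOn (ev (ph v)) I y

namespace Good

variable {v : E}

lemma ph_odd (h : Good v) {x : ℝ} (hx : x ∈ I) : ev (ph v) (-x) = -(ev (ph v) x) := by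
  have h1 := ph_Tr v
  rw [h.tr] at h1
  have h2 := congrArg (fun f => ev f x) h1
  simp only [ev_neg] at h2
  rw [ev_Rf _ hx] at h2
  linarith

lemma ph_m1 (h : Good v) : ev (ph v) (-1) = -1 := by
  rw [h.ph_odd one_mem_I, h.ph1]

lemma ph_lower (h : Good v) {C : ℝ} (hC : ‖rh v‖ ≤ C) {x y : ℝ} (hx : x ∈ I) (hy : y ∈ I)
    (hxy : x ≤ y) : y - x ≤ C ^ 2 * (ev (ph v) y - ev (ph v) x) := by
  have e1 : ev (ph v) y - ev (ph v) x = ∫ s in x..y, ev (sg v * sg v) s := by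
    unfold ph
    rw [ev_Int0 _ hx, ev_Int0 _ hy]
    have h1 := intervalIntegral.integral_add_adjacent_intervals
      ((continuous_ev (sg v * sg v)).intervalIntegrable (μ := volume) 0 x)
      ((continuous_ev (sg v * sg v)).intervalIntegrable (μ := volume) x y)
    linarith
  have e2 : y - x = ∫ s in x..y, (1 : ℝ) := by simp
  rw [e1, ← intervalIntegral.integral_const_mul]
  nth_rewrite 1 [e2]
  refine intervalIntegral.integral_mono_on hxy (by simp)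
    ((continuous_const.mul (continuous_ev _)).intervalIntegrable _ _) fun s hs => ?_
  have hrs := h.rh_eq (x := s)
  have hr : |ev (rh v) s| ≤ C := (abs_ev_le _ _).trans hC
  have h2 : ev (rh v) s ^ 2 ≤ C ^ 2 := by
    rw [← sq_abs]; exact pow_le_pow_left₀ (abs_nonneg _) hr 2
  rw [ev_mul]
  calc (1:ℝ) = (ev (rh v) s * ev (sg v) s) ^ 2 := by rw [hrs]; ring
    _ = ev (rh v) s ^ 2 * (ev (sg v) s * ev (sg v) s) := by ring
    _ ≤ C ^ 2 * (ev (sg v) s * ev (sg v) s) := by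
        gcongr; exact mul_self_nonneg _

lemma ph_monoI (h : Good v) {x y : ℝ} (hx : x ∈ I) (hy : y ∈ I) (hxy : x ≤ y) :
    ev (ph v) x ≤ ev (ph v) y := by
  have h1 := h.ph_lower le_rfl hx hy hxy
  have h2 : 0 ≤ ‖rh v‖ ^ 2 * (ev (ph v) y - ev (ph v) x) := by linarith
  by_contra hn
  push Not at hn
  have hpos : 0 < ‖rh v‖ ^ 2 := by
    have : ev (rh v) x ≠ 0 := (h.rhp hx).ne'
    have : 0 < ‖rh v‖ := lt_of_lt_of_le (abs_pos.2 this) (abs_ev_le _ _)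
    positivity
  nlinarith

lemma ph_inj (h : Good v) : InjOn (ev (ph v)) I := by
  intro x hx y hy e
  rcases le_total x y with hxy | hxy
  · have := h.ph_lower le_rfl hx hy hxy
    rw [e, sub_self, mul_zero] at this
    linarith
  · have := h.ph_lower le_rfl hy hx hxy
    rw [e, sub_self, mul_zero] at this
    linarith

lemma ph_mem (h : Good v) {x : ℝ} (hx : x ∈ I) : ev (ph v) x ∈ I :=
  ⟨by rw [← h.ph_m1]; exact h.ph_monoI neg_one_mem_I hx hx.1,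
   by rw [← h.ph1]; exact h.ph_monoI hx one_mem_I hx.2⟩

lemma ph_surj (h : Good v) {y : ℝ} (hy : y ∈ I) : y ∈ ev (ph v) '' I := by
  have := intermediate_value_Icc neg_one_le_one' (continuous_ev (ph v)).continuousOn
  rw [h.ph1, h.ph_m1] at this
  exact this hy

lemma Xi_mem (h : Good v) {y : ℝ} (hy : y ∈ I) : Xi v y ∈ I :=
  Function.invFunOn_mem (h.ph_surj hy)

lemma ph_Xi (h : Good v) {y : ℝ} (hy : y ∈ I) : ev (ph v) (Xi v y) = y :=
  Function.invFunOn_eq (h.ph_surj hy)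

lemma Xi_ph (h : Good v) {x : ℝ} (hx : x ∈ I) : Xi v (ev (ph v) x) = x :=
  h.ph_inj (h.Xi_mem (h.ph_mem hx)) hx (h.ph_Xi (h.ph_mem hx))

lemma Xi_neg (h : Good v) {y : ℝ} (hy : y ∈ I) : Xi v (-y) = -(Xi v y) := by
  refine h.ph_inj (h.Xi_mem (neg_mem_I hy)) (neg_mem_I (h.Xi_mem hy)) ?_
  rw [h.ph_Xi (neg_mem_I hy), h.ph_odd (h.Xi_mem hy), h.ph_Xi hy]

lemma Xi_zero (h : Good v) : Xi v 0 = 0 := by
  have := h.Xi_ph zero_mem_I
  rwa [ev_ph_zero] at this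

lemma Xi_one (h : Good v) : Xi v 1 = 1 := by
  have := h.Xi_ph one_mem_I
  rwa [h.ph1] at this

lemma Xi_m1 (h : Good v) : Xi v (-1) = -1 := by
  have := h.Xi_ph neg_one_mem_I
  rwa [h.ph_m1] at this

lemma Xi_lip (h : Good v) {C : ℝ} (hC : ‖rh v‖ ≤ C) {x y : ℝ} (hx : x ∈ I) (hy : y ∈ I) :
    |y - x| ≤ C ^ 2 * |ev (ph v) y - ev (ph v) x| := by
  rcases le_total x y with hxy | hxy
  · rw [abs_of_nonneg (sub_nonneg.2 hxy), abs_of_nonneg (sub_nonneg.2 (h.ph_monoI hx hy hxy))]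
    exact h.ph_lower hC hx hy hxy
  · rw [abs_sub_comm, abs_sub_comm (ev (ph v) y), abs_of_nonneg (sub_nonneg.2 hxy),
      abs_of_nonneg (sub_nonneg.2 (h.ph_monoI hy hx hxy))]
    exact h.ph_lower hC hy hx hxy

end Good

variable {t₁ : ℝ} {u : ℝ → E}

/-- the pair (label, time). -/
noncomputable def Zz (u : ℝ → E) (p : ℝ × ℝ) : ℝ × ℝ := (Xi (u p.2) p.1, p.2)

lemma Zz_maps (h : Sol F u t₁) (h0 : u 0 = uz) : MapsTo (Zz u) (Bx t₁) (Bx t₁) := fun p hp =>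
  ⟨(good_of_sol h h0 p.2 hp.2).Xi_mem hp.1, hp.2⟩

lemma Zz_lip (h : Sol F u t₁) (h0 : u 0 = uz) : ∃ C : ℝ, ∀ p ∈ Bx t₁, ∀ q ∈ Bx t₁,
    ‖Zz u p - Zz u q‖ ≤ C * ‖p - q‖ := by
  obtain ⟨C, hC⟩ := sol_bdd h (g := rh) CD_rh.continuous
  obtain ⟨C', hC'⟩ := sol_bdd h (g := fun v => 2 * Hh v) (continuous_const.mul CD_Hh.continuous)
  have hlipt : ∀ s ∈ Icc 0 t₁, ∀ t ∈ Icc 0 t₁, ‖ph (u t) - ph (u s)‖ ≤ C' * ‖t - s‖ :=
    fun s hs t ht => Convex.norm_image_sub_le_of_norm_hasDerivWithin_le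
      (f := fun t => ph (u t)) (f' := fun t => 2 * Hh (u t))
      (fun r hr => hd_ph (h r hr)) (fun r hr => hC' r hr) (convex_Icc 0 t₁) hs ht
  refine ⟨max 1 (C ^ 2 * (1 + C')), fun p hp q hq => ?_⟩
  have gp := good_of_sol h h0 p.2 hp.2
  have gq := good_of_sol h h0 q.2 hq.2
  have n1 : |p.1 - q.1| ≤ ‖p - q‖ := norm_fst_le (p - q)
  have n2 : |p.2 - q.2| ≤ ‖p - q‖ := norm_snd_le (p - q)
  have hC'0 : 0 ≤ C' := (norm_nonneg _).trans (hC' p.2 hp.2)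
  rw [Prod.norm_def]
  refine max_le ?_ ?_
  · have h1 := gp.Xi_lip (hC p.2 hp.2) (gq.Xi_mem hq.1) (gp.Xi_mem hp.1)
    rw [gp.ph_Xi hp.1] at h1
    have h2 : |p.1 - ev (ph (u p.2)) (Xi (u q.2) q.1)| ≤ (1 + C') * ‖p - q‖ := by
      have e : p.1 - ev (ph (u p.2)) (Xi (u q.2) q.1) = (p.1 - q.1) -
          ev (ph (u p.2) - ph (u q.2)) (Xi (u q.2) q.1) := by
        rw [ev_sub, gq.ph_Xi hq.1]; ring
      rw [e]
      calc _ ≤ |p.1 - q.1| + |ev (ph (u p.2) - ph (u q.2)) (Xi (u q.2) q.1)| := abs_sub _ _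
        _ ≤ ‖p - q‖ + C' * ‖p - q‖ := by
            gcongr
            refine (abs_ev_le _ _).trans ((hlipt q.2 hq.2 p.2 hp.2).trans ?_)
            rw [Real.norm_eq_abs]
            gcongr
        _ = _ := by ring
    calc ‖(Zz u p - Zz u q).1‖ = |Xi (u p.2) p.1 - Xi (u q.2) q.1| := rfl
      _ ≤ C ^ 2 * |p.1 - ev (ph (u p.2)) (Xi (u q.2) q.1)| := h1
      _ ≤ C ^ 2 * ((1 + C') * ‖p - q‖) := by gcongr
      _ = (C ^ 2 * (1 + C')) * ‖p - q‖ := by ring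
      _ ≤ _ := by gcongr; exact le_max_right _ _
  · calc ‖(Zz u p - Zz u q).2‖ = |p.2 - q.2| := rfl
      _ ≤ ‖p - q‖ := n2
      _ = 1 * ‖p - q‖ := (one_mul _).symm
      _ ≤ _ := by gcongr; exact le_max_left _ _

/-- evaluation in Eulerian coordinates. -/
noncomputable def Eu (v : E) (f : CI) (y : ℝ) : ℝ := ev f (Xi v y)

lemma hasF_Zz (h : Sol F u t₁) (h0 : u 0 = uz) {y t : ℝ} (hy : y ∈ I) (ht : t ∈ Icc 0 t₁) :
    HasFDerivWithinAt (fun p : ℝ × ℝ => Xi (u p.2) p.1)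
      (cov (Eu (u t) (rh (u t) * rh (u t)) y) (Eu (u t) (-(2 * Hh (u t) * (rh (u t) * rh (u t)))) y))
      (Bx t₁) (y, t) := by
  have hG := good_of_sol h h0 t ht
  have hp : (y, t) ∈ Bx t₁ := ⟨hy, ht⟩
  obtain ⟨C, hC⟩ := Zz_lip h h0
  have hO : (fun p : ℝ × ℝ => Zz u p - Zz u (y, t)) =O[𝓝[Bx t₁] (y, t)]
      (fun p : ℝ × ℝ => p - (y, t)) := by
    refine IsBigO.of_bound C ?_
    filter_upwards [self_mem_nhdsWithin] with p hp'
    exact hC p hp' _ hp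
  have hT : Tendsto (Zz u) (𝓝[Bx t₁] (y, t)) (𝓝[Bx t₁] (Zz u (y, t))) := by
    refine tendsto_nhdsWithin_iff.2 ⟨?_, ?_⟩
    · have h1 : Tendsto (fun p : ℝ × ℝ => p - (y, t)) (𝓝[Bx t₁] (y, t)) (𝓝 0) := by
        have : Tendsto (fun p : ℝ × ℝ => p - (y, t)) (𝓝 (y, t)) (𝓝 ((y, t) - (y, t))) :=
          (continuous_id.sub continuous_const).tendsto _
        rw [sub_self] at this
        exact this.mono_left nhdsWithin_le_nhds
      have h2 := hO.trans_tendsto h1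
      exact tendsto_sub_nhds_zero_iff.1 h2
    · filter_upwards [self_mem_nhdsWithin] with p hp'
      exact Zz_maps h h0 hp'
  have hx : Xi (u t) y ∈ I := hG.Xi_mem hy
  have hj := hasF_joint (f := fun t => ph (u t)) (x := Xi (u t) y) hx (Dx_ph (u t))
    (hd_ph (h t ht))
  rw [hasFDerivWithinAt_iff_isLittleO] at hj ⊢
  have hc := (hj.comp_tendsto hT).trans_isBigO hO
  have hc2 := hc.const_mul_left (-(ev (rh (u t) * rh (u t)) (Xi (u t) y)))
  refine hc2.congr' ?_ EventuallyEq.rfl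
  filter_upwards [self_mem_nhdsWithin] with p hp'
  have gp := good_of_sol h h0 p.2 hp'.2
  have e1 : ev (rh (u t)) (Xi (u t) y) * ev (sg (u t)) (Xi (u t) y) = 1 := hG.rh_eq
  simp only [Function.comp_apply, Zz, gp.ph_Xi hp'.1, hG.ph_Xi hy, cov_apply, Prod.fst_sub,
    Prod.snd_sub, Eu, ev_mul, ev_neg, Good.ev_two]
  set r := ev (rh (u t)) (Xi (u t) y)
  set s := ev (sg (u t)) (Xi (u t) y)
  have e2 : r * r * (s * s) = 1 := by
    calc r * r * (s * s) = (r * s) * (r * s) := by ring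
      _ = 1 := by rw [e1]; ring
  linear_combination (Xi (u p.2) p.1 - Xi (u t) y) * e2

end Pool.Agent.Work.MP_49ac7c_an
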