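import Mathlib

/-!
ODE toolbox in Banach spaces.
-/

set_option autoImplicit false

namespace Pool.Agent.Work.MP_49ac7c_an

open Set Metric Filter Topology
open scoped NNReal

/-- Lipschitz on bounded sets. -/
def LB {E G : Type*} [NormedAddCommGroup E] [NormedAddCommGroup G] (F : E → G) : Prop :=
  ∀ R : ℝ, ∃ K : ℝ, 0 ≤ K ∧ ∀ u v : E, ‖u‖ ≤ R → ‖v‖ ≤ R → ‖F u - F v‖ ≤ K * ‖u - v‖

section LB

variable {E G H : Type*} [NormedAddCommGroup E] [NormedAddCommGroup G] [NormedAddCommGroup H]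

lemma LB.bdd {F : E → G} (hF : LB F) (R : ℝ) : ∃ B : ℝ, 0 ≤ B ∧ ∀ u : E, ‖u‖ ≤ R → ‖F u‖ ≤ B := by
  by_cases hR : 0 ≤ R
  · obtain ⟨K, hK, h⟩ := hF R
    refine ⟨‖F 0‖ + K * R, by positivity, fun u hu => ?_⟩
    have h1 := h u 0 hu (by simpa using hR)
    have h2 : ‖F u‖ ≤ ‖F 0‖ + ‖F u - F 0‖ := by
      have := norm_add_le (F 0) (F u - F 0)
      simpa using this
    have h3 : K * ‖u - 0‖ ≤ K * R := by
      rw [sub_zero]; exact mul_le_mul_of_nonneg_left hu hK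
    linarith
  · refine ⟨0, le_rfl, fun u hu => ?_⟩
    exact absurd ((norm_nonneg u).trans hu) hR

lemma LB.const (c : G) : LB (fun _ : E => c) := fun R => ⟨0, le_rfl, by simp⟩

lemma LB.id : LB (fun u : E => u) := fun R => ⟨1, zero_le_one, by simp⟩

lemma LB.add {F F' : E → G} (hF : LB F) (hF' : LB F') : LB (fun u => F u + F' u) := by
  intro R
  obtain ⟨K, hK, h⟩ := hF R
  obtain ⟨K', hK', h'⟩ := hF' R
  refine ⟨K + K', by positivity, fun u v hu hv => ?_⟩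
  have e : F u + F' u - (F v + F' v) = (F u - F v) + (F' u - F' v) := by abel
  rw [e]
  calc _ ≤ ‖F u - F v‖ + ‖F' u - F' v‖ := norm_add_le _ _
    _ ≤ K * ‖u - v‖ + K' * ‖u - v‖ := add_le_add (h u v hu hv) (h' u v hu hv)
    _ = _ := by ring

lemma LB.neg {F : E → G} (hF : LB F) : LB (fun u => - F u) := by
  intro R
  obtain ⟨K, hK, h⟩ := hF R
  refine ⟨K, hK, fun u v hu hv => ?_⟩
  have e : - F u - - F v = - (F u - F v) := by abel
  rw [e, norm_neg]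
  exact h u v hu hv

lemma LB.sub {F F' : E → G} (hF : LB F) (hF' : LB F') : LB (fun u => F u - F' u) := by
  have := hF.add hF'.neg
  simpa [sub_eq_add_neg] using this

lemma LB.prodMk {F : E → G} {F' : E → H} (hF : LB F) (hF' : LB F') :
    LB (fun u => (F u, F' u)) := by
  intro R
  obtain ⟨K, hK, h⟩ := hF R
  obtain ⟨K', hK', h'⟩ := hF' R
  refine ⟨max K K', by positivity, fun u v hu hv => ?_⟩
  rw [Prod.mk_sub_mk, Prod.norm_mk]
  refine max_le ((h u v hu hv).trans ?_) ((h' u v hu hv).trans ?_)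
  · exact mul_le_mul_of_nonneg_right (le_max_left _ _) (norm_nonneg _)
  · exact mul_le_mul_of_nonneg_right (le_max_right _ _) (norm_nonneg _)

lemma LB.fst {F : E → G × H} (hF : LB F) : LB (fun u => (F u).1) := by
  intro R
  obtain ⟨K, hK, h⟩ := hF R
  refine ⟨K, hK, fun u v hu hv => (norm_fst_le (F u - F v)).trans (h u v hu hv)⟩

lemma LB.snd {F : E → G × H} (hF : LB F) : LB (fun u => (F u).2) := by
  intro R
  obtain ⟨K, hK, h⟩ := hF R
  refine ⟨K, hK, fun u v hu hv => (norm_snd_le (F u - F v)).trans (h u v hu hv)⟩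

lemma LB.mul {A : Type*} [NormedRing A] {F F' : E → A} (hF : LB F) (hF' : LB F') :
    LB (fun u => F u * F' u) := by
  intro R
  obtain ⟨K, hK, h⟩ := hF R
  obtain ⟨K', hK', h'⟩ := hF' R
  obtain ⟨B, hB, b⟩ := hF.bdd R
  obtain ⟨B', hB', b'⟩ := hF'.bdd R
  refine ⟨K * B' + B * K', by positivity, fun u v hu hv => ?_⟩
  have e : F u * F' u - F v * F' v = (F u - F v) * F' u + F v * (F' u - F' v) := by
    noncomm_ring
  rw [e]
  calc _ ≤ ‖(F u - F v) * F' u‖ + ‖F v * (F' u - F' v)‖ := norm_add_le _ _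
    _ ≤ ‖F u - F v‖ * ‖F' u‖ + ‖F v‖ * ‖F' u - F' v‖ :=
        add_le_add (norm_mul_le _ _) (norm_mul_le _ _)
    _ ≤ (K * ‖u - v‖) * B' + B * (K' * ‖u - v‖) := by
        gcongr
        · exact h u v hu hv
        · exact b' u hu
        · exact b v hv
        · exact h' u v hu hv
    _ = _ := by ring

lemma LB.clm [NormedSpace ℝ G] [NormedSpace ℝ H] {F : E → G} (hF : LB F) (L : G →L[ℝ] H) :
    LB (fun u => L (F u)) := by
  intro R
  obtain ⟨K, hK, h⟩ := hF R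
  refine ⟨‖L‖ * K, by positivity, fun u v hu hv => ?_⟩
  rw [← map_sub]
  calc _ ≤ ‖L‖ * ‖F u - F v‖ := L.le_opNorm _
    _ ≤ ‖L‖ * (K * ‖u - v‖) := by gcongr; exact h u v hu hv
    _ = _ := by ring

end LB

/-- cut-off function. -/
noncomputable def cut (R r : ℝ) : ℝ := max 0 (min 1 (R + 1 - r))

lemma cut_nonneg (R r : ℝ) : 0 ≤ cut R r := le_max_left _ _

lemma cut_le_one (R r : ℝ) : cut R r ≤ 1 := max_le zero_le_one (min_le_left _ _)

lemma cut_eq_one {R r : ℝ} (h : r ≤ R) : cut R r = 1 := by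
  unfold cut
  rw [min_eq_left (by linarith)]
  simp

lemma cut_eq_zero {R r : ℝ} (h : R + 1 ≤ r) : cut R r = 0 := by
  unfold cut
  exact max_eq_left ((min_le_right _ _).trans (by linarith))

lemma cut_lip (R r s : ℝ) : |cut R r - cut R s| ≤ |r - s| := by
  unfold cut
  calc _ ≤ |min 1 (R + 1 - r) - min 1 (R + 1 - s)| := by
        have := abs_max_sub_max_le_abs (min 1 (R + 1 - r)) (min 1 (R + 1 - s)) 0
        rwa [max_comm _ (0:ℝ), max_comm _ (0:ℝ)] at this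
    _ ≤ |(R + 1 - r) - (R + 1 - s)| := by
        have := abs_min_sub_min_le_max 1 (R + 1 - r) 1 (R + 1 - s)
        simpa using this
    _ = |r - s| := by
        have : (R + 1 - r) - (R + 1 - s) = -(r - s) := by ring
        rw [this, abs_neg]

section ODE

variable {E : Type*} [NormedAddCommGroup E] [NormedSpace ℝ E]

/-- truncated global existence. -/
theorem trunc_exists [CompleteSpace E] (f : ℝ → E → E) (S : ℝ) (hS : 0 ≤ S)
    (hc : ∀ x, ContinuousOn (fun t => f t x) (Icc 0 S))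
    (hb : ∀ R : ℝ, ∃ B : ℝ, 0 ≤ B ∧ ∀ t ∈ Icc 0 S, ∀ u : E, ‖u‖ ≤ R → ‖f t u‖ ≤ B)
    (hL : ∀ R : ℝ, ∃ K : ℝ, 0 ≤ K ∧ ∀ t ∈ Icc 0 S, ∀ u v : E, ‖u‖ ≤ R → ‖v‖ ≤ R →
      ‖f t u - f t v‖ ≤ K * ‖u - v‖)
    (R : ℝ) (x₀ : E) :
    ∃ α : ℝ → E, α 0 = x₀ ∧
      ∀ t ∈ Icc 0 S, HasDerivWithinAt α (cut R ‖α t‖ • f t (α t)) (Icc 0 S) t := by
  obtain ⟨B, hB, hBb⟩ := hb (R + 1)
  have hbound : ∀ t ∈ Icc 0 S, ∀ u : E, ‖cut R ‖u‖ • f t u‖ ≤ B := by
    intro t ht u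
    by_cases hu : ‖u‖ ≤ R + 1
    · rw [norm_smul, Real.norm_eq_abs, abs_of_nonneg (cut_nonneg _ _)]
      calc _ ≤ 1 * B := mul_le_mul (cut_le_one _ _) (hBb t ht u hu) (norm_nonneg _) zero_le_one
        _ = B := one_mul B
    · rw [cut_eq_zero (le_of_not_ge hu), zero_smul, norm_zero]
      exact hB
  set a : ℝ := B * S with ha
  have ha0 : 0 ≤ a := by positivity
  obtain ⟨B', hB', hBb'⟩ := hb (‖x₀‖ + a)
  obtain ⟨K', hK', hK⟩ := hL (‖x₀‖ + a)
  have hball : ∀ x ∈ closedBall x₀ a, ‖x‖ ≤ ‖x₀‖ + a := by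
    intro x hx
    have h1 : ‖x - x₀‖ ≤ a := by simpa [dist_eq_norm] using hx
    have h2 : ‖x‖ ≤ ‖x₀‖ + ‖x - x₀‖ := by
      have := norm_add_le x₀ (x - x₀)
      simpa using this
    linarith
  have hpl : IsPicardLindelof (fun t u => cut R ‖u‖ • f t u)
      (tmin := 0) (tmax := S) ⟨0, ⟨le_rfl, hS⟩⟩ x₀
      ⟨a, ha0⟩ 0 ⟨B, hB⟩ ⟨B' + K', by positivity⟩ := by
    constructor
    · intro t ht
      refine LipschitzOnWith.of_dist_le_mul fun x hx y hy => ?_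
      rw [dist_eq_norm, dist_eq_norm]
      have hx' := hball x hx
      have hy' := hball y hy
      have e : cut R ‖x‖ • f t x - cut R ‖y‖ • f t y
          = (cut R ‖x‖ - cut R ‖y‖) • f t x + cut R ‖y‖ • (f t x - f t y) := by
        rw [sub_smul, smul_sub]; abel
      rw [e]
      calc _ ≤ ‖(cut R ‖x‖ - cut R ‖y‖) • f t x‖ + ‖cut R ‖y‖ • (f t x - f t y)‖ :=
            norm_add_le _ _
        _ = |cut R ‖x‖ - cut R ‖y‖| * ‖f t x‖ + |cut R ‖y‖| * ‖f t x - f t y‖ := by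
            rw [norm_smul, norm_smul, Real.norm_eq_abs, Real.norm_eq_abs]
        _ ≤ ‖x - y‖ * B' + 1 * (K' * ‖x - y‖) := by
            gcongr
            · exact (cut_lip _ _ _).trans (abs_norm_sub_norm_le _ _)
            · exact hBb' t ht x hx'
            · rw [abs_of_nonneg (cut_nonneg _ _)]; exact cut_le_one _ _
            · exact hK t ht x y hx' hy'
        _ = (B' + K') * ‖x - y‖ := by ring
        _ = _ := rfl
    · intro x _
      exact (hc x).const_smul _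
    · intro t ht x _
      exact hbound t ht x
    · simp only [NNReal.coe_zero, sub_zero, sub_self]
      rw [max_eq_left hS]
      exact le_refl _
  exact hpl.exists_eq_forall_mem_Icc_hasDerivWithinAt₀

/-- Gronwall-type bound in the form we need. -/
lemma gronwall_norm {f : ℝ → E} {f' : ℝ → E} {K ε b : ℝ}
    (hf : ∀ t ∈ Icc 0 b, HasDerivWithinAt f (f' t) (Icc 0 b) t)
    (bound : ∀ t ∈ Ico 0 b, ‖f' t‖ ≤ K * ‖f t‖ + ε) :
    ∀ t ∈ Icc 0 b, ‖f t‖ ≤ gronwallBound ‖f 0‖ K ε t := by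
  intro t ht
  have := norm_le_gronwallBound_of_norm_deriv_right_le (f := f) (f' := f') (δ := ‖f 0‖)
    (K := K) (ε := ε) (a := 0) (b := b)
    (fun x hx => (hf x hx).continuousWithinAt)
    (fun x hx => by
      have h1 := hf x ⟨hx.1, hx.2.le⟩
      exact (h1.mono_of_mem_nhdsWithin (Icc_mem_nhdsGE_of_mem hx)))
    le_rfl bound t ht
  simpa using this

lemma eq_zero_of_deriv_bound {f : ℝ → E} {f' : ℝ → E} {K b : ℝ}
    (hf : ∀ t ∈ Icc 0 b, HasDerivWithinAt f (f' t) (Icc 0 b) t) (h0 : f 0 = 0)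
    (bound : ∀ t ∈ Ico 0 b, ‖f' t‖ ≤ K * ‖f t‖) :
    ∀ t ∈ Icc 0 b, f t = 0 := by
  intro t ht
  have := gronwall_norm (K := K) (ε := 0) hf (by simpa using bound) t ht
  rw [h0, norm_zero, gronwallBound_ε0_δ0] at this
  exact norm_le_zero_iff.mp this

/-- Global existence for globally Lipschitz, time-dependent vector fields. -/
theorem lip_exists [CompleteSpace E] (f : ℝ → E → E) (S : ℝ) (hS : 0 ≤ S)
    (hc : ∀ x, ContinuousOn (fun t => f t x) (Icc 0 S))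
    (K : ℝ) (hK0 : 0 ≤ K)
    (hL : ∀ t ∈ Icc 0 S, ∀ u v : E, ‖f t u - f t v‖ ≤ K * ‖u - v‖) (x₀ : E) :
    ∃ α : ℝ → E, α 0 = x₀ ∧ ∀ t ∈ Icc 0 S, HasDerivWithinAt α (f t (α t)) (Icc 0 S) t := by
  obtain ⟨m, hm⟩ : ∃ m : ℝ, ∀ t ∈ Icc 0 S, ‖f t 0‖ ≤ m := by
    obtain ⟨m, hm⟩ := (isCompact_Icc.image_of_continuousOn (hc 0)).isBounded.exists_norm_le
    exact ⟨m, fun t ht => hm _ ⟨t, ht, rfl⟩⟩
  have hm0 : 0 ≤ m := (norm_nonneg _).trans (hm 0 ⟨le_rfl, hS⟩)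
  have hgrow : ∀ t ∈ Icc 0 S, ∀ u : E, ‖f t u‖ ≤ K * ‖u‖ + m := by
    intro t ht u
    have h1 := hL t ht u 0
    have h2 : ‖f t u‖ ≤ ‖f t 0‖ + ‖f t u - f t 0‖ := by
      have := norm_add_le (f t 0) (f t u - f t 0)
      simpa using this
    have := hm t ht
    rw [sub_zero] at h1
    linarith
  obtain ⟨R, hR⟩ : ∃ R : ℝ, ∀ t ∈ Icc 0 S, gronwallBound ‖x₀‖ K m t ≤ R := by
    refine ⟨gronwallBound ‖x₀‖ K m S, fun t ht => ?_⟩
    exact gronwallBound_mono (norm_nonneg _) hm0 hK0 ht.2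
  obtain ⟨α, h0, hα⟩ := trunc_exists f S hS hc
    (fun R' => ⟨K * |R'| + m, by positivity, fun t ht u hu => (hgrow t ht u).trans (by
      gcongr; exact hu.trans (le_abs_self _))⟩)
    (fun R' => ⟨K, hK0, fun t ht u v _ _ => hL t ht u v⟩) R x₀
  refine ⟨α, h0, ?_⟩
  have hbd : ∀ t ∈ Icc 0 S, ‖α t‖ ≤ R := by
    intro t ht
    have := gronwall_norm (K := K) (ε := m) hα (fun t ht => by
      rw [norm_smul, Real.norm_eq_abs, abs_of_nonneg (cut_nonneg _ _)]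
      have h1 := hgrow t ⟨ht.1, ht.2.le⟩ (α t)
      have h2 : cut R ‖α t‖ * ‖f t (α t)‖ ≤ 1 * ‖f t (α t)‖ :=
        mul_le_mul_of_nonneg_right (cut_le_one _ _) (norm_nonneg _)
      linarith) t ht
    rw [h0] at this
    exact this.trans (hR t ht)
  intro t ht
  have := hα t ht
  rwa [cut_eq_one (hbd t ht), one_smul] at this

/-- uniqueness for autonomous ODE with locally (on balls) Lipschitz vector field. -/
theorem ode_unique {F : E → E} (hF : LB F) {S : ℝ} {α β : ℝ → E}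
    (hα : ∀ t ∈ Icc 0 S, HasDerivWithinAt α (F (α t)) (Icc 0 S) t)
    (hβ : ∀ t ∈ Icc 0 S, HasDerivWithinAt β (F (β t)) (Icc 0 S) t)
    (h0 : α 0 = β 0) : ∀ t ∈ Icc 0 S, α t = β t := by
  have hαc : ContinuousOn α (Icc 0 S) := fun t ht => (hα t ht).continuousWithinAt
  have hβc : ContinuousOn β (Icc 0 S) := fun t ht => (hβ t ht).continuousWithinAt
  obtain ⟨R1, hR1⟩ := (isCompact_Icc.image_of_continuousOn hαc).isBounded.exists_norm_le
  obtain ⟨R2, hR2⟩ := (isCompact_Icc.image_of_continuousOn hβc).isBounded.exists_norm_le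
  obtain ⟨K, hK0, hK⟩ := hF (max R1 R2)
  intro t ht
  have := eq_zero_of_deriv_bound (f := fun t => α t - β t)
    (f' := fun t => F (α t) - F (β t)) (K := K) (b := S)
    (fun t ht => (hα t ht).sub (hβ t ht)) (by simp [h0])
    (fun t ht => hK _ _ ((hR1 _ ⟨t, ⟨ht.1, ht.2.le⟩, rfl⟩).trans (le_max_left _ _))
      ((hR2 _ ⟨t, ⟨ht.1, ht.2.le⟩, rfl⟩).trans (le_max_right _ _))) t ht
  exact sub_eq_zero.mp this

lemma LB.trunc {F : E → E} (hF : LB F) (R : ℝ) : LB (fun u => cut R ‖u‖ • F u) := by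
  intro R'
  obtain ⟨K, hK0, hK⟩ := hF R'
  obtain ⟨B, hB0, hB⟩ := hF.bdd R'
  refine ⟨B + K, by positivity, fun x y hx hy => ?_⟩
  have e : cut R ‖x‖ • F x - cut R ‖y‖ • F y
      = (cut R ‖x‖ - cut R ‖y‖) • F x + cut R ‖y‖ • (F x - F y) := by
    rw [sub_smul, smul_sub]; abel
  rw [e]
  calc _ ≤ ‖(cut R ‖x‖ - cut R ‖y‖) • F x‖ + ‖cut R ‖y‖ • (F x - F y)‖ :=
        norm_add_le _ _
    _ = |cut R ‖x‖ - cut R ‖y‖| * ‖F x‖ + |cut R ‖y‖| * ‖F x - F y‖ := by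
        rw [norm_smul, norm_smul, Real.norm_eq_abs, Real.norm_eq_abs]
    _ ≤ ‖x - y‖ * B + 1 * (K * ‖x - y‖) := by
        gcongr
        · exact (cut_lip _ _ _).trans (abs_norm_sub_norm_le _ _)
        · exact hB x hx
        · rw [abs_of_nonneg (cut_nonneg _ _)]; exact cut_le_one _ _
        · exact hK x y hx hy
    _ = (B + K) * ‖x - y‖ := by ring

/-- `α` solves `α' = F α` on `[0, t]`. -/
def Sol (F : E → E) (α : ℝ → E) (t : ℝ) : Prop :=
  ∀ s ∈ Icc 0 t, HasDerivWithinAt α (F (α s)) (Icc 0 t) s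

lemma Sol.mono {F : E → E} {α : ℝ → E} {t t' : ℝ} (h : Sol F α t) (htt : t' ≤ t) :
    Sol F α t' := fun s hs =>
  (h s ⟨hs.1, hs.2.trans htt⟩).mono (Icc_subset_Icc_right htt)

lemma Sol.unique {F : E → E} (hF : LB F) {α β : ℝ → E} {t t' : ℝ} (h : Sol F α t)
    (h' : Sol F β t') (h0 : α 0 = β 0) {s : ℝ} (hs0 : 0 ≤ s) (hs : s ≤ t) (hs' : s ≤ t') :
    α s = β s :=
  ode_unique hF (h.mono hs) (h'.mono hs') h0 s ⟨hs0, le_rfl⟩

theorem maximal [CompleteSpace E] {F : E → E} (hF : LB F) (u₀ : E) (S : ℝ) (hS : 0 < S)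
    (hno : ∀ α : ℝ → E, α 0 = u₀ → ¬ Sol F α S) :
    ∃ T, 0 < T ∧ T ≤ S ∧ ∃ u : ℝ → E, u 0 = u₀ ∧ (∀ t₁, t₁ < T → Sol F u t₁) ∧
      (∀ N : ℝ, ∃ t ∈ Ico 0 T, N < ‖u t‖) := by
  classical
  -- truncated solutions
  have htr : ∀ R : ℝ, ∃ α : ℝ → E, α 0 = u₀ ∧ Sol (fun u => cut R ‖u‖ • F u) α S := by
    intro R
    obtain ⟨α, h0, h⟩ := trunc_exists (fun _ => F) S hS.le (fun x => continuousOn_const)
      (fun R' => by
        obtain ⟨B, hB, h⟩ := hF.bdd R'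
        exact ⟨B, hB, fun t _ u hu => h u hu⟩)
      (fun R' => by
        obtain ⟨K, hK, h⟩ := hF R'
        exact ⟨K, hK, fun t _ u v hu hv => h u v hu hv⟩) R u₀
    exact ⟨α, h0, h⟩
  have htrue : ∀ (R : ℝ) (α : ℝ → E), Sol (fun u => cut R ‖u‖ • F u) α S →
      ∀ t ≤ S, (∀ s ∈ Icc 0 t, ‖α s‖ ≤ R) → Sol F α t := by
    intro R α h t ht hb s hs
    have := (h.mono ht) s hs
    simp only at this
    rwa [cut_eq_one (hb s hs), one_smul] at this
  have hcont : ∀ (G : E → E) (α : ℝ → E) (t : ℝ), Sol G α t → ContinuousOn α (Icc 0 t) :=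
    fun G α t h s hs => (h s hs).continuousWithinAt
  set A : Set ℝ := {t | 0 ≤ t ∧ t ≤ S ∧ ∃ α : ℝ → E, α 0 = u₀ ∧ Sol F α t} with hA
  have hAbdd : BddAbove A := ⟨S, fun t ht => ht.2.1⟩
  -- extension lemma
  have hext : ∀ (R : ℝ) (α : ℝ → E), α 0 = u₀ → Sol (fun u => cut R ‖u‖ • F u) α S →
      ∀ t, 0 ≤ t → t < S → (∀ s ∈ Icc 0 t, ‖α s‖ < R) → ∃ t' ∈ A, t < t' := by
    intro R α h0 h t ht0 htS hb
    have hc := hcont _ _ _ h
    have h1 : ∀ᶠ s in 𝓝[Icc 0 S] t, ‖α s‖ < R :=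
      ((hc t ⟨ht0, htS.le⟩).norm).eventually_lt_const (hb t ⟨ht0, le_rfl⟩)
    rw [eventually_nhdsWithin_iff, Metric.eventually_nhds_iff] at h1
    obtain ⟨ε, hε, h1⟩ := h1
    set t' := min S (t + ε / 2) with ht'
    have htt' : t < t' := lt_min htS (by linarith)
    refine ⟨t', ⟨ht0.trans htt'.le, min_le_left _ _, α, h0, ?_⟩, htt'⟩
    refine htrue R α h t' (min_le_left _ _) fun s hs => ?_
    rcases le_or_gt s t with hst | hst
    · exact (hb s ⟨hs.1, hst⟩).le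
    · refine (h1 ?_ ⟨hs.1, hs.2.trans (min_le_left _ _)⟩).le
      rw [Real.dist_eq, abs_of_pos (by linarith)]
      have : s ≤ t + ε / 2 := hs.2.trans (min_le_right _ _)
      linarith
  set T := sSup A with hT
  obtain ⟨t₀, ht₀A, ht₀⟩ : ∃ t' ∈ A, 0 < t' := by
    obtain ⟨α, h0, h⟩ := htr (‖u₀‖ + 1)
    refine hext (‖u₀‖ + 1) α h0 h 0 le_rfl hS fun s hs => ?_
    have : s = 0 := le_antisymm hs.2 hs.1
    rw [this, h0]; linarith
  have hTpos : 0 < T := ht₀.trans_le (le_csSup hAbdd ht₀A)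
  have hTS : T ≤ S := csSup_le ⟨t₀, ht₀A⟩ fun t ht => ht.2.1
  have hlt : ∀ t, t < T → ∃ t' ∈ A, t < t' := fun t ht => exists_lt_of_lt_csSup ⟨t₀, ht₀A⟩ ht
  -- the solution
  let u : ℝ → E := fun t => if h : ∃ t' ∈ A, t < t' then
    (Classical.choose (Classical.choose_spec h).1.2.2) t else 0
  have hu : ∀ (β : ℝ → E) (t' : ℝ), β 0 = u₀ → Sol F β t' → ∀ t, 0 ≤ t → t ≤ t' → t < T →
      u t = β t := by
    intro β t' hβ0 hβ t ht0 htt' htT
    have h := hlt t htT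
    have hspec := Classical.choose_spec (Classical.choose_spec h).1.2.2
    have hut : u t = (Classical.choose (Classical.choose_spec h).1.2.2) t := by
      simp only [u, dif_pos h]
    rw [hut]
    exact Sol.unique hF hspec.2 hβ (hspec.1.trans hβ0.symm) ht0 (Classical.choose_spec h).2.le htt'
  have husol : ∀ t₁, t₁ < T → Sol F u t₁ := by
    intro t₁ ht₁ s hs
    obtain ⟨t', ⟨_, _, β, hβ0, hβ⟩, htt'⟩ := hlt t₁ ht₁
    have heq : ∀ r ∈ Icc 0 t₁, u r = β r := fun r hr =>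
      hu β t' hβ0 hβ r hr.1 (hr.2.trans htt'.le) (hr.2.trans_lt ht₁)
    have h1 := (hβ.mono htt'.le) s hs
    rw [heq s hs]
    exact h1.congr heq (heq s hs)
  have hu0 : u 0 = u₀ := by
    obtain ⟨_, _, β, hβ0, hβ⟩ := ht₀A
    rw [hu β t₀ hβ0 hβ 0 le_rfl ht₀.le hTpos, hβ0]
  refine ⟨T, hTpos, hTS, u, hu0, husol, ?_⟩
  by_contra hcon
  push Not at hcon
  obtain ⟨N, hN⟩ := hcon
  obtain ⟨α, h0, h⟩ := htr (N + 1)
  have heq : ∀ t ∈ Ico 0 T, α t = u t := by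
    intro t ht
    have h1 : Sol (fun u => cut (N + 1) ‖u‖ • F u) u t := by
      intro s hs
      have := husol t ht.2 s hs
      simp only
      rwa [cut_eq_one ((hN s ⟨hs.1, hs.2.trans_lt ht.2⟩).trans (by linarith)), one_smul]
    exact Sol.unique (hF.trunc (N + 1)) h h1 (h0.trans hu0.symm) ht.1 (ht.2.le.trans hTS) le_rfl
  have hTN : ‖α T‖ ≤ N := by
    have hc := (hcont _ _ _ h T ⟨hTpos.le, hTS⟩).norm
    have hc' : ContinuousWithinAt (fun x => ‖α x‖) (Ico 0 T) T :=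
      hc.mono (fun x hx => ⟨hx.1, hx.2.le.trans hTS⟩)
    have hcl : T ∈ closure (Ico 0 T) := by
      rw [closure_Ico hTpos.ne]; exact ⟨hTpos.le, le_rfl⟩
    have : (𝓝[Ico 0 T] T).NeBot := mem_closure_iff_nhdsWithin_neBot.mp hcl
    refine le_of_tendsto hc' ?_
    filter_upwards [self_mem_nhdsWithin] with s hs
    rw [heq s hs]; exact hN s hs
  have hbd : ∀ s ∈ Icc 0 T, ‖α s‖ < N + 1 := by
    intro s hs
    rcases lt_or_eq_of_le hs.2 with hsT | hsT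
    · rw [heq s ⟨hs.1, hsT⟩]; linarith [hN s ⟨hs.1, hsT⟩]
    · rw [hsT]; linarith
  rcases lt_or_eq_of_le hTS with hTS' | hTS'
  · obtain ⟨t', ht'A, ht'⟩ := hext (N + 1) α h0 h T hTpos.le hTS' hbd
    exact absurd (le_csSup hAbdd ht'A) (not_le.mpr ht')
  · refine hno α h0 (htrue (N + 1) α h S le_rfl fun s hs => ?_)
    rw [← hTS'] at hs
    exact (hbd s hs).le

end ODE

end Pool.Agent.Work.MP_49ac7c_an
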