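import Pool.Agent.Work.MP_49ac7c_an.Static

/-!
The solution satisfies `Good` at all times.
-/

set_option autoImplicit false

namespace Pool.Agent.Work.MP_49ac7c_an

open Set Metric Filter Topology MeasureTheory
open scoped NNReal ContDiff

lemma mono_of_deriv {f f' : ℝ → ℝ} {a b : ℝ}
    (h : ∀ s ∈ Icc a b, HasDerivWithinAt f (f' s) (Icc a b) s)
    (hn : ∀ s ∈ Icc a b, 0 ≤ f' s) : MonotoneOn f (Icc a b) := by
  refine monotoneOn_of_deriv_nonneg (convex_Icc a b) (fun s hs => (h s hs).continuousWithinAt)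
    (fun s hs => ?_) (fun s hs => ?_)
  · rw [interior_Icc] at hs
    exact ((h s ⟨hs.1.le, hs.2.le⟩).hasDerivAt
      (Icc_mem_nhds hs.1 hs.2)).differentiableAt.differentiableWithinAt
  · rw [interior_Icc] at hs
    rw [((h s ⟨hs.1.le, hs.2.le⟩).hasDerivAt (Icc_mem_nhds hs.1 hs.2)).deriv]
    exact hn s ⟨hs.1.le, hs.2.le⟩

lemma HasDerivWithinAt.ev {f : ℝ → CI} {f' : CI} {J : Set ℝ} {s : ℝ}
    (h : HasDerivWithinAt f f' J s) (x : ℝ) :
    HasDerivWithinAt (fun t => ev (f t) x) (ev f' x) J s :=
  HasDerivWithinAt.clm h (evL x)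

lemma Av_eq_tr {u : E} (h : Tr u = u) : Av u = MP_49ac7c_an.ev (Int0 (ff u)) 1 := by
  have h0 : -(Rf (ff u)) = ff u := by
    have := ff_Tr u
    rw [h] at this
    exact this.symm
  have h1 : MP_49ac7c_an.ev (Int0 (ff u)) (-1) = MP_49ac7c_an.ev (Int0 (ff u)) 1 := by
    rw [← ev_Rf _ one_mem_I, ← Int0_neg_Rf, h0]
  unfold Av
  rw [evL_apply, evL_apply, h1]; ring

variable {u : ℝ → E} {t₁ : ℝ}

lemma inv_ph1 (h : Sol F u t₁) (h0 : u 0 = uz) : ∀ t ∈ Icc 0 t₁, ev (ph (u t)) 1 = 1 := by
  intro t ht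
  obtain ⟨C, hC⟩ := sol_bdd h (g := fun v => 2 * (1 + ph v) * be v)
    ((continuous_const.mul (continuous_const.add CD_ph.continuous)).mul CD_be.continuous)
  have hder : ∀ s ∈ Icc 0 t₁, HasDerivWithinAt (fun t => ev (ph (u t)) 1 - 1)
      (ev (2 * Hh (u s)) 1) (Icc 0 t₁) s := fun s hs =>
    (HasDerivWithinAt.ev (hd_ph (h s hs)) 1).sub_const 1
  have := eq_zero_of_deriv_bound (f := fun t => ev (ph (u t)) 1 - 1) (K := C) (b := t₁)
    hder (by
      simp only [h0, ph_uz, ev_Xc one_mem_I, sub_self]) (fun s hs => by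
        have hs' : s ∈ Icc 0 t₁ := ⟨hs.1, hs.2.le⟩
        have hal : ev (al (u s)) 1 = 0 := by
          unfold al
          rw [ev_sub, ev_algebraMap, Av_eq_tr (sym h h0 s hs'), sub_self]
        have e : ev (2 * Hh (u s)) 1 =
            -(ev (2 * (1 + ph (u s)) * be (u s)) 1) * (ev (ph (u s)) 1 - 1) := by
          unfold Hh
          simp only [ev_mul, ev_add, ev_sub, ev_one, hal, Good.ev_two]
          ring
        rw [e, norm_mul, norm_neg]
        refine mul_le_mul_of_nonneg_right ?_ (norm_nonneg _)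
        exact (abs_ev_le _ _).trans (hC s hs')) t ht
  linarith

lemma sg_pos (h : Sol F u t₁) (h0 : u 0 = uz) :
    ∀ t ∈ Icc 0 t₁, ∀ x : ℝ, 0 < ev (sg (u t)) x := by
  intro t ht x
  by_contra hn
  push Not at hn
  have hc : ContinuousOn (fun t => ev (sg (u t)) x) (Icc 0 t) := fun s hs =>
    ((HasDerivWithinAt.ev (hd_sg (h s ⟨hs.1, hs.2.trans ht.2⟩)) x).continuousWithinAt).mono
      (Icc_subset_Icc_right ht.2)
  have h1 : ev (sg (u 0)) x = 1 := by rw [h0, sg_uz]; rfl
  have h2 : (0:ℝ) ∈ Icc (ev (sg (u t)) x) (ev (sg (u 0)) x) := ⟨hn, by rw [h1]; norm_num⟩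
  obtain ⟨s, hs, hs0⟩ := intermediate_value_Icc' ht.1 hc h2
  have h3 := congrArg (fun f => ev f x) (inv_rs h h0 s ⟨hs.1, hs.2.trans ht.2⟩)
  simp only [ev_mul, ev_one] at h3
  simp only at hs0
  rw [hs0, mul_zero] at h3
  exact zero_ne_one h3

/-- The derivative of `P`. -/
lemma hd_Pp (h : Sol F u t₁) (h0 : u 0 = uz) {s : ℝ} (hs : s ∈ Icc 0 t₁) :
    HasDerivWithinAt (fun t => Pp (u t))
      (q0 * (sg (u s) * sg (u s)) * (dd (u s) * ww (u s) + 2 * be (u s))) (Icc 0 t₁) s := by
  have h1 := (((hd_nu (h s hs)).const_mul q0).mul (hd_rh (h s hs))).const_add q0p |>.neg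
  refine h1.congr_deriv ?_
  have hrs := inv_rs h h0 s hs
  have hdd := inv_dd h h0 s hs
  have e1 : -(q0 * (kap (u s) * sg (u s) + Kk (u s) * nu (u s)) * rh (u s) +
      q0 * nu (u s) * -(Kk (u s) * rh (u s))) = -(q0 * kap (u s) * (rh (u s) * sg (u s))) := by
    ring
  rw [e1, hrs]
  unfold kap mm
  calc _ = q0 * (sg (u s) * sg (u s)) * (dd (u s) * (dd (u s) * (1 + ph (u s) * ph (u s))) *
        ww (u s) + 2 * be (u s)) := by ring
    _ = _ := by rw [hdd]; ring

lemma hd_ww' {s : ℝ} (h : HasDerivWithinAt u (F (u s)) (Icc 0 t₁) s) :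
    HasDerivWithinAt (fun t => ww (u t)) (rh (u s) * Pp (u s)) (Icc 0 t₁) s := by
  refine (hd_ww h).congr_deriv ?_
  unfold Pp; ring

lemma pos_aux (h : Sol F u t₁) (h0 : u 0 = uz) :
    ∃ B C : ℝ, 0 ≤ B ∧ 0 ≤ C ∧ ∀ n : ℕ, ∀ t ∈ Icc 0 t₁, ∀ x ∈ Icc (0:ℝ) 1,
      -(B * (C * t) ^ n / n.factorial) ≤ ev (ww (u t)) x ∧
      -(B * (C * t) ^ n / n.factorial) ≤ ev (Pp (u t)) x := by
  obtain ⟨B1, hB1⟩ := sol_bdd h (g := ww) CD_ww.continuous
  obtain ⟨B2, hB2⟩ := sol_bdd h (g := Pp)
    ((continuous_const.add ((continuous_const.mul CD_nu.continuous).mul CD_rh.continuous)).neg)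
  obtain ⟨C1, hC1⟩ := sol_bdd h (g := rh) CD_rh.continuous
  obtain ⟨C2, hC2⟩ := sol_bdd h (g := fun v => q0 * (sg v * sg v) * dd v)
    ((continuous_const.mul (CD_sg.continuous.mul CD_sg.continuous)).mul CD_dd.continuous)
  obtain ⟨C3, hC3⟩ := sol_bdd h (g := fun v => q0 * (sg v * sg v))
    (continuous_const.mul (CD_sg.continuous.mul CD_sg.continuous))
  obtain ⟨C4, hC4⟩ := sol_bdd h (g := fun v => ph v * (dd v * dd v * (sg v * sg v)))
    (CD_ph.continuous.mul ((CD_dd.continuous.mul CD_dd.continuous).mul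
      (CD_sg.continuous.mul CD_sg.continuous)))
  by_cases ht1 : 0 ≤ t₁
  swap
  · exact ⟨0, 0, le_rfl, le_rfl, fun n t ht => absurd (ht.1.trans ht.2) ht1⟩
  have z : (0:ℝ) ∈ Icc 0 t₁ := ⟨le_rfl, ht1⟩
  have hC1' : 0 ≤ C1 := (norm_nonneg _).trans (hC1 0 z)
  have hC2' : 0 ≤ C2 := (norm_nonneg _).trans (hC2 0 z)
  have hC3' : 0 ≤ C3 := (norm_nonneg _).trans (hC3 0 z)
  have hC4' : 0 ≤ C4 := (norm_nonneg _).trans (hC4 0 z)
  have hB1' : 0 ≤ B1 := (norm_nonneg _).trans (hB1 0 z)
  have hB2' : 0 ≤ B2 := (norm_nonneg _).trans (hB2 0 z)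
  set B := B1 + B2 with hB
  set C := C1 + C2 + 2 * C3 * C4 with hC
  have hBn : 0 ≤ B := by positivity
  have hCn : 0 ≤ C := by positivity
  refine ⟨B, C, hBn, hCn, fun n => ?_⟩
  induction n with
  | zero =>
    intro t ht x _
    simp only [pow_zero, mul_one, Nat.factorial_zero, Nat.cast_one, div_one]
    have h1 := (abs_le.mp ((abs_ev_le (ww (u t)) x).trans (hB1 t ht))).1
    have h2 := (abs_le.mp ((abs_ev_le (Pp (u t)) x).trans (hB2 t ht))).1
    constructor <;> linarith
  | succ n ih =>
    intro t ht x hx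
    set b : ℝ → ℝ := fun s => B * (C * s) ^ n / n.factorial with hb
    have hb0 : ∀ s ∈ Icc 0 t₁, 0 ≤ b s := fun s hs => by
      have := hs.1
      simp only [hb]; positivity
    have hder : ∀ s : ℝ, HasDerivWithinAt
        (fun s => B * (C * s) ^ (n + 1) / (n + 1).factorial) (C * b s) (Icc 0 t₁) s := by
      intro s
      have h1 : HasDerivAt (fun s : ℝ => B * (C * s) ^ (n + 1) / (n + 1).factorial)
          (B * ((n + 1 : ℕ) * (C * s) ^ n * C) / (n + 1).factorial) s := by
        have := (((hasDerivAt_id s).const_mul C).pow (n + 1)).const_mul B |>.div_const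
          ((n + 1).factorial : ℝ)
        simpa using this
      refine (h1.hasDerivWithinAt).congr_deriv ?_
      simp only [hb]
      rw [Nat.factorial_succ]
      push_cast
      have : (n.factorial : ℝ) ≠ 0 := by positivity
      have : ((n : ℝ) + 1) ≠ 0 := by positivity
      field_simp
    constructor
    · have hm := mono_of_deriv (f := fun s => ev (ww (u s)) x +
          B * (C * s) ^ (n + 1) / (n + 1).factorial) (a := 0) (b := t₁)
        (fun s hs => (HasDerivWithinAt.ev (hd_ww' (h s hs)) x).add (hder s)) (fun s hs => by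
          have h1 := (ih s hs x hx).2
          have h2 := sg_pos h h0 s hs x
          have h3 := congrArg (fun f => ev f x) (inv_rs h h0 s hs)
          simp only [ev_mul, ev_one] at h3
          have h4 : 0 < ev (rh (u s)) x := by
            by_contra hn; push Not at hn; nlinarith
          have h5 := (abs_le.mp ((abs_ev_le (rh (u s)) x).trans (hC1 s hs))).2
          have h6 := hb0 s hs
          have h7 : C1 ≤ C := by
            have : 0 ≤ C2 + 2 * C3 * C4 := by positivity
            linarith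
          rw [ev_mul]
          have h8 : 0 ≤ ev (rh (u s)) x * (ev (Pp (u s)) x + b s) :=
            mul_nonneg h4.le (by simp only [hb]; linarith)
          have h9 : 0 ≤ (C - ev (rh (u s)) x) * b s := mul_nonneg (by linarith) h6
          nlinarith)
      have h1 := hm z ht ht.1
      simp only [h0, mul_zero] at h1
      have h2 : ev (ww uz) x = 0 := rfl
      rw [h2] at h1
      have h3 : B * (0:ℝ) ^ (n + 1) / (n + 1).factorial = 0 := by simp
      rw [h3] at h1
      linarith
    · have hm := mono_of_deriv (f := fun s => ev (Pp (u s)) x +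
          B * (C * s) ^ (n + 1) / (n + 1).factorial) (a := 0) (b := t₁)
        (fun s hs => (HasDerivWithinAt.ev (hd_Pp h h0 hs) x).add (hder s)) (fun s hs => by
          have h1 := (ih s hs x hx).1
          have h6 := hb0 s hs
          have hddp : ∀ y : ℝ, 0 ≤ ev (dd (u s)) y := by
            intro y
            have h3 := congrArg (fun f => ev f y) (inv_dd h h0 s hs)
            simp only [ev_mul, ev_one, ev_add] at h3
            have h4 := mul_self_nonneg (ev (ph (u s)) y)
            by_contra hn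
            push Not at hn
            nlinarith
          have hph : ∀ y ∈ Icc (0:ℝ) 1, 0 ≤ ev (ph (u s)) y := fun y hy =>
            ev_Int0_nonneg hy fun z _ => by simpa using mul_self_nonneg (ev (sg (u s)) z)
          -- bound on beta
          have hbe : -(C4 * b s) ≤ ev (be (u s)) x := by
            have h7 := ev_Int0_le (f := algebraMap ℝ CI (-(C4 * b s))) (g := gg (u s)) hx
              (fun y hy => by
                have hy1 : y ∈ Icc (0:ℝ) 1 := ⟨hy.1, hy.2.trans hx.2⟩
                have h8 := (ih s hs y hy1).1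
                have h9 := (abs_le.mp ((abs_ev_le _ y).trans (hC4 s hs))).2
                simp only [ev_mul] at h9
                simp only [gg, mm, ev_mul, ev_algebraMap]
                have h10 : 0 ≤ ev (ph (u s)) y * (ev (dd (u s)) y * ev (dd (u s)) y *
                    (ev (sg (u s)) y * ev (sg (u s)) y)) :=
                  mul_nonneg (hph y hy1) (mul_nonneg (mul_self_nonneg _) (mul_self_nonneg _))
                have h11 : 0 ≤ (ev (ph (u s)) y * (ev (dd (u s)) y * ev (dd (u s)) y *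
                    (ev (sg (u s)) y * ev (sg (u s)) y))) * (ev (ww (u s)) y + b s) :=
                  mul_nonneg h10 (by simp only [hb]; linarith)
                have h12 := mul_le_mul_of_nonneg_right h9 h6
                nlinarith)
            have h8 : ev (Int0 (algebraMap ℝ CI (-(C4 * b s)))) x = -(C4 * b s) * x := by
              rw [ev_Int0 _ (mem_I_of hx)]
              simp only [ev_algebraMap, intervalIntegral.integral_const, sub_zero, smul_eq_mul]
              ring
            rw [h8] at h7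
            have h9 : 0 ≤ C4 * b s * (1 - x) := mul_nonneg (mul_nonneg hC4' h6) (by linarith [hx.2])
            unfold be
            nlinarith
          have hq : 0 ≤ ev q0 x := by
            rw [Good.q0_ev (mem_I_of hx)]; exact mul_self_nonneg _
          have hqs : 0 ≤ ev q0 x * (ev (sg (u s)) x * ev (sg (u s)) x) :=
            mul_nonneg hq (mul_self_nonneg _)
          have hb2 := (abs_le.mp ((abs_ev_le _ x).trans (hC2 s hs))).2
          have hb3 := (abs_le.mp ((abs_ev_le _ x).trans (hC3 s hs))).2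
          simp only [ev_mul] at hb2 hb3
          simp only [ev_mul, ev_add, Good.ev_two]
          have h13 : 0 ≤ (ev q0 x * (ev (sg (u s)) x * ev (sg (u s)) x)) * (ev (dd (u s)) x *
              (ev (ww (u s)) x + b s)) :=
            mul_nonneg hqs (mul_nonneg (hddp x) (by simp only [hb]; linarith))
          have h14 : 0 ≤ (ev q0 x * (ev (sg (u s)) x * ev (sg (u s)) x)) *
              (2 * (ev (be (u s)) x + C4 * b s)) :=
            mul_nonneg hqs (by linarith)
          have h15 : 0 ≤ (C2 - ev q0 x * (ev (sg (u s)) x * ev (sg (u s)) x) *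
              ev (dd (u s)) x) * b s := mul_nonneg (by linarith) h6
          have h16 : 0 ≤ (C3 - ev q0 x * (ev (sg (u s)) x * ev (sg (u s)) x)) *
              (2 * C4 * b s) := mul_nonneg (by linarith) (by positivity)
          have h17 : 0 ≤ C1 * b s := mul_nonneg hC1' h6
          have hCe : C * b s = C1 * b s + C2 * b s + 2 * C3 * C4 * b s := by rw [hC]; ring
          rw [hCe]
          calc (0:ℝ) ≤ _ := add_nonneg (add_nonneg (add_nonneg (add_nonneg h13 h14) h15) h16) h17
            _ = _ := by ring)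
      have h1 := hm z ht ht.1
      simp only [h0, mul_zero] at h1
      have h2 : 0 ≤ ev (Pp uz) x := by
        have e : Pp uz = -q0p := by
          unfold Pp
          have : nu uz = 0 := rfl
          rw [this]; simp
        rw [e, ev_neg, Good.q0p_ev (mem_I_of hx), neg_neg]
        have := hx.1
        have := hx.2
        have : 0 ≤ 1 - x * x := by nlinarith
        positivity
      have h3 : B * (0:ℝ) ^ (n + 1) / (n + 1).factorial = 0 := by simp
      rw [h3] at h1
      linarith

lemma pos_sol (h : Sol F u t₁) (h0 : u 0 = uz) :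
    ∀ t ∈ Icc 0 t₁, ∀ x ∈ Icc (0:ℝ) 1, 0 ≤ ev (ww (u t)) x ∧ 0 ≤ ev (Pp (u t)) x := by
  obtain ⟨B, C, hB, hC, hn⟩ := pos_aux h h0
  intro t ht x hx
  have hlim : Tendsto (fun n : ℕ => -(B * (C * t) ^ n / n.factorial)) atTop (𝓝 0) := by
    have := (FloorSemiring.tendsto_pow_div_factorial_atTop (C * t)).const_mul (-B)
    simp only [mul_zero] at this
    refine this.congr fun n => ?_
    ring
  exact ⟨le_of_tendsto hlim (Eventually.of_forall fun n => (hn n t ht x hx).1),
    le_of_tendsto hlim (Eventually.of_forall fun n => (hn n t ht x hx).2)⟩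

theorem good_of_sol (h : Sol F u t₁) (h0 : u 0 = uz) : ∀ t ∈ Icc 0 t₁, Good (u t) :=
  fun t ht =>
  { rs := inv_rs h h0 t ht
    ddp := inv_dd h h0 t ht
    tr := sym h h0 t ht
    ph1 := inv_ph1 h h0 t ht
    sgp := fun x _ => sg_pos h h0 t ht x
    wwp := fun x hx => (pos_sol h h0 t ht x hx).1
    ppp := fun x hx => (pos_sol h h0 t ht x hx).2 }

end Pool.Agent.Work.MP_49ac7c_an
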