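import Pool.Agent.Work.MP_49ac7c_an.Cont

/-!
Regularity of the Lagrangian solution.
-/

set_option autoImplicit false

namespace Pool.Agent.Work.MP_49ac7c_an

open Set Metric Filter Topology MeasureTheory
open scoped NNReal ContDiff

/-- curves in `C([-1,1])`, smooth in time with `k` smooth `x`-derivatives. -/
def Dk (t₁ : ℝ) : ℕ → (ℝ → CI) → Prop
  | 0, f => ContDiffOn ℝ ∞ f (Icc 0 t₁)
  | k + 1, f => ∃ (c : ℝ → ℝ) (g : ℝ → CI), ContDiffOn ℝ ∞ c (Icc 0 t₁) ∧ Dk t₁ k g ∧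
      ∀ t ∈ Icc 0 t₁, f t = algebraMap ℝ CI (c t) + Int0 (g t)

variable {t₁ : ℝ} {k : ℕ}

lemma CDO_cst {c : ℝ → ℝ} (hc : ContDiffOn ℝ ∞ c (Icc 0 t₁)) :
    ContDiffOn ℝ ∞ (fun t => algebraMap ℝ CI (c t)) (Icc 0 t₁) :=
  ((Algebra.linearMap ℝ CI).toContinuousLinearMap).contDiff.comp_contDiffOn hc

lemma CDO_int {f : ℝ → CI} (hf : ContDiffOn ℝ ∞ f (Icc 0 t₁)) :
    ContDiffOn ℝ ∞ (fun t => Int0 (f t)) (Icc 0 t₁) := Int0.contDiff.comp_contDiffOn hf

lemma Dk.cdo {f : ℝ → CI} (h : Dk t₁ k f) : ContDiffOn ℝ ∞ f (Icc 0 t₁) := by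
  induction k generalizing f with
  | zero => exact h
  | succ k ih =>
    obtain ⟨c, g, hc, hg, e⟩ := h
    exact ((CDO_cst hc).add (CDO_int (ih hg))).congr e

lemma Dk.congr {f g : ℝ → CI} (h : Dk t₁ k f) (e : ∀ t ∈ Icc 0 t₁, g t = f t) :
    Dk t₁ k g := by
  cases k with
  | zero => exact ContDiffOn.congr h e
  | succ k =>
    obtain ⟨c, f', hc, hf', e'⟩ := h
    exact ⟨c, f', hc, hf', fun t ht => (e t ht).trans (e' t ht)⟩

lemma Dk.cst (k : ℕ) {c : ℝ → ℝ} (hc : ContDiffOn ℝ ∞ c (Icc 0 t₁)) :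
    Dk t₁ k (fun t => algebraMap ℝ CI (c t)) := by
  have hz : ∀ k, Dk t₁ k (fun _ => (0 : CI)) := by
    intro k
    induction k with
    | zero => exact contDiffOn_const
    | succ k ih => exact ⟨fun _ => 0, fun _ => 0, contDiffOn_const, ih, fun t _ => by simp⟩
  cases k with
  | zero => exact CDO_cst hc
  | succ k => exact ⟨c, fun _ => 0, hc, hz k, fun t _ => by simp⟩

lemma Dk.int {f : ℝ → CI} (h : Dk t₁ k f) : Dk t₁ (k + 1) (fun t => Int0 (f t)) :=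
  ⟨fun _ => 0, f, contDiffOn_const, h, fun t _ => by simp⟩

lemma Dk.add {f g : ℝ → CI} (hf : Dk t₁ k f) (hg : Dk t₁ k g) :
    Dk t₁ k (fun t => f t + g t) := by
  induction k generalizing f g with
  | zero => exact ContDiffOn.add hf hg
  | succ k ih =>
    obtain ⟨c, f', hc, hf', e⟩ := hf
    obtain ⟨d, g', hd, hg', e'⟩ := hg
    refine ⟨fun t => c t + d t, fun t => f' t + g' t, hc.add hd, ih hf' hg', fun t ht => ?_⟩
    beta_reduce
    rw [e t ht, e' t ht, map_add, map_add]; ring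

lemma Dk.neg {f : ℝ → CI} (hf : Dk t₁ k f) : Dk t₁ k (fun t => -(f t)) := by
  induction k generalizing f with
  | zero => exact ContDiffOn.neg hf
  | succ k ih =>
    obtain ⟨c, f', hc, hf', e⟩ := hf
    refine ⟨fun t => -(c t), fun t => -(f' t), hc.neg, ih hf', fun t ht => ?_⟩
    beta_reduce
    rw [e t ht, map_neg, map_neg]; ring

lemma Dk.sub {f g : ℝ → CI} (hf : Dk t₁ k f) (hg : Dk t₁ k g) :
    Dk t₁ k (fun t => f t - g t) := by
  have := hf.add hg.neg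
  simpa [sub_eq_add_neg] using this

lemma Dk.pred {f : ℝ → CI} (h : Dk t₁ (k + 1) f) : Dk t₁ k f := by
  induction k generalizing f with
  | zero => exact h.cdo
  | succ k ih =>
    obtain ⟨c, g, hc, hg, e⟩ := h
    exact ⟨c, g, hc, ih hg, e⟩

lemma mul_eq_ftc (c d : ℝ) (f g : CI) :
    (algebraMap ℝ CI c + Int0 f) * (algebraMap ℝ CI d + Int0 g) =
      algebraMap ℝ CI (c * d) + Int0 (f * (algebraMap ℝ CI d + Int0 g) +
        (algebraMap ℝ CI c + Int0 f) * g) := by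
  have h1 : Dx (algebraMap ℝ CI c + Int0 f) f := ((Dx.const c).add (Dx.Int0 f)).congr (zero_add _)
  have h2 : Dx (algebraMap ℝ CI d + Int0 g) g := ((Dx.const d).add (Dx.Int0 g)).congr (zero_add _)
  have h3 := ftc (h1.mul h2)
  rw [h3]
  simp

lemma Dk.mul {f g : ℝ → CI} (hf : Dk t₁ k f) (hg : Dk t₁ k g) :
    Dk t₁ k (fun t => f t * g t) := by
  induction k generalizing f g with
  | zero => exact ContDiffOn.mul hf hg
  | succ k ih =>
    have hf0 := hf.pred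
    have hg0 := hg.pred
    obtain ⟨c, f', hc, hf', e⟩ := hf
    obtain ⟨d, g', hd, hg', e'⟩ := hg
    refine ⟨fun t => c t * d t, fun t => f' t * g t + f t * g' t, hc.mul hd,
      (ih hf' hg0).add (ih hf0 hg'), fun t ht => ?_⟩
    beta_reduce
    rw [e t ht, e' t ht, mul_eq_ftc]

lemma Dk.one (k : ℕ) : Dk t₁ k (fun _ => (1 : CI)) := by
  have := Dk.cst (t₁ := t₁) k (c := fun _ => 1) contDiffOn_const
  simpa using this

lemma Dk.num (k : ℕ) (c : ℝ) : Dk t₁ k (fun _ => algebraMap ℝ CI c) :=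
  Dk.cst k contDiffOn_const

lemma Dk.two (k : ℕ) : Dk t₁ k (fun _ => (2 : CI)) := by
  have := Dk.num (t₁ := t₁) k 2
  rwa [map_ofNat] at this

lemma Dk.four (k : ℕ) : Dk t₁ k (fun _ => (4 : CI)) := by
  have := Dk.num (t₁ := t₁) k 4
  rwa [map_ofNat] at this

lemma Dk.Xc (k : ℕ) : Dk t₁ k (fun _ => Xc) := (Dk.int (Dk.one k)).pred

lemma Dk.q0 (k : ℕ) : Dk t₁ k (fun _ => q0) :=
  ((Dk.one k).sub ((Dk.Xc k).mul (Dk.Xc k))).mul ((Dk.one k).sub ((Dk.Xc k).mul (Dk.Xc k)))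

lemma Dk.q0p (k : ℕ) : Dk t₁ k (fun _ => q0p) :=
  (((Dk.four k).mul (Dk.Xc k)).mul ((Dk.one k).sub ((Dk.Xc k).mul (Dk.Xc k)))).neg

/-! ### linear systems -/

lemma cont_bdd {f : ℝ → CI} (h : ContinuousOn f (Icc 0 t₁)) :
    ∃ C : ℝ, 0 ≤ C ∧ ∀ t ∈ Icc 0 t₁, ‖f t‖ ≤ C := by
  obtain ⟨C, hC⟩ := (isCompact_Icc.image_of_continuousOn h).isBounded.exists_norm_le
  exact ⟨max C 0, le_max_right _ _, fun t ht => (hC _ ⟨t, ht, rfl⟩).trans (le_max_left _ _)⟩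

lemma lin_exists (ht1 : 0 ≤ t₁) {a b c d g h : ℝ → CI}
    (ha : ContinuousOn a (Icc 0 t₁)) (hb : ContinuousOn b (Icc 0 t₁))
    (hc : ContinuousOn c (Icc 0 t₁)) (hd : ContinuousOn d (Icc 0 t₁))
    (hg : ContinuousOn g (Icc 0 t₁)) (hh : ContinuousOn h (Icc 0 t₁)) :
    ∃ V W : ℝ → CI, V 0 = 0 ∧ W 0 = 0 ∧
      (∀ t ∈ Icc 0 t₁, HasDerivWithinAt V (a t * V t + b t * W t + g t) (Icc 0 t₁) t) ∧
      (∀ t ∈ Icc 0 t₁, HasDerivWithinAt W (c t * V t + d t * W t + h t) (Icc 0 t₁) t) := by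
  obtain ⟨Ca, hCa0, hCa⟩ := cont_bdd ha
  obtain ⟨Cb, hCb0, hCb⟩ := cont_bdd hb
  obtain ⟨Cc, hCc0, hCc⟩ := cont_bdd hc
  obtain ⟨Cd, hCd0, hCd⟩ := cont_bdd hd
  obtain ⟨α, h0, hα⟩ := lip_exists (E := CI × CI)
    (fun t x => (a t * x.1 + b t * x.2 + g t, c t * x.1 + d t * x.2 + h t)) t₁ ht1
    (fun x => (((ha.mul continuousOn_const).add (hb.mul continuousOn_const)).add hg).prodMk
      (((hc.mul continuousOn_const).add (hd.mul continuousOn_const)).add hh))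
    (Ca + Cb + Cc + Cd) (by positivity) (fun t ht x y => by
      have e1 : ‖x.1 - y.1‖ ≤ ‖x - y‖ := norm_fst_le (x - y)
      have e2 : ‖x.2 - y.2‖ ≤ ‖x - y‖ := norm_snd_le (x - y)
      have hn := norm_nonneg (x - y)
      rw [Prod.mk_sub_mk, Prod.norm_mk]
      refine max_le ?_ ?_
      · have e : a t * x.1 + b t * x.2 + g t - (a t * y.1 + b t * y.2 + g t) =
            a t * (x.1 - y.1) + b t * (x.2 - y.2) := by ring
        rw [e]
        calc _ ≤ ‖a t‖ * ‖x.1 - y.1‖ + ‖b t‖ * ‖x.2 - y.2‖ :=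
              (norm_add_le _ _).trans (add_le_add (norm_mul_le _ _) (norm_mul_le _ _))
          _ ≤ Ca * ‖x - y‖ + Cb * ‖x - y‖ := by
              gcongr
              · exact hCa t ht
              · exact hCb t ht
          _ ≤ _ := by nlinarith [mul_nonneg hCc0 hn, mul_nonneg hCd0 hn]
      · have e : c t * x.1 + d t * x.2 + h t - (c t * y.1 + d t * y.2 + h t) =
            c t * (x.1 - y.1) + d t * (x.2 - y.2) := by ring
        rw [e]
        calc _ ≤ ‖c t‖ * ‖x.1 - y.1‖ + ‖d t‖ * ‖x.2 - y.2‖ :=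
              (norm_add_le _ _).trans (add_le_add (norm_mul_le _ _) (norm_mul_le _ _))
          _ ≤ Cc * ‖x - y‖ + Cd * ‖x - y‖ := by
              gcongr
              · exact hCc t ht
              · exact hCd t ht
          _ ≤ _ := by nlinarith [mul_nonneg hCa0 hn, mul_nonneg hCb0 hn]) 0
  refine ⟨fun t => (α t).1, fun t => (α t).2, by beta_reduce; rw [h0]; rfl,
    by beta_reduce; rw [h0]; rfl,
    fun t ht => ?_, fun t ht => ?_⟩
  · exact HasDerivWithinAt.clm (hα t ht) (ContinuousLinearMap.fst ℝ CI CI)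
  · exact HasDerivWithinAt.clm (hα t ht) (ContinuousLinearMap.snd ℝ CI CI)

lemma lin_zero {a b c d g h v w : ℝ → CI}
    (ha : ContDiffOn ℝ ∞ a (Icc 0 t₁)) (hb : ContDiffOn ℝ ∞ b (Icc 0 t₁))
    (hc : ContDiffOn ℝ ∞ c (Icc 0 t₁)) (hd : ContDiffOn ℝ ∞ d (Icc 0 t₁))
    (hg : ContDiffOn ℝ ∞ g (Icc 0 t₁)) (hh : ContDiffOn ℝ ∞ h (Icc 0 t₁))
    (hv : ∀ t ∈ Icc 0 t₁, HasDerivWithinAt v (a t * v t + b t * w t + g t) (Icc 0 t₁) t)
    (hw : ∀ t ∈ Icc 0 t₁, HasDerivWithinAt w (c t * v t + d t * w t + h t) (Icc 0 t₁) t) :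
    ContDiffOn ℝ ∞ v (Icc 0 t₁) ∧ ContDiffOn ℝ ∞ w (Icc 0 t₁) := by
  have key : ContDiffOn ℝ ∞ (fun t => (v t, w t)) (Icc 0 t₁) := by
    refine ODE.contDiffOn_enat_Icc_of_hasDerivWithinAt (n := ⊤) (u := univ)
      (f := fun t x => (a t * x.1 + b t * x.2 + g t, c t * x.1 + d t * x.2 + h t)) ?_
      (fun t ht => (hv t ht).prodMk (hw t ht)) (fun _ _ => mem_univ _)
    have hfst : ∀ {f : ℝ → CI}, ContDiffOn ℝ ∞ f (Icc 0 t₁) →
        ContDiffOn ℝ ∞ (fun p : ℝ × (CI × CI) => f p.1) (Icc 0 t₁ ×ˢ univ) := fun hf =>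
      hf.comp contDiffOn_fst (fun p hp => hp.1)
    have h1 : ContDiffOn ℝ ∞ (fun p : ℝ × (CI × CI) => p.2.1) (Icc 0 t₁ ×ˢ univ) :=
      (contDiff_fst.comp contDiff_snd).contDiffOn
    have h2 : ContDiffOn ℝ ∞ (fun p : ℝ × (CI × CI) => p.2.2) (Icc 0 t₁ ×ˢ univ) :=
      (contDiff_snd.comp contDiff_snd).contDiffOn
    exact ((((hfst ha).mul h1).add ((hfst hb).mul h2)).add (hfst hg)).prodMk
      ((((hfst hc).mul h1).add ((hfst hd).mul h2)).add (hfst hh))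
  exact ⟨contDiff_fst.comp_contDiffOn key, contDiff_snd.comp_contDiffOn key⟩

theorem lin_Dk (ht1 : 0 ≤ t₁) (k : ℕ) : ∀ (a b c d g h v w : ℝ → CI),
    Dk t₁ k a → Dk t₁ k b → Dk t₁ k c → Dk t₁ k d → Dk t₁ k g → Dk t₁ k h →
    (∀ t ∈ Icc 0 t₁, HasDerivWithinAt v (a t * v t + b t * w t + g t) (Icc 0 t₁) t) →
    (∀ t ∈ Icc 0 t₁, HasDerivWithinAt w (c t * v t + d t * w t + h t) (Icc 0 t₁) t) →
    v 0 = 0 → w 0 = 0 → Dk t₁ k v ∧ Dk t₁ k w := by
  induction k with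
  | zero =>
    intro a b c d g h v w ha hb hc hd hg hh hv hw _ _
    exact lin_zero ha hb hc hd hg hh hv hw
  | succ k ih =>
    intro a b c d g h v w ha hb hc hd hg hh hv hw hv0 hw0
    obtain ⟨kv, kw⟩ := ih a b c d g h v w ha.pred hb.pred hc.pred hd.pred hg.pred hh.pred
      hv hw hv0 hw0
    have ha' := ha.pred
    have hb' := hb.pred
    have hc' := hc.pred
    have hd' := hd.pred
    have hcda := ha.cdo.continuousOn
    have hcdb := hb.cdo.continuousOn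
    have hcdc := hc.cdo.continuousOn
    have hcdd := hd.cdo.continuousOn
    obtain ⟨a0, a1, ha0, ha1, ea⟩ := ha
    obtain ⟨b0, b1, hb0, hb1, eb⟩ := hb
    obtain ⟨c0, c1, hc0, hc1, ec⟩ := hc
    obtain ⟨d0, d1, hd0, hd1, ed⟩ := hd
    obtain ⟨g0, g1, hg0, hg1, eg⟩ := hg
    obtain ⟨h0, h1, hh0, hh1, eh⟩ := hh
    have hdx : ∀ {f : ℝ → CI} {c : ℝ → ℝ} {f1 : ℝ → CI},
        (∀ t ∈ Icc 0 t₁, f t = algebraMap ℝ CI (c t) + Int0 (f1 t)) →
        ∀ t ∈ Icc 0 t₁, Dx (f t) (f1 t) := by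
      intro f c f1 e t ht
      rw [e t ht]
      exact ((Dx.const _).add (Dx.Int0 _)).congr (zero_add _)
    have kG : Dk t₁ k (fun t => a1 t * v t + b1 t * w t + g1 t) :=
      ((ha1.mul kv).add (hb1.mul kw)).add hg1
    have kH : Dk t₁ k (fun t => c1 t * v t + d1 t * w t + h1 t) :=
      ((hc1.mul kv).add (hd1.mul kw)).add hh1
    obtain ⟨V, W, hV0, hW0, hV, hW⟩ := lin_exists ht1 hcda hcdb hcdc hcdd
      kG.cdo.continuousOn kH.cdo.continuousOn
    obtain ⟨kV, kW⟩ := ih a b c d _ _ V W ha' hb' hc' hd' kG kH hV hW hV0 hW0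
    -- the error terms
    set e1 : ℝ → CI := fun t => algebraMap ℝ CI (ev (v t) 0) + Int0 (V t) - v t with he1
    set e2 : ℝ → CI := fun t => algebraMap ℝ CI (ev (w t) 0) + Int0 (W t) - w t with he2
    have hvv : ∀ t, Dx (v t + e1 t) (V t) := fun t => by
      have : v t + e1 t = algebraMap ℝ CI (ev (v t) 0) + Int0 (V t) := by simp only [he1]; ring
      rw [this]
      exact ((Dx.const _).add (Dx.Int0 _)).congr (zero_add _)
    have hww : ∀ t, Dx (w t + e2 t) (W t) := fun t => by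
      have : w t + e2 t = algebraMap ℝ CI (ev (w t) 0) + Int0 (W t) := by simp only [he2]; ring
      rw [this]
      exact ((Dx.const _).add (Dx.Int0 _)).congr (zero_add _)
    have he10 : ∀ t, ev (e1 t) 0 = 0 := fun t => by simp only [he1]; simp
    have he20 : ∀ t, ev (e2 t) 0 = 0 := fun t => by simp only [he2]; simp
    have hder1 : ∀ t ∈ Icc 0 t₁, HasDerivWithinAt e1
        (a t * e1 t + b t * e2 t - Int0 (a1 t * e1 t + b1 t * e2 t)) (Icc 0 t₁) t := by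
      intro t ht
      have hd1' := ((HasDerivWithinAt.cst (HasDerivWithinAt.ev (hv t ht) 0)).add
        (HasDerivWithinAt.clm (hV t ht) Int0)).sub (hv t ht)
      refine hd1'.congr_deriv ?_
      have hD : Dx (a t * (v t + e1 t) + b t * (w t + e2 t) + g t -
          Int0 (a1 t * e1 t + b1 t * e2 t))
          (a t * V t + b t * W t + (a1 t * v t + b1 t * w t + g1 t)) := by
        refine (((((hdx ea t ht).mul (hvv t)).add ((hdx eb t ht).mul (hww t))).add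
          (hdx eg t ht)).sub (Dx.Int0 _)).congr ?_
        ring
      have h3 := ftc hD
      have h4 : ev (a t * (v t + e1 t) + b t * (w t + e2 t) + g t -
          Int0 (a1 t * e1 t + b1 t * e2 t)) 0 = ev (a t * v t + b t * w t + g t) 0 := by
        simp [he10, he20]
      rw [h4] at h3
      rw [← h3]; ring
    have hder2 : ∀ t ∈ Icc 0 t₁, HasDerivWithinAt e2
        (c t * e1 t + d t * e2 t - Int0 (c1 t * e1 t + d1 t * e2 t)) (Icc 0 t₁) t := by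
      intro t ht
      have hd1' := ((HasDerivWithinAt.cst (HasDerivWithinAt.ev (hw t ht) 0)).add
        (HasDerivWithinAt.clm (hW t ht) Int0)).sub (hw t ht)
      refine hd1'.congr_deriv ?_
      have hD : Dx (c t * (v t + e1 t) + d t * (w t + e2 t) + h t -
          Int0 (c1 t * e1 t + d1 t * e2 t))
          (c t * V t + d t * W t + (c1 t * v t + d1 t * w t + h1 t)) := by
        refine (((((hdx ec t ht).mul (hvv t)).add ((hdx ed t ht).mul (hww t))).add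
          (hdx eh t ht)).sub (Dx.Int0 _)).congr ?_
        ring
      have h3 := ftc hD
      have h4 : ev (c t * (v t + e1 t) + d t * (w t + e2 t) + h t -
          Int0 (c1 t * e1 t + d1 t * e2 t)) 0 = ev (c t * v t + d t * w t + h t) 0 := by
        simp [he10, he20]
      rw [h4] at h3
      rw [← h3]; ring
    obtain ⟨Ca, hCa0, hCa⟩ := cont_bdd hcda
    obtain ⟨Cb, hCb0, hCb⟩ := cont_bdd hcdb
    obtain ⟨Cc, hCc0, hCc⟩ := cont_bdd hcdc
    obtain ⟨Cd, hCd0, hCd⟩ := cont_bdd hcdd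
    obtain ⟨Ca1, hCa10, hCa1⟩ := cont_bdd ha1.cdo.continuousOn
    obtain ⟨Cb1, hCb10, hCb1⟩ := cont_bdd hb1.cdo.continuousOn
    obtain ⟨Cc1, hCc10, hCc1⟩ := cont_bdd hc1.cdo.continuousOn
    obtain ⟨Cd1, hCd10, hCd1⟩ := cont_bdd hd1.cdo.continuousOn
    have hE : ∀ t ∈ Icc 0 t₁, (e1 t, e2 t) = (0 : CI × CI) := by
      refine eq_zero_of_deriv_bound (K := Ca + Cb + Ca1 + Cb1 + (Cc + Cd + Cc1 + Cd1))
        (fun t ht => (hder1 t ht).prodMk (hder2 t ht)) ?_ (fun t ht => ?_)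
      · simp only [he1, he2, hv0, hw0, hV0, hW0]
        simp
      · have ht' : t ∈ Icc 0 t₁ := ⟨ht.1, ht.2.le⟩
        have x1 : ‖e1 t‖ ≤ ‖(e1 t, e2 t)‖ := norm_fst_le (e1 t, e2 t)
        have x2 : ‖e2 t‖ ≤ ‖(e1 t, e2 t)‖ := norm_snd_le (e1 t, e2 t)
        set N := ‖(e1 t, e2 t)‖ with hN
        have hN0 : 0 ≤ N := norm_nonneg _
        have bound : ∀ (p q p1 q1 : CI) (Cp Cq Cp1 Cq1 : ℝ), 0 ≤ Cp → 0 ≤ Cq → 0 ≤ Cp1 →
            0 ≤ Cq1 → ‖p‖ ≤ Cp → ‖q‖ ≤ Cq → ‖p1‖ ≤ Cp1 → ‖q1‖ ≤ Cq1 →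
            ‖p * e1 t + q * e2 t - Int0 (p1 * e1 t + q1 * e2 t)‖ ≤
              (Cp + Cq + Cp1 + Cq1) * N := by
          intro p q p1 q1 Cp Cq Cp1 Cq1 h1 h2 h3 h4 h5 h6 h7 h8
          calc _ ≤ ‖p * e1 t + q * e2 t‖ + ‖Int0 (p1 * e1 t + q1 * e2 t)‖ := norm_sub_le _ _
            _ ≤ ‖p * e1 t + q * e2 t‖ + ‖p1 * e1 t + q1 * e2 t‖ := by
                gcongr; exact norm_Int0_le _
            _ ≤ (‖p‖ * ‖e1 t‖ + ‖q‖ * ‖e2 t‖) + (‖p1‖ * ‖e1 t‖ + ‖q1‖ * ‖e2 t‖) := by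
                gcongr
                · exact (norm_add_le _ _).trans (add_le_add (norm_mul_le _ _) (norm_mul_le _ _))
                · exact (norm_add_le _ _).trans (add_le_add (norm_mul_le _ _) (norm_mul_le _ _))
            _ ≤ (Cp * N + Cq * N) + (Cp1 * N + Cq1 * N) := by gcongr
            _ = _ := by ring
        rw [Prod.norm_mk]
        refine max_le ?_ ?_
        · refine (bound _ _ _ _ Ca Cb Ca1 Cb1 hCa0 hCb0 hCa10 hCb10 (hCa t ht') (hCb t ht')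
            (hCa1 t ht') (hCb1 t ht')).trans ?_
          have : 0 ≤ (Cc + Cd + Cc1 + Cd1) * N := by positivity
          nlinarith
        · refine (bound _ _ _ _ Cc Cd Cc1 Cd1 hCc0 hCd0 hCc10 hCd10 (hCc t ht') (hCd t ht')
            (hCc1 t ht') (hCd1 t ht')).trans ?_
          have : 0 ≤ (Ca + Cb + Ca1 + Cb1) * N := by positivity
          nlinarith
    have hsm : ∀ {f : ℝ → CI}, ContDiffOn ℝ ∞ f (Icc 0 t₁) →
        ContDiffOn ℝ ∞ (fun t => ev (f t) 0) (Icc 0 t₁) := fun hf =>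
      (evL 0).contDiff.comp_contDiffOn hf
    refine ⟨⟨fun t => ev (v t) 0, V, hsm kv.cdo, kV, fun t ht => ?_⟩,
      ⟨fun t => ev (w t) 0, W, hsm kw.cdo, kW, fun t ht => ?_⟩⟩
    · have := congrArg Prod.fst (hE t ht)
      simp only [he1, Prod.fst_zero] at this
      exact (sub_eq_zero.mp this).symm
    · have := congrArg Prod.snd (hE t ht)
      simp only [he2, Prod.snd_zero] at this
      exact (sub_eq_zero.mp this).symm

/-! ### application to the solution -/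

variable {u : ℝ → E}

lemma Dx_rh {v : E} (hG : Good v) : Dx (rh v) (-(rh v * rh v * nu v)) := by
  intro x hx
  have h1 := Dx_sg v x hx
  have h2 := (hG.sgp x hx).ne'
  have h3 := h1.inv h2
  have e : ∀ y : ℝ, ev (rh v) y * ev (sg v) y = 1 := fun y => hG.rh_eq
  refine HasDerivWithinAt.congr_of_mem (f := (ev (sg v))⁻¹) ?_ (fun y hy => ?_) hx
  · refine h3.congr_deriv ?_
    have e1 : ev (rh v) x = (ev (sg v) x)⁻¹ := by
      exact eq_inv_of_mul_eq_one_left (e x)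
    simp only [ev_neg, ev_mul, e1]
    field_simp
  · rw [Pi.inv_apply]
    exact eq_inv_of_mul_eq_one_left (e y)

lemma Dx_dd {v : E} (hG : Good v) :
    Dx (dd v) (-(dd v * dd v * (2 * ph v * (sg v * sg v)))) := by
  intro x hx
  have h1 : HasDerivWithinAt (fun y => 1 + ev (ph v) y * ev (ph v) y)
      (ev (2 * ph v * (sg v * sg v)) x) I x := by
    refine ((((Dx_ph v) x hx).mul ((Dx_ph v) x hx)).const_add 1).congr_deriv ?_
    simp only [ev_mul, Good.ev_two]; ring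
  have hne : ∀ y, 1 + ev (ph v) y * ev (ph v) y ≠ 0 := fun y => by
    have := mul_self_nonneg (ev (ph v) y); positivity
  have h3 := h1.inv (hne x)
  refine HasDerivWithinAt.congr_of_mem (f := (fun y => 1 + ev (ph v) y * ev (ph v) y)⁻¹) ?_
    (fun y hy => ?_) hx
  · refine h3.congr_deriv ?_
    have e1 : ev (dd v) x = (1 + ev (ph v) x * ev (ph v) x)⁻¹ := by
      exact eq_inv_of_mul_eq_one_left hG.dd_eq
    have e2 := hne x
    simp only [ev_neg, ev_mul, e1]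
    field_simp
  · rw [Pi.inv_apply]
    exact eq_inv_of_mul_eq_one_left hG.dd_eq

lemma sol_smooth (h : Sol F u t₁) : ContDiffOn ℝ ∞ u (Icc 0 t₁) := by
  refine ODE.contDiffOn_enat_Icc_of_hasDerivWithinAt (n := ⊤) (u := univ)
      (f := fun _ x => F x) ?_ h (fun _ _ => mem_univ _)
  exact (CD_F.comp contDiff_snd).contDiffOn

/-- the package of regularity. -/
structure Rk (t₁ : ℝ) (k : ℕ) (u : ℝ → E) : Prop where
  nu : Dk t₁ k (fun t => nu (u t))
  ww : Dk t₁ k (fun t => ww (u t))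
  rh : Dk t₁ k (fun t => rh (u t))
  dd : Dk t₁ k (fun t => dd (u t))

section
variable {k : ℕ}

lemma Rk.s0 (h : Sol F u t₁) : ContDiffOn ℝ ∞ (fun t => (u t).1) (Icc 0 t₁) :=
  contDiff_fst.comp_contDiffOn (sol_smooth h)

lemma Rk.sg' (h : Sol F u t₁) (hR : Rk t₁ k u) : Dk t₁ (k + 1) (fun t => sg (u t)) :=
  ⟨fun t => (u t).1, fun t => MP_49ac7c_an.nu (u t), Rk.s0 h, hR.nu, fun _ _ => rfl⟩

lemma Rk.ph' (h : Sol F u t₁) (hR : Rk t₁ k u) : Dk t₁ (k + 1) (fun t => ph (u t)) :=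
  ((Rk.sg' h hR).mul (Rk.sg' h hR)).int.pred

lemma Rk.mm (h : Sol F u t₁) (hR : Rk t₁ k u) : Dk t₁ k (fun t => mm (u t)) :=
  ((hR.dd.mul hR.dd).mul hR.ww).mul ((Rk.sg' h hR).pred.mul (Rk.sg' h hR).pred)

lemma Rk.ff (h : Sol F u t₁) (hR : Rk t₁ k u) : Dk t₁ k (fun t => ff (u t)) :=
  ((Dk.one k).sub ((Rk.ph' h hR).pred.mul (Rk.ph' h hR).pred)).mul (Rk.mm h hR)

lemma Rk.gg (h : Sol F u t₁) (hR : Rk t₁ k u) : Dk t₁ k (fun t => gg (u t)) :=
  (Rk.ph' h hR).pred.mul (Rk.mm h hR)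

lemma Rk.al (h : Sol F u t₁) (hR : Rk t₁ k u) : Dk t₁ (k + 1) (fun t => al (u t)) :=
  (Dk.cst (k + 1) (CD_Av.comp_contDiffOn (sol_smooth h))).sub (Rk.ff h hR).int

lemma Rk.be (h : Sol F u t₁) (hR : Rk t₁ k u) : Dk t₁ (k + 1) (fun t => be (u t)) :=
  (Rk.gg h hR).int

lemma Rk.Kk (h : Sol F u t₁) (hR : Rk t₁ k u) : Dk t₁ (k + 1) (fun t => Kk (u t)) :=
  (Rk.al h hR).sub (((Dk.two (k + 1)).mul (Rk.ph' h hR)).mul (Rk.be h hR))

lemma Rk.Hh (h : Sol F u t₁) (hR : Rk t₁ k u) : Dk t₁ (k + 1) (fun t => Hh (u t)) :=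
  ((Rk.ph' h hR).mul (Rk.al h hR)).add
    (((Dk.one (k + 1)).sub ((Rk.ph' h hR).mul (Rk.ph' h hR))).mul (Rk.be h hR))

lemma Rk.rh' (h : Sol F u t₁) (h0 : u 0 = uz) (hR : Rk t₁ k u) :
    Dk t₁ (k + 1) (fun t => MP_49ac7c_an.rh (u t)) :=
  ⟨fun t => ev (MP_49ac7c_an.rh (u t)) 0,
    fun t => -(MP_49ac7c_an.rh (u t) * MP_49ac7c_an.rh (u t) * MP_49ac7c_an.nu (u t)),
    (evL 0).contDiff.comp_contDiffOn hR.rh.cdo, ((hR.rh.mul hR.rh).mul hR.nu).neg,
    fun t ht => ftc (Dx_rh (good_of_sol h h0 t ht))⟩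

lemma Rk.dd' (h : Sol F u t₁) (h0 : u 0 = uz) (hR : Rk t₁ k u) :
    Dk t₁ (k + 1) (fun t => MP_49ac7c_an.dd (u t)) :=
  ⟨fun t => ev (MP_49ac7c_an.dd (u t)) 0,
    fun t => -(MP_49ac7c_an.dd (u t) * MP_49ac7c_an.dd (u t) *
      (2 * ph (u t) * (sg (u t) * sg (u t)))),
    (evL 0).contDiff.comp_contDiffOn hR.dd.cdo,
    ((hR.dd.mul hR.dd).mul (((Dk.two k).mul (Rk.ph' h hR).pred).mul
      ((Rk.sg' h hR).pred.mul (Rk.sg' h hR).pred))).neg,
    fun t ht => ftc (Dx_dd (good_of_sol h h0 t ht))⟩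

theorem Rk_all (ht1 : 0 ≤ t₁) (h : Sol F u t₁) (h0 : u 0 = uz) (k : ℕ) : Rk t₁ k u := by
  induction k with
  | zero =>
    have hs := sol_smooth h
    exact ⟨CD_nu.comp_contDiffOn hs, CD_ww.comp_contDiffOn hs, CD_rh.comp_contDiffOn hs,
      CD_dd.comp_contDiffOn hs⟩
  | succ k hR =>
    have ksg := Rk.sg' h hR
    have kph := Rk.ph' h hR
    have krh := Rk.rh' h h0 hR
    have kdd := Rk.dd' h h0 hR
    have kK := Rk.Kk h hR
    have kbe := Rk.be h hR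
    have key := lin_Dk ht1 (k + 1) (fun t => Kk (u t))
      (fun t => -((1 + ph (u t) * ph (u t)) * (dd (u t) * dd (u t)) *
        (sg (u t) * sg (u t)) * sg (u t)))
      (fun t => -(rh (u t) * rh (u t) * q0)) (fun _ => algebraMap ℝ CI 0)
      (fun t => -(2 * (sg (u t) * sg (u t)) * be (u t) * sg (u t)))
      (fun t => -(rh (u t) * q0p))
      (fun t => nu (u t)) (fun t => ww (u t)) kK
      ((((((Dk.one (k + 1)).add (kph.mul kph)).mul (kdd.mul kdd)).mul (ksg.mul ksg)).mul ksg).neg)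
      ((krh.mul krh).mul (Dk.q0 (k + 1))).neg (Dk.num (k + 1) 0)
      ((((Dk.two (k + 1)).mul (ksg.mul ksg)).mul kbe).mul ksg).neg
      (krh.mul (Dk.q0p (k + 1))).neg
      (fun t ht => by
        refine (hd_nu (h t ht)).congr_deriv ?_
        unfold kap mm; ring)
      (fun t ht => by
        refine (hd_ww (h t ht)).congr_deriv ?_
        rw [map_zero]; ring)
      (by simp only [h0]; rfl) (by simp only [h0]; rfl)
    exact ⟨key.1, key.2, krh, kdd⟩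

end

end Pool.Agent.Work.MP_49ac7c_an
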