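import Pool.Agent.Work.MP_49ac7c_an.Deriv

/-!
Inequalities for a fixed state.
-/

set_option autoImplicit false

namespace Pool.Agent.Work.MP_49ac7c_an

open Set Metric Filter Topology MeasureTheory
open scoped NNReal ContDiff

/-- Lagrangian vorticity production, times `σ`. -/
noncomputable def Pp (u : E) : CI := -(q0p + q0 * nu u * rh u)

structure Good (u : E) : Prop where
  rs : rh u * sg u = 1
  ddp : dd u * (1 + ph u * ph u) = 1
  tr : Tr u = u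
  ph1 : ev (ph u) 1 = 1
  sgp : ∀ x ∈ I, 0 < ev (sg u) x
  wwp : ∀ x ∈ Icc (0:ℝ) 1, 0 ≤ ev (ww u) x
  ppp : ∀ x ∈ Icc (0:ℝ) 1, 0 ≤ ev (Pp u) x

lemma mem_I_of {x : ℝ} (hx : x ∈ Icc (0:ℝ) 1) : x ∈ I := ⟨by linarith [hx.1], hx.2⟩

/-- integral comparison on `[0,x]`. -/
lemma ev_Int0_le {f g : CI} {x : ℝ} (hx : x ∈ Icc (0:ℝ) 1)
    (h : ∀ y ∈ Icc 0 x, ev f y ≤ ev g y) : ev (Int0 f) x ≤ ev (Int0 g) x := by
  rw [ev_Int0 _ (mem_I_of hx), ev_Int0 _ (mem_I_of hx)]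
  exact intervalIntegral.integral_mono_on hx.1 ((continuous_ev f).intervalIntegrable _ _)
    ((continuous_ev g).intervalIntegrable _ _) h

lemma ev_Int0_nonneg {f : CI} {x : ℝ} (hx : x ∈ Icc (0:ℝ) 1)
    (h : ∀ y ∈ Icc 0 x, 0 ≤ ev f y) : 0 ≤ ev (Int0 f) x := by
  have := ev_Int0_le (f := 0) (g := f) hx (by simpa using h)
  simpa using this

lemma ev_Int0_mono {f : CI} {x y : ℝ} (hx : x ∈ Icc (0:ℝ) 1) (hy : y ∈ Icc (0:ℝ) 1)
    (hxy : x ≤ y) (h : ∀ z ∈ Icc x y, 0 ≤ ev f z) : ev (Int0 f) x ≤ ev (Int0 f) y := by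
  rw [ev_Int0 _ (mem_I_of hx), ev_Int0 _ (mem_I_of hy)]
  have h1 := intervalIntegral.integral_add_adjacent_intervals
    ((continuous_ev f).intervalIntegrable (μ := volume) 0 x)
    ((continuous_ev f).intervalIntegrable (μ := volume) x y)
  have h2 : 0 ≤ ∫ s in x..y, ev f s := intervalIntegral.integral_nonneg hxy h
  linarith

lemma ev_Int0_const_mul (c : ℝ) (f : CI) {x : ℝ} :
    ev (Int0 (c • f)) x = c * ev (Int0 f) x := by
  rw [map_smul]; rfl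

variable {u : E}

namespace Good

lemma rh_eq (h : Good u) {x : ℝ} : ev (rh u) x * ev (sg u) x = 1 := by
  have := congrArg (fun f => ev f x) h.rs
  simpa using this

lemma rhp (h : Good u) {x : ℝ} (hx : x ∈ I) : 0 < ev (rh u) x := by
  have h1 := h.rh_eq (x := x)
  have h2 := h.sgp x hx
  by_contra hn
  push Not at hn
  nlinarith

lemma dd_eq (h : Good u) {x : ℝ} : ev (dd u) x * (1 + ev (ph u) x * ev (ph u) x) = 1 := by
  have := congrArg (fun f => ev f x) h.ddp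
  simpa using this

lemma ddpos (h : Good u) {x : ℝ} : 0 < ev (dd u) x := by
  have h1 := h.dd_eq (x := x)
  have h2 := mul_self_nonneg (ev (ph u) x)
  by_contra hn
  push Not at hn
  nlinarith

lemma dd_le_one (h : Good u) {x : ℝ} : ev (dd u) x ≤ 1 := by
  have h1 := h.dd_eq (x := x)
  have h2 := mul_self_nonneg (ev (ph u) x)
  have h3 := h.ddpos (x := x)
  nlinarith

lemma ph_mono (h : Good u) {x y : ℝ} (hx : x ∈ Icc (0:ℝ) 1) (hy : y ∈ Icc (0:ℝ) 1)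
    (hxy : x ≤ y) : ev (ph u) x ≤ ev (ph u) y :=
  ev_Int0_mono hx hy hxy fun z _ => by simpa using mul_self_nonneg (ev (sg u) z)

lemma ph_nonneg (h : Good u) {x : ℝ} (hx : x ∈ Icc (0:ℝ) 1) : 0 ≤ ev (ph u) x :=
  ev_Int0_nonneg hx fun z _ => by simpa using mul_self_nonneg (ev (sg u) z)

lemma ph_le_one (h : Good u) {x : ℝ} (hx : x ∈ Icc (0:ℝ) 1) : ev (ph u) x ≤ 1 := by
  have := h.ph_mono hx ⟨zero_le_one, le_rfl⟩ hx.2
  rwa [h.ph1] at this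

lemma mm_nonneg (h : Good u) {x : ℝ} (hx : x ∈ Icc (0:ℝ) 1) : 0 ≤ ev (mm u) x := by
  unfold mm
  simp only [ev_mul]
  exact mul_nonneg (mul_nonneg (mul_self_nonneg _) (h.wwp x hx)) (mul_self_nonneg _)

lemma ff_nonneg (h : Good u) {x : ℝ} (hx : x ∈ Icc (0:ℝ) 1) : 0 ≤ ev (ff u) x := by
  unfold ff
  simp only [ev_mul, ev_sub, ev_one]
  have h1 := h.mm_nonneg hx
  have h2 := h.ph_nonneg hx
  have h3 := h.ph_le_one hx
  have : 0 ≤ 1 - ev (ph u) x * ev (ph u) x := by nlinarith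
  positivity

lemma gg_nonneg (h : Good u) {x : ℝ} (hx : x ∈ Icc (0:ℝ) 1) : 0 ≤ ev (gg u) x := by
  unfold gg
  simp only [ev_mul]
  exact mul_nonneg (h.ph_nonneg hx) (h.mm_nonneg hx)

lemma ff_odd (h : Good u) : -(Rf (ff u)) = ff u := by
  have := ff_Tr u
  rw [h.tr] at this
  exact this.symm

lemma Av_eq (h : Good u) : Av u = ev (Int0 (ff u)) 1 := by
  have h1 : ev (Int0 (ff u)) (-1) = ev (Int0 (ff u)) 1 := by
    rw [← ev_Rf _ one_mem_I, ← Int0_neg_Rf, h.ff_odd]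
  unfold Av
  rw [evL_apply, evL_apply, h1]; ring

lemma Av_nonneg (h : Good u) : 0 ≤ Av u := by
  rw [h.Av_eq]
  exact ev_Int0_nonneg ⟨zero_le_one, le_rfl⟩ fun z hz => h.ff_nonneg hz

lemma al_eq (u : E) (x : ℝ) : ev (al u) x = Av u - ev (Int0 (ff u)) x := by
  unfold al; simp

lemma al_nonneg (h : Good u) {x : ℝ} (hx : x ∈ Icc (0:ℝ) 1) : 0 ≤ ev (al u) x := by
  rw [al_eq, h.Av_eq]
  have := ev_Int0_mono (f := ff u) hx ⟨zero_le_one, le_rfl⟩ hx.2 fun z hz =>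
    h.ff_nonneg ⟨hx.1.trans hz.1, hz.2⟩
  linarith

lemma int_ff_nonneg (h : Good u) {x : ℝ} (hx : x ∈ Icc (0:ℝ) 1) : 0 ≤ ev (Int0 (ff u)) x :=
  ev_Int0_nonneg hx fun _ hz => h.ff_nonneg ⟨hz.1, hz.2.trans hx.2⟩

lemma int_ff_le (h : Good u) {x : ℝ} (hx : x ∈ Icc (0:ℝ) 1) : ev (Int0 (ff u)) x ≤ Av u := by
  have := h.al_nonneg hx
  rw [al_eq] at this; linarith

lemma al_le (h : Good u) {x : ℝ} (hx : x ∈ Icc (0:ℝ) 1) : ev (al u) x ≤ Av u := by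
  rw [al_eq]; linarith [h.int_ff_nonneg hx]

lemma be_nonneg (h : Good u) {x : ℝ} (hx : x ∈ Icc (0:ℝ) 1) : 0 ≤ ev (be u) x :=
  ev_Int0_nonneg hx fun _ hz => h.gg_nonneg ⟨hz.1, hz.2.trans hx.2⟩

lemma Kk_ev (u : E) (x : ℝ) : ev (Kk u) x = ev (al u) x - 2 * ev (ph u) x * ev (be u) x := rfl

lemma Hh_ev (u : E) (x : ℝ) : ev (Hh u) x =
    ev (ph u) x * ev (al u) x + (1 - ev (ph u) x * ev (ph u) x) * ev (be u) x := rfl

lemma Kk_le (h : Good u) {x : ℝ} (hx : x ∈ Icc (0:ℝ) 1) : ev (Kk u) x ≤ Av u := by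
  rw [Kk_ev]
  have h1 := h.al_le hx
  have h2 := mul_nonneg (h.ph_nonneg hx) (h.be_nonneg hx)
  linarith

lemma Hh_nonneg (h : Good u) {x : ℝ} (hx : x ∈ Icc (0:ℝ) 1) : 0 ≤ ev (Hh u) x := by
  rw [Hh_ev]
  have h1 := mul_nonneg (h.ph_nonneg hx) (h.al_nonneg hx)
  have h2 := h.ph_nonneg hx
  have h3 := h.ph_le_one hx
  have h4 : 0 ≤ 1 - ev (ph u) x * ev (ph u) x := by nlinarith
  have h5 := mul_nonneg h4 (h.be_nonneg hx)
  linarith

/-- `∫_0^x m` controls `β`. -/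
lemma be_le (h : Good u) {x : ℝ} (hx : x ∈ Icc (0:ℝ) 1) :
    ev (be u) x ≤ ev (ph u) x * ev (Int0 (mm u)) x := by
  have := ev_Int0_le (f := gg u) (g := (ev (ph u) x) • mm u) hx (fun y hy => by
    have hy1 : y ∈ Icc (0:ℝ) 1 := ⟨hy.1, hy.2.trans hx.2⟩
    simp only [gg, ev_mul, ev_smul]
    exact mul_le_mul_of_nonneg_right (h.ph_mono hy1 hx hy.2) (h.mm_nonneg hy1))
  rw [ev_Int0_const_mul] at this
  exact this

lemma int_mm_le (h : Good u) {x : ℝ} (hx : x ∈ Icc (0:ℝ) 1) :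
    (1 - ev (ph u) x * ev (ph u) x) * ev (Int0 (mm u)) x ≤ ev (Int0 (ff u)) x := by
  have := ev_Int0_le (f := (1 - ev (ph u) x * ev (ph u) x) • mm u) (g := ff u) hx (fun y hy => by
    have hy1 : y ∈ Icc (0:ℝ) 1 := ⟨hy.1, hy.2.trans hx.2⟩
    simp only [ff, ev_mul, ev_smul, ev_sub, ev_one]
    refine mul_le_mul_of_nonneg_right ?_ (h.mm_nonneg hy1)
    have h1 := h.ph_mono hy1 hx hy.2
    have h2 := h.ph_nonneg hy1
    nlinarith)
  rw [ev_Int0_const_mul] at this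
  exact this

lemma int_mm_nonneg (h : Good u) {x : ℝ} (hx : x ∈ Icc (0:ℝ) 1) : 0 ≤ ev (Int0 (mm u)) x :=
  ev_Int0_nonneg hx fun _ hz => h.mm_nonneg ⟨hz.1, hz.2.trans hx.2⟩

/-- `h(y) ≤ A y`. -/
lemma Hh_le (h : Good u) {x : ℝ} (hx : x ∈ Icc (0:ℝ) 1) :
    ev (Hh u) x ≤ Av u * ev (ph u) x := by
  rw [Hh_ev, al_eq]
  have h1 := h.be_le hx
  have h2 := h.int_mm_le hx
  have h3 := h.ph_nonneg hx
  have h4 := h.ph_le_one hx
  have h5 : 0 ≤ 1 - ev (ph u) x * ev (ph u) x := by nlinarith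
  have h6 := mul_le_mul_of_nonneg_left h1 h5
  have h7 := mul_le_mul_of_nonneg_left h2 h3
  nlinarith

lemma Kk_ge (h : Good u) {x : ℝ} (hx : x ∈ Icc (0:ℝ) 1) (hh : ev (ph u) x ≤ 1 / 2) :
    -(2 / 3) * Av u ≤ ev (Kk u) x := by
  rw [Kk_ev]
  have h1 := h.be_le hx
  have h2 := h.int_mm_le hx
  have h2' := h.int_ff_le hx
  have h3 := h.ph_nonneg hx
  have h4 := h.int_mm_nonneg hx
  have h5 := h.al_nonneg hx
  have h6 : (3 / 4) * ev (Int0 (mm u)) x ≤ Av u := by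
    have : (3 / 4 : ℝ) ≤ 1 - ev (ph u) x * ev (ph u) x := by nlinarith
    have := mul_le_mul_of_nonneg_right this h4
    linarith
  have h7 : ev (be u) x ≤ 1 / 2 * ev (Int0 (mm u)) x := by
    have := mul_le_mul_of_nonneg_right hh h4
    linarith
  have h8 := h.be_nonneg hx
  nlinarith

/-- `M(x) = ∫_0^x w σ²`. -/
noncomputable def Mx (u : E) : CI := Int0 (ww u * (sg u * sg u))

lemma dd_ge (h : Good u) {x : ℝ} (hx : x ∈ Icc (0:ℝ) 1) (hh : ev (ph u) x ≤ 1 / 2) :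
    4 / 5 ≤ ev (dd u) x := by
  have h1 := h.dd_eq (x := x)
  have h3 := h.ph_nonneg hx
  have h4 : ev (ph u) x * ev (ph u) x ≤ 1 / 4 := by nlinarith
  have h5 := h.ddpos (x := x)
  nlinarith

lemma Mx_le (h : Good u) {x : ℝ} (hx : x ∈ Icc (0:ℝ) 1) (hh : ev (ph u) x ≤ 1 / 2) :
    (12 / 25) * ev (Mx u) x ≤ Av u := by
  refine le_trans ?_ (h.int_ff_le hx)
  unfold Mx
  rw [← ev_Int0_const_mul]
  refine ev_Int0_le hx fun y hy => ?_
  have hy1 : y ∈ Icc (0:ℝ) 1 := ⟨hy.1, hy.2.trans hx.2⟩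
  have hy2 : ev (ph u) y ≤ 1 / 2 := (h.ph_mono hy1 hx hy.2).trans hh
  simp only [ff, mm, ev_mul, ev_smul, ev_sub, ev_one]
  have h0 := h.ph_nonneg hy1
  have h1 : (3 / 4 : ℝ) ≤ 1 - ev (ph u) y * ev (ph u) y := by nlinarith
  have h2 := h.dd_ge hy1 hy2
  have h3 : (16 / 25 : ℝ) ≤ ev (dd u) y * ev (dd u) y := by nlinarith
  have h4 : (12 / 25 : ℝ) ≤ (1 - ev (ph u) y * ev (ph u) y) * (ev (dd u) y * ev (dd u) y) := by
    nlinarith
  have h5 : 0 ≤ ev (ww u) y * (ev (sg u) y * ev (sg u) y) :=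
    mul_nonneg (h.wwp y hy1) (mul_self_nonneg _)
  have := mul_le_mul_of_nonneg_right h4 h5
  calc _ ≤ _ := this
    _ = _ := by ring

lemma Mx_nonneg (h : Good u) {x : ℝ} (hx : x ∈ Icc (0:ℝ) 1) : 0 ≤ ev (Mx u) x :=
  ev_Int0_nonneg hx fun z hz => by
    simpa using mul_nonneg (h.wwp z ⟨hz.1, hz.2.trans hx.2⟩) (mul_self_nonneg _)

lemma q0_zero : ev q0 0 = 1 := by
  unfold q0; simp [ev_Xc zero_mem_I]

lemma q0_ev {x : ℝ} (hx : x ∈ I) : ev q0 x = (1 - x * x) * (1 - x * x) := by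
  unfold q0; simp [ev_Xc hx]

lemma ev_four (x : ℝ) : ev (4 : CI) x = 4 := rfl
lemma ev_two (x : ℝ) : ev (2 : CI) x = 2 := rfl

lemma q0p_ev {x : ℝ} (hx : x ∈ I) : ev q0p x = -(4 * x * (1 - x * x)) := by
  unfold q0p; simp [ev_Xc hx, ev_four]

/-- `q σ` in Lagrangian form has derivative `- P σ`. -/
lemma Dx_q (h : Good u) : Dx (q0 * sg u) (-(Pp u * sg u)) := by
  refine (Dx_q0.mul (Dx_sg u)).congr ?_
  unfold Pp
  have : q0 * nu u * rh u * sg u = q0 * nu u := by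
    rw [mul_assoc, h.rs, mul_one]
  calc q0p * sg u + q0 * nu u = q0p * sg u + q0 * nu u * rh u * sg u := by rw [this]
    _ = _ := by ring

lemma int_P (h : Good u) {x : ℝ} :
    ev (Int0 (Pp u * sg u)) x = u.1 - ev q0 x * ev (sg u) x := by
  have h1 := ftc h.Dx_q
  have h2 := congrArg (fun f => ev f x) h1
  simp only [ev_mul, ev_add, ev_algebraMap, map_neg, ev_neg, q0_zero, ev_sg_zero, one_mul] at h2
  linarith

lemma q_anti (h : Good u) {x y : ℝ} (hx : x ∈ Icc (0:ℝ) 1) (hy : y ∈ Icc (0:ℝ) 1)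
    (hxy : x ≤ y) : ev q0 y * ev (sg u) y ≤ ev q0 x * ev (sg u) x := by
  have h1 := h.int_P (x := x)
  have h2 := h.int_P (x := y)
  have := ev_Int0_mono (f := Pp u * sg u) hx hy hxy (fun z hz => by
    have hz1 : z ∈ Icc (0:ℝ) 1 := ⟨hx.1.trans hz.1, hz.2.trans hy.2⟩
    simpa using mul_nonneg (h.ppp z hz1) (h.sgp z (mem_I_of hz1)).le)
  linarith

end Good

end Pool.Agent.Work.MP_49ac7c_an
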